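import Pool.Agent.PWV.St

/-!
# Plane waves in Benjamini-Schramm limits, module LIM: the sums for the limit field (helper43)
-/

open Complex MeasureTheory Filter Topology Set
open UpperHalfPlane hiding I
open scoped ContDiff MatrixGroups ProbabilityTheory ENNReal

namespace PWV

open BSL NFP QE QE.NC QJ U3

noncomputable section

namespace LIM

lemma card_box (N : ℕ) : (box N).card = N ^ 2 := by
  unfold box
  rw [Finset.card_product, Finset.card_range, sq]

lemma card_quads (N : ℕ) : (quads N).card ≤ N ^ 6 := by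
  have h1 : (quads N).card ≤ (box N ×ˢ box N ×ˢ box N).card := by
    refine Finset.card_le_card_of_injOn
      (fun q : (ℕ × ℕ) × (ℕ × ℕ) × (ℕ × ℕ) × (ℕ × ℕ) => (q.1, q.2.1, q.2.2.1)) ?_ ?_
    · intro q hq
      have hq' := (Finset.mem_filter.1 hq).1
      rw [Finset.mem_product, Finset.mem_product, Finset.mem_product] at hq'
      show (q.1, q.2.1, q.2.2.1) ∈ ((box N ×ˢ box N ×ˢ box N : Finset _) : Set _)
      rw [Finset.mem_coe, Finset.mem_product, Finset.mem_product]
      exact ⟨hq'.1, hq'.2.1, hq'.2.2.1⟩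
    · intro q hq q' hq' he
      have e1 := (Finset.mem_filter.1 hq).2
      have e2 := (Finset.mem_filter.1 hq').2
      have he' : (q.1, q.2.1, q.2.2.1) = (q'.1, q'.2.1, q'.2.2.1) := he
      have a : q.1 = q'.1 := congrArg (fun t : (ℕ × ℕ) × (ℕ × ℕ) × (ℕ × ℕ) => t.1) he'
      have b : q.2.1 = q'.2.1 := congrArg (fun t : (ℕ × ℕ) × (ℕ × ℕ) × (ℕ × ℕ) => t.2.1) he'
      have c : q.2.2.1 = q'.2.2.1 := congrArg (fun t : (ℕ × ℕ) × (ℕ × ℕ) × (ℕ × ℕ) => t.2.2) he'
      have d : q.2.2.2 = q'.2.2.2 := by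
        rw [← a, ← b, ← c] at e2
        exact add_left_cancel (e1.trans e2.symm)
      exact Prod.ext a (Prod.ext b (Prod.ext c d))
  refine h1.trans ?_
  rw [Finset.card_product, Finset.card_product, card_box]
  exact le_of_eq (by ring)

lemma abs_qs {N : ℕ} {G : (Fin 4 → ℂ) → ℝ} {B : ℝ} (hB : 0 ≤ B) (h : ∀ x, |G x| ≤ B) :
    |qs N G| ≤ B := by
  unfold qs
  rw [abs_mul, abs_of_nonneg (by positivity : (0 : ℝ) ≤ 1 / (N : ℝ) ^ 6)]
  have h1 : |∑ q ∈ quads N, G ![pt q.1, pt q.2.1, pt q.2.2.1, pt q.2.2.2]| ≤ (N : ℝ) ^ 6 * B := by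
    refine (Finset.abs_sum_le_sum_abs _ _).trans ?_
    refine (Finset.sum_le_card_nsmul _ _ B fun q _ => h _).trans ?_
    rw [nsmul_eq_mul]
    refine mul_le_mul_of_nonneg_right ?_ hB
    exact_mod_cast card_quads N
  rcases Nat.eq_zero_or_pos N with h0 | h0
  · subst h0
    simpa using hB
  · have h2 : (0 : ℝ) < (N : ℝ) ^ 6 := by positivity
    refine (mul_le_mul_of_nonneg_left h1 (by positivity)).trans (le_of_eq ?_)
    rw [← mul_assoc, one_div, inv_mul_cancel₀ h2.ne', one_mul]

lemma abs_bl {N : ℕ} {G : ℂ → ℂ → ℝ} {B : ℝ} (hB : 0 ≤ B) (h : ∀ x y, |G x y| ≤ B) :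
    |bl N G| ≤ B := by
  unfold bl
  rw [abs_mul, abs_of_nonneg (by positivity : (0 : ℝ) ≤ 1 / (N : ℝ) ^ 4)]
  have h1 : |∑ p ∈ box N, ∑ q ∈ box N, G (pt p) (pt q)| ≤ (N : ℝ) ^ 4 * B := by
    refine (Finset.abs_sum_le_sum_abs _ _).trans ?_
    have h2 : ∀ p ∈ box N, |∑ q ∈ box N, G (pt p) (pt q)| ≤ (N : ℝ) ^ 2 * B := by
      intro p _
      refine (Finset.abs_sum_le_sum_abs _ _).trans ?_
      refine (Finset.sum_le_card_nsmul _ _ B fun q _ => h _ _).trans (le_of_eq ?_)
      rw [nsmul_eq_mul, card_box]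
      push_cast
      rfl
    refine (Finset.sum_le_card_nsmul _ _ _ h2).trans (le_of_eq ?_)
    rw [nsmul_eq_mul, card_box]
    push_cast
    ring
  rcases Nat.eq_zero_or_pos N with h0 | h0
  · subst h0
    simpa using hB
  · have h2 : (0 : ℝ) < (N : ℝ) ^ 4 := by positivity
    refine (mul_le_mul_of_nonneg_left h1 (by positivity)).trans (le_of_eq ?_)
    rw [← mul_assoc, one_div, inv_mul_cancel₀ h2.ne', one_mul]

end LIM

open LIM

theorem t_LIM (h1 : StmtWkq) (h2 : StmtWkl) (h3 : StmtWkb) (h4 : StmtRkq) : StmtLim := by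
  intro Γ _ D ρ s κ hE
  have hg : Berry.Geo Γ ρ D :=
    geo_of hE.mD hE.fd hE.fac.cpt (continuous_of_smooth hE.fac.smooth) hE.fac.inv
  have hP := ONE.prob_nu hg
  have js2 := ONE.int_nu hg hE.sq
  have jd := ONE.int_nu hg hE.di
  have hfin := hE.fin
  have jw : ∀ x : Fin 4 → ℂ, Integrable (fun z => dirWick (s z) x)
      (ProbabilityTheory.cond (Berry.area ρ) D) := fun x => ONE.int_nu hg (hE.dw x)
  have hae : ∀ᵐ z ∂(ProbabilityTheory.cond (Berry.area ρ) D),
      (((s z).prod (s z)) {p : S1 × S1 | p.1 = -p.2}).toReal = dg (s z) := by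
    filter_upwards [HUL.ae_cond (ρ := ρ) (D := D) (HUL.odd_zero hE.fam)] with z hz
    exact (t_WIE (s z) (hfin z)).2 hz
  unfold Berry.rAvg
  set ν := ProbabilityTheory.cond (Berry.area ρ) D with hν
  set S := ∫ z, ((s z) univ).toReal ^ 2 ∂ν with hS
  set d := ∫ z, dia (s z) ∂ν with hd
  set rr := (κ - 3 * S) / 3 with hrr
  have hF : ∀ x, fourF ρ D s κ x = (∫ z, dirWick (s z) x ∂ν) + rr * resK x := fun _ => rfl
  constructor
  · have e : ∀ N, qs N (fourF ρ D s κ) = (∫ z, qs N (dirWick (s z)) ∂ν) + rr * qs N resK := by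
      intro N
      unfold qs
      rw [integral_const_mul, integral_finsetSum _ fun q _ => jw _]
      simp only [hF, Finset.sum_add_distrib, ← Finset.mul_sum]
      ring
    have l1 : Tendsto (fun N => ∫ z, qs N (dirWick (s z)) ∂ν) atTop
        (𝓝 (∫ z, 8 / 9 * dia (s z) ∂ν)) := by
      refine tendsto_integral_of_dominated_convergence
        (fun z => 3 * ((s z) univ).toReal ^ 2) (fun N => ?_) (js2.const_mul 3) (fun N => ?_) ?_
      · have h5 : Integrable (fun z => qs N (dirWick (s z))) ν := by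
          unfold qs
          exact (integrable_finsetSum _ fun q _ => jw _).const_mul _
        exact h5.aestronglyMeasurable
      · refine Eventually.of_forall fun z => ?_
        rw [Real.norm_eq_abs]
        exact abs_qs (by positivity) (h3 (s z) (hfin z))
      · filter_upwards [hae] with z hz
        exact h1 (s z) (hfin z) hz
    rw [integral_const_mul, ← hd] at l1
    have l2 := l1.add (h4.1.const_mul rr)
    have l3 : 8 / 9 * d + rr * (4 / 9) = 4 / 9 * (2 * d + rr) := by ring
    rw [l3] at l2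
    exact l2.congr fun N => (e N).symm
  · have e : ∀ N, (bl N fun x y => fourF ρ D s κ ![x, x, y, y]) =
        (∫ z, (bl N fun x y => dirWick (s z) ![x, x, y, y]) ∂ν) +
          rr * (bl N fun x y => resK ![x, x, y, y]) := by
      intro N
      unfold bl
      rw [integral_const_mul, integral_finsetSum _ fun p _ => integrable_finsetSum _ fun q _ =>
        jw _]
      have h6 : ∀ p ∈ box N, ∫ z, ∑ q ∈ box N, dirWick (s z) ![pt p, pt p, pt q, pt q] ∂ν =
          ∑ q ∈ box N, ∫ z, dirWick (s z) ![pt p, pt p, pt q, pt q] ∂ν := fun p _ =>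
        integral_finsetSum _ fun q _ => jw _
      rw [Finset.sum_congr rfl h6]
      simp only [hF, Finset.sum_add_distrib, ← Finset.mul_sum]
      ring
    have l1 : Tendsto (fun N => ∫ z, (bl N fun x y => dirWick (s z) ![x, x, y, y]) ∂ν) atTop
        (𝓝 (∫ z, (((s z) univ).toReal ^ 2 + 2 * dia (s z)) ∂ν)) := by
      refine tendsto_integral_of_dominated_convergence
        (fun z => 3 * ((s z) univ).toReal ^ 2) (fun N => ?_) (js2.const_mul 3) (fun N => ?_) ?_
      · have h5 : Integrable (fun z => bl N fun x y => dirWick (s z) ![x, x, y, y]) ν := by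
          unfold bl
          exact (integrable_finsetSum _ fun p _ => integrable_finsetSum _ fun q _ =>
            jw _).const_mul _
        exact h5.aestronglyMeasurable
      · refine Eventually.of_forall fun z => ?_
        rw [Real.norm_eq_abs]
        exact abs_bl (by positivity) fun x y => h3 (s z) (hfin z) _
      · filter_upwards [hae] with z hz
        exact h2 (s z) (hfin z) hz
    rw [integral_add js2 (jd.const_mul 2), integral_const_mul, ← hd, ← hS] at l1
    have l2 := l1.add (h4.2.const_mul rr)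
    rw [mul_comm rr 2] at l2
    exact l2.congr fun N => (e N).symm

end

end PWV
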