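import Pool.Agent.PWV.St

/-!
# No directional atoms: the mean of the squares of the masses of the atoms is zero (module ZDI)
-/

set_option autoImplicit false

open Complex MeasureTheory Filter Topology Set
open UpperHalfPlane hiding I
open scoped ContDiff MatrixGroups ProbabilityTheory ENNReal

namespace PWV

open BSL NFP QE QE.NC QJ U3

noncomputable section

namespace ZDI

/-- a sum over an interval of integers of length `N` in `(-2N, 2N)` -/
lemma sum_shift (a : ℤ → ℝ) (ha : ∀ k, 0 ≤ a k) (N : ℕ) (f : ℕ → ℤ) (hf : Function.Injective f)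
    (hm : ∀ k < N, f k ∈ Finset.Ioo (-((2 * N : ℕ) : ℤ)) ((2 * N : ℕ) : ℤ)) :
    ∑ k ∈ Finset.range N, a (f k) ≤ ∑ l ∈ Finset.Ioo (-((2 * N : ℕ) : ℤ)) ((2 * N : ℕ) : ℤ), a l := by
  rw [← Finset.sum_image (s := Finset.range N) (g := f) (f := a) (fun x _ y _ h => hf h)]
  refine Finset.sum_le_sum_of_subset_of_nonneg ?_ fun i _ _ => ha i
  intro l hl
  obtain ⟨k, hk, rfl⟩ := Finset.mem_image.1 hl
  exact hm k (Finset.mem_range.1 hk)

/-- each value of `j + k` and of `j - k` is taken at most `N` times -/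
lemma sum_pair (a : ℤ → ℝ) (ha : ∀ k, 0 ≤ a k) (N : ℕ) :
    1 / (N : ℝ) ^ 2 * ∑ j ∈ Finset.range N, ∑ k ∈ Finset.range N, (a ((j : ℤ) + k) + a ((j : ℤ) - k))
      ≤ 4 * (1 / ((2 * N : ℕ) : ℝ)
        * ∑ l ∈ Finset.Ioo (-((2 * N : ℕ) : ℤ)) ((2 * N : ℕ) : ℤ), a l) := by
  set S : ℝ := ∑ l ∈ Finset.Ioo (-((2 * N : ℕ) : ℤ)) ((2 * N : ℕ) : ℤ), a l with hS
  have h1 : ∀ j ∈ Finset.range N, ∑ k ∈ Finset.range N, (a ((j : ℤ) + k) + a ((j : ℤ) - k))
      ≤ 2 * S := by
    intro j hj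
    have hj' := Finset.mem_range.1 hj
    rw [Finset.sum_add_distrib]
    have a1 := sum_shift a ha N (fun k => (j : ℤ) + k) (fun x y h => by
      simpa using h) (fun k hk => by
      rw [Finset.mem_Ioo]
      constructor <;> push_cast <;> omega)
    have a2 := sum_shift a ha N (fun k => (j : ℤ) - k) (fun x y h => by
      simpa using h) (fun k hk => by
      rw [Finset.mem_Ioo]
      constructor <;> push_cast <;> omega)
    rw [two_mul]
    exact add_le_add a1 a2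
  have h2 := Finset.sum_le_sum h1
  rw [Finset.sum_const, Finset.card_range, nsmul_eq_mul] at h2
  rcases Nat.eq_zero_or_pos N with hN | hN
  · subst hN
    simp
  · have hN' : (0 : ℝ) < (N : ℝ) := by exact_mod_cast hN
    calc _ ≤ 1 / (N : ℝ) ^ 2 * ((N : ℝ) * (2 * S)) :=
          mul_le_mul_of_nonneg_left h2 (by positivity)
      _ = 4 * (1 / ((2 * N : ℕ) : ℝ) * S) := by
          push_cast
          field_simp
          ring

end ZDI

/-- **ZDI**: if the moments of the directional measures have no atoms in the mean, the average of the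
sum of the squares of the masses of the atoms is zero. -/
theorem t_ZDI : StmtZdi := by
  intro Γ _ D ρ φ m s hS hSem hN
  obtain ⟨ζ, hζ⟩ := t_CUT Γ D ρ hS.mD hS.fd hS.fac
  obtain ⟨d1, d2⟩ := MSD.cut_gen hS hζ (f := fun z => dia (s z))
    (KAP.dia_inv t_WIE lfe_closed hS hSem) (fun K hK hKU => KAP.dia_loc t_WIE hSem hK hKU)
  have h0 := hN ζ hζ.test hζ.nonneg
  have ha : ∀ k : ℤ, 0 ≤ ∫ z, ζ z * ‖um s k z‖ ^ 2 := fun k =>
    integral_nonneg fun z => mul_nonneg (hζ.nonneg z) (by positivity)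
  -- the bound for the mean of the squares
  have h1 : ∀ N : ℕ, ∫ z, ζ z * KAP.WN (s (ofComplex z)) N
      ≤ 4 * (1 / ((2 * N : ℕ) : ℝ) * ∑ l ∈ Finset.Ioo (-((2 * N : ℕ) : ℤ)) ((2 * N : ℕ) : ℤ),
        ∫ z, ζ z * ‖um s l z‖ ^ 2) := by
    intro N
    rw [← KAP.sum_int hSem hζ N]
    exact ZDI.sum_pair (fun k => ∫ z, ζ z * ‖um s k z‖ ^ 2) ha N
  have h2 : ∀ N : ℕ, 0 ≤ ∫ z, ζ z * KAP.WN (s (ofComplex z)) N := fun N =>
    integral_nonneg fun z => mul_nonneg (hζ.nonneg z) (KAP.WN_nonneg _ _)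
  have t0 : Tendsto (fun N : ℕ => 4 * (1 / ((2 * N : ℕ) : ℝ)
      * ∑ l ∈ Finset.Ioo (-((2 * N : ℕ) : ℤ)) ((2 * N : ℕ) : ℤ), ∫ z, ζ z * ‖um s l z‖ ^ 2)) atTop
      (𝓝 0) := by
    have h3 := (h0.comp (tendsto_atTop_mono (fun n => (by omega : n ≤ 2 * n))
      tendsto_id)).const_mul 4
    rw [mul_zero] at h3
    exact h3
  have t1 : Tendsto (fun N : ℕ => ∫ z, ζ z * KAP.WN (s (ofComplex z)) N) atTop (𝓝 0) :=
    squeeze_zero h2 h1 t0
  have t2 := tendsto_nhds_unique (KAP.lim_int t_WIE hSem hζ) t1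
  have e3 : ∫ z, ζ z * (2 * dia (s (ofComplex z))) = 2 * Berry.rAvg ρ D (fun z => dia (s z)) := by
    rw [← d2, ← integral_const_mul]
    refine integral_congr_ae (Eventually.of_forall fun z => ?_)
    beta_reduce
    ring
  rw [e3] at t2
  linarith

end

end PWV
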