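import Pool.Agent.PWV.St0

/-!
# Plane waves in Benjamini-Schramm limits: module CHR, sums of characters (helper22)
-/

set_option autoImplicit false

open Complex MeasureTheory Filter Topology Set
open UpperHalfPlane hiding I
open scoped ContDiff MatrixGroups ProbabilityTheory ENNReal

namespace PWV

open NFP QE

noncomputable section

namespace CHR

/-- one-dimensional additive quadruples -/
def Q1 (N : ℕ) : Finset (ℕ × ℕ × ℕ × ℕ) :=
  (Finset.range N ×ˢ Finset.range N ×ˢ Finset.range N ×ˢ Finset.range N).filter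
    fun q => q.1 + q.2.2.2 = q.2.1 + q.2.2.1

/-- the sum over the quadruples is a product -/
lemma sum_quads {R : Type} [CommSemiring R] (N : ℕ) (F G : ℕ × ℕ × ℕ × ℕ → R) :
    ∑ q ∈ quads N, F (q.1.1, q.2.1.1, q.2.2.1.1, q.2.2.2.1) *
        G (q.1.2, q.2.1.2, q.2.2.1.2, q.2.2.2.2) =
      (∑ q ∈ Q1 N, F q) * ∑ q ∈ Q1 N, G q := by
  rw [Finset.sum_mul_sum, ← Finset.sum_product']
  refine Finset.sum_nbij' (fun q => ((q.1.1, q.2.1.1, q.2.2.1.1, q.2.2.2.1),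
      (q.1.2, q.2.1.2, q.2.2.1.2, q.2.2.2.2)))
    (fun q => ((q.1.1, q.2.1), (q.1.2.1, q.2.2.1), (q.1.2.2.1, q.2.2.2.1),
      (q.1.2.2.2, q.2.2.2.2))) ?_ ?_ ?_ ?_ ?_
  · rintro ⟨⟨a, a'⟩, ⟨b, b'⟩, ⟨c, c'⟩, ⟨d, d'⟩⟩ h
    simp only [quads, box, Q1, Finset.mem_filter, Finset.mem_product, Finset.mem_range,
      Prod.mk_add_mk, Prod.mk.injEq] at h ⊢
    tauto
  · rintro ⟨⟨a, b, c, d⟩, ⟨a', b', c', d'⟩⟩ h
    simp only [quads, box, Q1, Finset.mem_filter, Finset.mem_product, Finset.mem_range,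
      Prod.mk_add_mk, Prod.mk.injEq] at h ⊢
    tauto
  · rintro ⟨⟨a, a'⟩, ⟨b, b'⟩, ⟨c, c'⟩, ⟨d, d'⟩⟩ h
    rfl
  · rintro ⟨⟨a, b, c, d⟩, ⟨a', b', c', d'⟩⟩ h
    rfl
  · rintro ⟨⟨a, a'⟩, ⟨b, b'⟩, ⟨c, c'⟩, ⟨d, d'⟩⟩ h
    rfl

/-- the first entries for given inner entries -/
def J (N k l : ℕ) : Finset ℕ := Finset.Ico (k + l + 1 - N) (min N (k + l + 1))

lemma sum_Q1 {M : Type} [AddCommMonoid M] (N : ℕ) (f : ℕ → ℕ → ℕ → M) :
    ∑ q ∈ Q1 N, f q.1 q.2.1 q.2.2.1 =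
      ∑ k ∈ Finset.range N, ∑ l ∈ Finset.range N, ∑ j ∈ J N k l, f j k l := by
  rw [← Finset.sum_product' (f := fun k l => ∑ j ∈ J N k l, f j k l), Finset.sum_sigma']
  refine Finset.sum_nbij' (fun q => ⟨(q.2.1, q.2.2.1), q.1⟩)
    (fun s => (s.2, s.1.1, s.1.2, s.1.1 + s.1.2 - s.2)) ?_ ?_ ?_ ?_ ?_
  · rintro ⟨j, k, l, m⟩ h
    simp only [Q1, J, Finset.mem_filter, Finset.mem_product, Finset.mem_range,
      Finset.mem_sigma, Finset.mem_Ico, lt_min_iff] at h ⊢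
    omega
  · rintro ⟨⟨k, l⟩, j⟩ h
    simp only [Q1, J, Finset.mem_filter, Finset.mem_product, Finset.mem_range,
      Finset.mem_sigma, Finset.mem_Ico, lt_min_iff] at h ⊢
    omega
  · rintro ⟨j, k, l, m⟩ h
    simp only [Q1, Finset.mem_filter, Finset.mem_product, Finset.mem_range] at h
    simp only [Prod.mk.injEq, true_and]
    omega
  · rintro ⟨⟨k, l⟩, j⟩ h
    rfl
  · rintro ⟨j, k, l, m⟩ h
    rfl

lemma card_J_le (N k l : ℕ) : (J N k l).card ≤ N := by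
  rw [J, Nat.card_Ico]
  omega

/-! ### exponentials -/

/-- the character -/
def ex (x : ℝ) : ℂ := Complex.exp ((x : ℂ) * Complex.I)

lemma norm_ex (x : ℝ) : ‖ex x‖ = 1 := Complex.norm_exp_ofReal_mul_I x

lemma ex_add (x y : ℝ) : ex (x + y) = ex x * ex y := by
  unfold ex
  rw [← Complex.exp_add]
  congr 1
  push_cast
  ring

lemma ex_nat (n : ℕ) (x : ℝ) : ex (n * x) = ex x ^ n := by
  unfold ex
  rw [← Complex.exp_nat_mul]
  congr 1
  push_cast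
  ring

lemma ex_re (x : ℝ) : (ex x).re = Real.cos x := Complex.exp_ofReal_mul_I_re x

lemma ex_ne {x : ℝ} (h0 : x ≠ 0) (h1 : |x| < 2 * Real.pi) : ex x ≠ 1 := by
  intro h
  obtain ⟨n, hn⟩ := Complex.exp_eq_one_iff.1 h
  have h2 : (x : ℂ) = ((n * (2 * Real.pi) : ℝ) : ℂ) := by
    have h3 : (x : ℂ) * Complex.I = ((n * (2 * Real.pi) : ℝ) : ℂ) * Complex.I := by
      rw [hn]
      push_cast
      ring
    exact mul_right_cancel₀ Complex.I_ne_zero h3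
  have h3 : x = n * (2 * Real.pi) := by exact_mod_cast h2
  have hpi := Real.pi_pos
  rw [h3, abs_mul, abs_of_pos (by positivity : (0 : ℝ) < 2 * Real.pi)] at h1
  have h4 : |(n : ℝ)| < 1 := by
    by_contra hcon
    push Not at hcon
    have := mul_le_mul_of_nonneg_right hcon (by positivity : (0 : ℝ) ≤ 2 * Real.pi)
    linarith
  have h5 : n = 0 := by
    have h6 : |n| < 1 := by exact_mod_cast h4
    rwa [Int.abs_lt_one_iff] at h6
  apply h0
  rw [h3, h5]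
  simp

/-- the bound of the geometric sums -/
def gb (x : ℝ) : ℝ := 2 / ‖ex x - 1‖

lemma gb_nonneg (x : ℝ) : 0 ≤ gb x := by
  unfold gb
  positivity

lemma geo {x : ℝ} (h : ex x ≠ 1) (m n : ℕ) : ‖∑ j ∈ Finset.Ico m n, ex x ^ j‖ ≤ gb x := by
  rcases le_or_gt m n with hmn | hmn
  · rw [geom_sum_Ico h hmn, norm_div, gb]
    apply div_le_div_of_nonneg_right _ (norm_nonneg _)
    calc ‖ex x ^ n - ex x ^ m‖ ≤ ‖ex x ^ n‖ + ‖ex x ^ m‖ := norm_sub_le _ _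
      _ = 2 := by
        rw [norm_pow, norm_pow, norm_ex, one_pow, one_pow]
        norm_num
  · rw [Finset.Ico_eq_empty (by omega), Finset.sum_empty, norm_zero]
    exact gb_nonneg x

/-- the one-dimensional sum -/
def S (N : ℕ) (α β γ : ℝ) : ℂ := ∑ q ∈ Q1 N, ex (q.1 * α + q.2.1 * β + q.2.2.1 * γ)

lemma S_eq (N : ℕ) (α β γ : ℝ) : S N α β γ = ∑ k ∈ Finset.range N, ∑ l ∈ Finset.range N,
    (ex β ^ k * ex γ ^ l) * ∑ j ∈ J N k l, ex α ^ j := by
  unfold S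
  rw [sum_Q1 N (fun j k l => ex (j * α + k * β + l * γ))]
  refine Finset.sum_congr rfl fun k _ => Finset.sum_congr rfl fun l _ => ?_
  rw [Finset.mul_sum]
  refine Finset.sum_congr rfl fun j _ => ?_
  rw [ex_add, ex_add, ex_nat, ex_nat, ex_nat]
  ring

lemma S_le (N : ℕ) (α β γ C : ℝ) (hC : ∀ k l, ‖∑ j ∈ J N k l, ex α ^ j‖ ≤ C) :
    ‖S N α β γ‖ ≤ N ^ 2 * C := by
  rw [S_eq]
  calc _ ≤ ∑ k ∈ Finset.range N, ∑ l ∈ Finset.range N, C := by
        refine (norm_sum_le _ _).trans (Finset.sum_le_sum fun k _ => ?_)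
        refine (norm_sum_le _ _).trans (Finset.sum_le_sum fun l _ => ?_)
        rw [norm_mul, norm_mul, norm_pow, norm_pow, norm_ex, norm_ex, one_pow, one_pow,
          one_mul, one_mul]
        exact hC k l
    _ = N ^ 2 * C := by
        simp only [Finset.sum_const, Finset.card_range, nsmul_eq_mul]
        ring

lemma S_triv (N : ℕ) (α β γ : ℝ) : ‖S N α β γ‖ ≤ N ^ 3 := by
  have h := S_le N α β γ N (fun k l => by
    calc ‖∑ j ∈ J N k l, ex α ^ j‖ ≤ ∑ j ∈ J N k l, ‖ex α ^ j‖ := norm_sum_le _ _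
      _ = ((J N k l).card : ℝ) := by
        simp only [norm_pow, norm_ex, one_pow, Finset.sum_const, nsmul_eq_mul, mul_one]
      _ ≤ N := by exact_mod_cast card_J_le N k l)
  calc _ ≤ _ := h
    _ = _ := by ring

lemma S_geo (N : ℕ) {α : ℝ} (β γ : ℝ) (h : ex α ≠ 1) : ‖S N α β γ‖ ≤ N ^ 2 * gb α :=
  S_le N α β γ _ fun _ _ => geo h _ _

lemma ip_pt (q : ℕ × ℕ) (a : ℂ) : ip (pt q) a = q.1 * a.re + q.2 * a.im := by
  simp [ip, pt]

/-- the two-dimensional sum -/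
lemma sum_ex (N : ℕ) (a b c : ℂ) :
    ∑ q ∈ quads N, ex (ip (pt q.1) a + ip (pt q.2.1) b + ip (pt q.2.2.1) c) =
      S N a.re b.re c.re * S N a.im b.im c.im := by
  unfold S
  rw [← sum_quads N (fun q => ex (q.1 * a.re + q.2.1 * b.re + q.2.2.1 * c.re))
    (fun q => ex (q.1 * a.im + q.2.1 * b.im + q.2.2.1 * c.im))]
  refine Finset.sum_congr rfl fun q _ => ?_
  rw [← ex_add, ip_pt, ip_pt, ip_pt]
  congr 1
  ring

lemma abs_sum_cos_le {ι : Type} (s : Finset ι) (f : ι → ℝ) :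
    |∑ i ∈ s, Real.cos (f i)| ≤ ‖∑ i ∈ s, ex (f i)‖ := by
  have h : ∑ i ∈ s, Real.cos (f i) = (∑ i ∈ s, ex (f i)).re := by
    rw [Complex.re_sum]
    exact Finset.sum_congr rfl fun i _ => (ex_re _).symm
  rw [h]
  exact Complex.abs_re_le_norm _

/-- one of the coordinates is good -/
lemma coord {a : ℂ} (h0 : a ≠ 0) (h1 : ‖a‖ < 2 * Real.pi) : ex a.re ≠ 1 ∨ ex a.im ≠ 1 := by
  by_cases h : a.re = 0
  · right
    refine ex_ne (fun h2 => h0 (Complex.ext h h2)) ?_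
    exact (Complex.abs_im_le_norm a).trans_lt h1
  · left
    exact ex_ne h ((Complex.abs_re_le_norm a).trans_lt h1)

lemma tend (f : ℕ → ℝ) (C : ℝ) (n : ℕ) (h : ∀ N : ℕ, |f N| ≤ C * N ^ n) :
    Tendsto (fun N : ℕ => 1 / (N : ℝ) ^ (n + 1) * f N) atTop (𝓝 0) := by
  have h1 : Tendsto (fun N : ℕ => C * (1 / (N : ℝ))) atTop (𝓝 0) := by
    have := tendsto_one_div_atTop_nhds_zero_nat.const_mul C
    rwa [mul_zero] at this
  refine squeeze_zero_norm (fun N => ?_) h1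
  rcases Nat.eq_zero_or_pos N with rfl | hN
  · simp
  · have hN' : (0 : ℝ) < N := by exact_mod_cast hN
    rw [Real.norm_eq_abs, abs_mul, abs_of_pos (by positivity : (0 : ℝ) < 1 / (N : ℝ) ^ (n + 1))]
    calc 1 / (N : ℝ) ^ (n + 1) * |f N| ≤ 1 / (N : ℝ) ^ (n + 1) * (C * N ^ n) :=
          mul_le_mul_of_nonneg_left (h N) (by positivity)
      _ = C * (1 / (N : ℝ)) := by
          rw [pow_succ]
          field_simp

theorem part1 (a b c : ℂ) (h0 : a ≠ 0) (h1 : ‖a‖ < 2 * Real.pi) :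
    Tendsto (fun N : ℕ => 1 / (N : ℝ) ^ 6 * ∑ q ∈ quads N,
      Real.cos (ip (pt q.1) a + ip (pt q.2.1) b + ip (pt q.2.2.1) c)) atTop (𝓝 0) := by
  obtain ⟨C, hC⟩ : ∃ C : ℝ, ∀ N : ℕ, ‖S N a.re b.re c.re * S N a.im b.im c.im‖ ≤
      C * N ^ 5 := by
    rcases coord h0 h1 with h | h
    · refine ⟨gb a.re, fun N => ?_⟩
      rw [norm_mul]
      calc _ ≤ ((N : ℝ) ^ 2 * gb a.re) * (N : ℝ) ^ 3 :=
            mul_le_mul (S_geo N _ _ h) (S_triv N _ _ _) (norm_nonneg _)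
              (mul_nonneg (by positivity) (gb_nonneg _))
        _ = _ := by ring
    · refine ⟨gb a.im, fun N => ?_⟩
      rw [norm_mul]
      calc _ ≤ (N : ℝ) ^ 3 * ((N : ℝ) ^ 2 * gb a.im) :=
            mul_le_mul (S_triv N _ _ _) (S_geo N _ _ h) (norm_nonneg _) (by positivity)
        _ = _ := by ring
  refine tend _ C 5 fun N => ?_
  refine (abs_sum_cos_le _ _).trans ?_
  rw [sum_ex]
  exact hC N

/-! ### the number of the quadruples -/

lemma card_J1 {N k l : ℕ} (h : k + l + 1 ≤ N) : (J N k l).card = k + l + 1 := by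
  rw [J, Nat.card_Ico]
  omega

lemma card_J2 {N k l : ℕ} (h : N ≤ k + l + 1) : (J N k l).card = N - (k + l + 1 - N) := by
  rw [J, Nat.card_Ico]
  omega

lemma sum1 (k r : ℕ) : ∑ l ∈ Finset.range r, ((k : ℝ) + l + 1) = r * k + r * (r + 1) / 2 := by
  induction r with
  | zero => simp
  | succ r ih =>
    rw [Finset.sum_range_succ, ih]
    push_cast
    ring

lemma sum2 (N k : ℕ) : ∑ l ∈ Finset.range k, ((N : ℝ) - l - 1) = k * N - k * (k + 1) / 2 := by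
  induction k with
  | zero => simp
  | succ r ih =>
    rw [Finset.sum_range_succ, ih]
    push_cast
    ring

lemma row (N k : ℕ) (hk : k < N) : ∑ l ∈ Finset.range N, ((J N k l).card : ℝ) =
    (N ^ 2 + N - 2 * k ^ 2 - 2 * k + 2 * k * N) / 2 := by
  obtain ⟨r, rfl⟩ : ∃ r, N = r + k := ⟨N - k, by omega⟩
  rw [Finset.sum_range_add]
  have h1 : ∑ l ∈ Finset.range r, ((J (r + k) k l).card : ℝ) =
      ∑ l ∈ Finset.range r, ((k : ℝ) + l + 1) := by
    refine Finset.sum_congr rfl fun l hl => ?_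
    rw [Finset.mem_range] at hl
    rw [card_J1 (by omega)]
    push_cast
    ring
  have h2 : ∑ l ∈ Finset.range k, ((J (r + k) k (r + l)).card : ℝ) =
      ∑ l ∈ Finset.range k, (((r + k : ℕ) : ℝ) - l - 1) := by
    refine Finset.sum_congr rfl fun l hl => ?_
    rw [Finset.mem_range] at hl
    rw [card_J2 (by omega)]
    have h3 : r + k - (k + (r + l) + 1 - (r + k)) = r + k - (l + 1) := by omega
    rw [h3, Nat.cast_sub (by omega)]
    push_cast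
    ring
  rw [h1, h2, sum1, sum2]
  push_cast
  ring

lemma sum3 (N : ℝ) (n : ℕ) :
    ∑ k ∈ Finset.range n, (N ^ 2 + N - 2 * (k : ℝ) ^ 2 - 2 * k + 2 * k * N) / 2 =
      (n * (N ^ 2 + N) - (n - 1) * n * (2 * n - 1) / 3 - n * (n - 1) + N * n * (n - 1)) / 2 := by
  induction n with
  | zero => simp
  | succ n ih =>
    rw [Finset.sum_range_succ, ih]
    push_cast
    ring

lemma card_Q1 (N : ℕ) : ((Q1 N).card : ℝ) = (2 * N ^ 3 + N) / 3 := by
  have h1 : ((Q1 N).card : ℝ) = ∑ q ∈ Q1 N, (fun _ _ _ => (1 : ℝ)) q.1 q.2.1 q.2.2.1 := by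
    simp
  rw [h1, sum_Q1 N (fun _ _ _ => (1 : ℝ))]
  have h2 : ∑ k ∈ Finset.range N, ∑ l ∈ Finset.range N, ∑ j ∈ J N k l, (1 : ℝ) =
      ∑ k ∈ Finset.range N, ((N : ℝ) ^ 2 + N - 2 * (k : ℝ) ^ 2 - 2 * k + 2 * k * N) / 2 := by
    refine Finset.sum_congr rfl fun k hk => ?_
    rw [Finset.mem_range] at hk
    rw [← row N k hk]
    refine Finset.sum_congr rfl fun l _ => ?_
    simp
  rw [h2, sum3]
  ring

lemma card_quads (N : ℕ) : ((quads N).card : ℝ) = ((2 * N ^ 3 + N) / 3) ^ 2 := by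
  have h := sum_quads (R := ℝ) N (fun _ => 1) (fun _ => 1)
  simp only [mul_one, Finset.sum_const, nsmul_eq_mul] at h
  rw [h, card_Q1]
  ring

theorem part2 : Tendsto (fun N : ℕ => 1 / (N : ℝ) ^ 6 * ((quads N).card : ℝ)) atTop
    (𝓝 (4 / 9)) := by
  have h1 : Tendsto (fun N : ℕ => ((2 / 3 : ℝ) + 1 / 3 * (1 / (N : ℝ)) * (1 / (N : ℝ))) ^ 2)
      atTop (𝓝 ((2 / 3 + 1 / 3 * 0 * 0) ^ 2)) := by
    have h0 := tendsto_one_div_atTop_nhds_zero_nat (𝕜 := ℝ)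
    exact ((((h0.const_mul (1 / 3)).mul h0)).const_add (2 / 3)).pow 2
  have h2 : ((2 / 3 + 1 / 3 * 0 * 0) ^ 2 : ℝ) = 4 / 9 := by norm_num
  rw [h2] at h1
  refine h1.congr' ?_
  filter_upwards [eventually_ge_atTop 1] with N hN
  have hN' : (0 : ℝ) < N := by exact_mod_cast hN
  rw [card_quads]
  field_simp

/-! ### pairs -/

lemma sum_box (N : ℕ) (a : ℂ) : ∑ p ∈ box N, ex (ip (pt p) a) =
    (∑ j ∈ Finset.range N, ex a.re ^ j) * ∑ j ∈ Finset.range N, ex a.im ^ j := by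
  rw [Finset.sum_mul_sum, box, ← Finset.sum_product']
  refine Finset.sum_congr rfl fun q _ => ?_
  rw [ip_pt, ex_add, ex_nat, ex_nat]

lemma bl_eq (N : ℕ) (a : ℂ) : (bl N fun x y => Real.cos (ip (x - y) a)) =
    1 / (N : ℝ) ^ 4 * ‖∑ p ∈ box N, ex (ip (pt p) a)‖ ^ 2 := by
  unfold bl
  congr 1
  have h1 : ((‖∑ p ∈ box N, ex (ip (pt p) a)‖ ^ 2 : ℝ) : ℂ) =
      (∑ p ∈ box N, ex (ip (pt p) a)) * (starRingEnd ℂ) (∑ p ∈ box N, ex (ip (pt p) a)) := by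
    rw [Complex.mul_conj, Complex.normSq_eq_norm_sq]
  have h2 : ‖∑ p ∈ box N, ex (ip (pt p) a)‖ ^ 2 =
      ((∑ p ∈ box N, ex (ip (pt p) a)) *
        (starRingEnd ℂ) (∑ p ∈ box N, ex (ip (pt p) a))).re := by
    rw [← h1, Complex.ofReal_re]
  rw [h2, map_sum, Finset.sum_mul_sum, Complex.re_sum]
  refine Finset.sum_congr rfl fun p _ => ?_
  rw [Complex.re_sum]
  refine Finset.sum_congr rfl fun q _ => ?_
  have h3 : (starRingEnd ℂ) (ex (ip (pt q) a)) = ex (-(ip (pt q) a)) := by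
    unfold ex
    rw [← Complex.exp_conj]
    congr 1
    simp
  rw [h3, ← ex_add, ex_re]
  show Real.cos (ip (pt p - pt q) a) = _
  have h4 : ip (pt p - pt q) a = ip (pt p) a - ip (pt q) a := by
    simp only [ip, sub_mul, Complex.sub_re]
  rw [h4, sub_eq_add_neg]

theorem part3 (a : ℂ) (h0 : a ≠ 0) (h1 : ‖a‖ < 2 * Real.pi) :
    Tendsto (fun N : ℕ => bl N fun x y => Real.cos (ip (x - y) a)) atTop (𝓝 0) := by
  have htr : ∀ (x : ℝ) (N : ℕ), ‖∑ j ∈ Finset.range N, ex x ^ j‖ ≤ N := by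
    intro x N
    calc _ ≤ ∑ j ∈ Finset.range N, ‖ex x ^ j‖ := norm_sum_le _ _
      _ = N := by simp [norm_ex]
  obtain ⟨C, hC0, hC⟩ : ∃ C : ℝ, 0 ≤ C ∧ ∀ N : ℕ, ‖∑ p ∈ box N, ex (ip (pt p) a)‖ ≤ C * N := by
    rcases coord h0 h1 with h | h
    · refine ⟨gb a.re, gb_nonneg _, fun N => ?_⟩
      rw [sum_box, norm_mul]
      have h2 := geo h 0 N
      rw [← Finset.range_eq_Ico] at h2
      exact mul_le_mul h2 (htr _ _) (norm_nonneg _) (gb_nonneg _)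
    · refine ⟨gb a.im, gb_nonneg _, fun N => ?_⟩
      rw [sum_box, norm_mul, mul_comm]
      have h2 := geo h 0 N
      rw [← Finset.range_eq_Ico] at h2
      exact mul_le_mul h2 (htr _ _) (norm_nonneg _) (gb_nonneg _)
  have h2 : (fun N : ℕ => bl N fun x y => Real.cos (ip (x - y) a)) =
      fun N : ℕ => 1 / (N : ℝ) ^ (3 + 1) * ‖∑ p ∈ box N, ex (ip (pt p) a)‖ ^ 2 :=
    funext fun N => bl_eq N a
  rw [h2]
  refine tend _ (C ^ 2) 3 fun N => ?_
  rw [abs_of_nonneg (by positivity)]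
  have h3 : ‖∑ p ∈ box N, ex (ip (pt p) a)‖ ^ 2 ≤ (C * N) ^ 2 :=
    pow_le_pow_left₀ (norm_nonneg _) (hC N) 2
  refine h3.trans ?_
  rw [mul_pow]
  refine mul_le_mul_of_nonneg_left ?_ (by positivity)
  rcases Nat.eq_zero_or_pos N with rfl | hN
  · simp
  · have hN' : (1 : ℝ) ≤ N := by exact_mod_cast hN
    exact pow_le_pow_right₀ hN' (by norm_num)

end CHR

theorem t_CHR : StmtChr :=
  ⟨fun a b c h0 h1 => CHR.part1 a b c h0 h1, CHR.part2, fun a h0 h1 => CHR.part3 a h0 h1⟩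

end

end PWV
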