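import Pool.Agent.PWV.St0

/-!
# PWV, module WKQ: the four-point function of a Gaussian wave over additive quadruples (helper68)
-/

open Complex MeasureTheory Filter Topology Set
open UpperHalfPlane hiding I
open scoped ContDiff MatrixGroups ProbabilityTheory ENNReal

namespace PWV

open NFP QE

namespace WKQ

noncomputable section

/-- normalised sum of characters over the additive quadruples -/
def T (N : ℕ) (a b c : ℂ) : ℝ := 1 / (N : ℝ) ^ 6 * ∑ q ∈ quads N,
    Real.cos (ip (pt q.1) a + ip (pt q.2.1) b + ip (pt q.2.2.1) c)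

/-- the rotated direction -/
def ro (t : ℝ) (w : S1) : ℂ := Complex.exp (-(t * Complex.I)) * (w : ℂ)

/-- the integrand -/
def H (x : Fin 4 → ℂ) (z : ℝ × S1 × S1) : ℝ :=
  Real.cos (ip (x 0 - x 1) (ro z.1 z.2.1)) * Real.cos (ip (x 2 - x 3) (ro z.1 z.2.2)) +
  Real.cos (ip (x 0 - x 2) (ro z.1 z.2.1)) * Real.cos (ip (x 1 - x 3) (ro z.1 z.2.2)) +
  Real.cos (ip (x 0 - x 3) (ro z.1 z.2.1)) * Real.cos (ip (x 1 - x 2) (ro z.1 z.2.2))

/-- the sum of the integrands, in terms of `T` -/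
def Ph (N : ℕ) (z : ℝ × S1 × S1) : ℝ :=
  1 / 2 * (T N (ro z.1 z.2.1 - ro z.1 z.2.2) (-(ro z.1 z.2.1 - ro z.1 z.2.2)) 0 +
    T N (ro z.1 z.2.1 + ro z.1 z.2.2) (-(ro z.1 z.2.1 + ro z.1 z.2.2)) 0 +
    T N (ro z.1 z.2.1 - ro z.1 z.2.2) 0 (-(ro z.1 z.2.1 - ro z.1 z.2.2)) +
    T N (ro z.1 z.2.1 + ro z.1 z.2.2) 0 (-(ro z.1 z.2.1 + ro z.1 z.2.2)) +
    T N (2 * ro z.1 z.2.1) (-(ro z.1 z.2.1) - ro z.1 z.2.2) (-(ro z.1 z.2.1) + ro z.1 z.2.2) +
    T N (2 * ro z.1 z.2.1) (-(ro z.1 z.2.1) + ro z.1 z.2.2) (-(ro z.1 z.2.1) - ro z.1 z.2.2))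

lemma ip_sub (x y a : ℂ) : ip (x - y) a = ip x a - ip y a := by
  unfold ip
  rw [sub_mul, Complex.sub_re]

lemma ip_add (x y a : ℂ) : ip (x + y) a = ip x a + ip y a := by
  unfold ip
  rw [add_mul, Complex.add_re]

lemma ip_sub_right (x a b : ℂ) : ip x (a - b) = ip x a - ip x b := by
  unfold ip
  rw [map_sub, mul_sub, Complex.sub_re]

lemma ip_add_right (x a b : ℂ) : ip x (a + b) = ip x a + ip x b := by
  unfold ip
  rw [map_add, mul_add, Complex.add_re]

lemma ip_neg_right (x a : ℂ) : ip x (-a) = - ip x a := by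
  unfold ip
  rw [map_neg, mul_neg, Complex.neg_re]

lemma ip_zero_right (x : ℂ) : ip x 0 = 0 := by
  unfold ip
  simp

lemma ip_two_right (x a : ℂ) : ip x (2 * a) = 2 * ip x a := by
  rw [two_mul, ip_add_right]
  ring

lemma pt_quads {N : ℕ} {q : (ℕ × ℕ) × (ℕ × ℕ) × (ℕ × ℕ) × (ℕ × ℕ)} (hq : q ∈ quads N) :
    pt q.1 + pt q.2.2.2 = pt q.2.1 + pt q.2.2.1 := by
  unfold quads at hq
  rw [Finset.mem_filter] at hq
  have h := hq.2
  have h1 := congrArg Prod.fst h
  have h2 := congrArg Prod.snd h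
  simp only [Prod.fst_add, Prod.snd_add] at h1 h2
  have h3 : ((q.1.1 : ℕ) : ℂ) + (q.2.2.2.1 : ℕ) = (q.2.1.1 : ℕ) + (q.2.2.1.1 : ℕ) := by
    exact_mod_cast h1
  have h4 : ((q.1.2 : ℕ) : ℂ) + (q.2.2.2.2 : ℕ) = (q.2.1.2 : ℕ) + (q.2.2.1.2 : ℕ) := by
    exact_mod_cast h2
  unfold pt
  linear_combination h3 + Complex.I * h4

lemma cc (x y : ℝ) : Real.cos x * Real.cos y = 1 / 2 * (Real.cos (x - y) + Real.cos (x + y)) := by
  rw [Real.cos_sub, Real.cos_add]
  ring

lemma sumH (N : ℕ) (z : ℝ × S1 × S1) :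
    1 / (N : ℝ) ^ 6 * ∑ q ∈ quads N, H ![pt q.1, pt q.2.1, pt q.2.2.1, pt q.2.2.2] z =
      Ph N z := by
  unfold Ph T
  obtain ⟨a, ha⟩ : ∃ a, a = ro z.1 z.2.1 := ⟨_, rfl⟩
  obtain ⟨b, hb⟩ : ∃ b, b = ro z.1 z.2.2 := ⟨_, rfl⟩
  simp only [← mul_add, ← Finset.sum_add_distrib]
  rw [← mul_assoc, mul_comm (1 / 2 : ℝ), mul_assoc, Finset.mul_sum (quads N) _ (1 / 2 : ℝ)]
  refine congrArg _ (Finset.sum_congr rfl fun q hq => ?_)
  have h := pt_quads hq
  unfold H
  simp only [Matrix.cons_val_zero, Matrix.cons_val_one, Matrix.cons_val]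
  rw [← ha, ← hb, cc, cc, cc]
  have hA : ip (pt q.1) a + ip (pt q.2.2.2) a = ip (pt q.2.1) a + ip (pt q.2.2.1) a := by
    rw [← ip_add, ← ip_add, h]
  have hB : ip (pt q.1) b + ip (pt q.2.2.2) b = ip (pt q.2.1) b + ip (pt q.2.2.1) b := by
    rw [← ip_add, ← ip_add, h]
  simp only [ip_sub, ip_sub_right, ip_add_right, ip_neg_right, ip_zero_right, ip_two_right]
  generalize ip (pt q.1) a = A0 at *
  generalize ip (pt q.2.1) a = A1 at *
  generalize ip (pt q.2.2.1) a = A2 at *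
  generalize ip (pt q.2.2.2) a = A3 at *
  generalize ip (pt q.1) b = B0 at *
  generalize ip (pt q.2.1) b = B1 at *
  generalize ip (pt q.2.2.1) b = B2 at *
  generalize ip (pt q.2.2.2) b = B3 at *
  obtain rfl : A3 = A1 + A2 - A0 := by linarith
  obtain rfl : B3 = B1 + B2 - B0 := by linarith
  have e1 : A0 - A1 - (B2 - (B1 + B2 - B0)) = A0 - B0 + -(A1 - B1) + 0 := by ring
  have e2 : A0 - A1 + (B2 - (B1 + B2 - B0)) = A0 + B0 + -(A1 + B1) + 0 := by ring
  have e3 : A0 - A2 - (B1 - (B1 + B2 - B0)) = A0 - B0 + 0 + -(A2 - B2) := by ring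
  have e4 : A0 - A2 + (B1 - (B1 + B2 - B0)) = A0 + B0 + 0 + -(A2 + B2) := by ring
  have e5 : A0 - (A1 + A2 - A0) - (B1 - B2) = 2 * A0 + (-A1 - B1) + (-A2 + B2) := by ring
  have e6 : A0 - (A1 + A2 - A0) + (B1 - B2) = 2 * A0 + (-A1 + B1) + (-A2 - B2) := by ring
  rw [e1, e2, e3, e4, e5, e6]
  ring

lemma norm_ro (t : ℝ) (w : S1) : ‖ro t w‖ = 1 := by
  unfold ro
  have : -((t : ℂ) * Complex.I) = ((-t : ℝ) : ℂ) * Complex.I := by push_cast; ring
  rw [norm_mul, this, Complex.norm_exp_ofReal_mul_I, ONE.norm_S1, one_mul]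

lemma ro_ip (t : ℝ) (w : S1) (y : ℂ) :
    ip y (ro t w) = (Complex.exp (t * Complex.I) * y * (starRingEnd ℂ) (w : ℂ)).re := by
  unfold ip ro
  rw [map_mul, ← Complex.exp_conj]
  have : (starRingEnd ℂ) (-((t : ℂ) * Complex.I)) = t * Complex.I := by
    rw [map_neg, map_mul, Complex.conj_ofReal, Complex.conj_I]
    ring
  rw [this]
  congr 1
  ring

lemma cont_ro : Continuous (fun z : ℝ × S1 => ro z.1 z.2) := by
  unfold ro
  fun_prop

lemma cont_H (x : Fin 4 → ℂ) : Continuous (H x) := by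
  unfold H ip
  have h1 : Continuous (fun z : ℝ × S1 × S1 => ro z.1 z.2.1) :=
    cont_ro.comp (by fun_prop : Continuous fun z : ℝ × S1 × S1 => (z.1, z.2.1))
  have h2 : Continuous (fun z : ℝ × S1 × S1 => ro z.1 z.2.2) :=
    cont_ro.comp (by fun_prop : Continuous fun z : ℝ × S1 × S1 => (z.1, z.2.2))
  fun_prop

lemma H_le (x : Fin 4 → ℂ) (z : ℝ × S1 × S1) : ‖H x z‖ ≤ 3 := by
  have h : ∀ a b : ℝ, |Real.cos a * Real.cos b| ≤ 1 := fun a b => by
    rw [abs_mul]
    exact mul_le_one₀ (Real.abs_cos_le_one _) (abs_nonneg _) (Real.abs_cos_le_one _)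
  unfold H
  rw [Real.norm_eq_abs]
  refine (abs_add_three _ _ _).trans ?_
  have h1 := h (ip (x 0 - x 1) (ro z.1 z.2.1)) (ip (x 2 - x 3) (ro z.1 z.2.2))
  have h2 := h (ip (x 0 - x 2) (ro z.1 z.2.1)) (ip (x 1 - x 3) (ro z.1 z.2.2))
  have h3 := h (ip (x 0 - x 3) (ro z.1 z.2.1)) (ip (x 1 - x 2) (ro z.1 z.2.2))
  linarith

/-- the measure -/
def nu (s : Measure S1) : Measure (ℝ × S1 × S1) :=
  ((volume : Measure ℝ).restrict (Ioc 0 (2 * Real.pi))).prod (s.prod s)

instance fin1 : IsFiniteMeasure ((volume : Measure ℝ).restrict (Ioc 0 (2 * Real.pi))) := ⟨by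
  rw [Measure.restrict_apply_univ, Real.volume_Ioc]
  exact ENNReal.ofReal_lt_top⟩

instance fin2 (s : Measure S1) [IsFiniteMeasure s] : IsFiniteMeasure (nu s) := by
  unfold nu
  infer_instance

lemma int_H (s : Measure S1) [IsFiniteMeasure s] (x : Fin 4 → ℂ) : Integrable (H x) (nu s) :=
  Integrable.of_bound (C := 3) (cont_H x).aestronglyMeasurable
    (Eventually.of_forall fun z => H_le x z)

lemma prodK (s : Measure S1) [IsFiniteMeasure s] (t : ℝ) (y y' : ℂ) :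
    ∫ p : S1 × S1, Real.cos (ip y (ro t p.1)) * Real.cos (ip y' (ro t p.2)) ∂(s.prod s) =
      dirK s (Complex.exp (t * Complex.I) * y) * dirK s (Complex.exp (t * Complex.I) * y') := by
  have h := integral_prod_mul (μ := s) (ν := s) (fun w : S1 => Real.cos (ip y (ro t w)))
    (fun w : S1 => Real.cos (ip y' (ro t w)))
  rw [h]
  unfold dirK
  simp only [ro_ip]

lemma int_cc (s : Measure S1) [IsFiniteMeasure s] (t : ℝ) (y y' : ℂ) :
    Integrable (fun p : S1 × S1 => Real.cos (ip y (ro t p.1)) * Real.cos (ip y' (ro t p.2)))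
      (s.prod s) := by
  refine Integrable.of_bound (C := 1) (Continuous.aestronglyMeasurable ?_)
    (Eventually.of_forall fun z => ?_)
  · have h1 : Continuous (fun z : S1 × S1 => ro t z.1) :=
      cont_ro.comp (by fun_prop : Continuous fun z : S1 × S1 => (t, z.1))
    have h2 : Continuous (fun z : S1 × S1 => ro t z.2) :=
      cont_ro.comp (by fun_prop : Continuous fun z : S1 × S1 => (t, z.2))
    unfold ip
    fun_prop
  · rw [Real.norm_eq_abs, abs_mul]
    exact mul_le_one₀ (Real.abs_cos_le_one _) (abs_nonneg _) (Real.abs_cos_le_one _)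

lemma wick (s : Measure S1) [IsFiniteMeasure s] (x : Fin 4 → ℂ) :
    dirWick s x = 1 / (2 * Real.pi) * ∫ z, H x z ∂(nu s) := by
  have hpi : (0 : ℝ) ≤ 2 * Real.pi := by have := Real.pi_pos; positivity
  unfold dirWick
  congr 1
  have h1 := int_H s x
  unfold nu at h1 ⊢
  rw [integral_prod _ h1, intervalIntegral.integral_of_le hpi]
  refine integral_congr_ae (Eventually.of_forall fun t => ?_)
  have e1 := integral_add (μ := s.prod s)
    (f := fun p : S1 × S1 => Real.cos (ip (x 0 - x 1) (ro t p.1)) *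
      Real.cos (ip (x 2 - x 3) (ro t p.2)) +
      Real.cos (ip (x 0 - x 2) (ro t p.1)) * Real.cos (ip (x 1 - x 3) (ro t p.2)))
    (g := fun p : S1 × S1 => Real.cos (ip (x 0 - x 3) (ro t p.1)) *
      Real.cos (ip (x 1 - x 2) (ro t p.2)))
    ((int_cc s t _ _).add (int_cc s t _ _)) (int_cc s t _ _)
  have e2 := integral_add (int_cc s t (x 0 - x 1) (x 2 - x 3))
    (int_cc s t (x 0 - x 2) (x 1 - x 3))
  rw [e2, prodK, prodK, prodK] at e1
  exact e1.symm

lemma qs_eq (s : Measure S1) [IsFiniteMeasure s] (N : ℕ) :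
    qs N (dirWick s) = 1 / (2 * Real.pi) * ∫ z, Ph N z ∂(nu s) := by
  unfold qs
  simp only [wick]
  rw [← Finset.mul_sum, ← integral_finsetSum _ (fun q _ => int_H s _), mul_left_comm,
    ← integral_const_mul]
  congr 1
  exact integral_congr_ae (Eventually.of_forall fun z => sumH N z)

lemma cont_T (N : ℕ) {X : Type*} [TopologicalSpace X] {f g h : X → ℂ} (hf : Continuous f)
    (hg : Continuous g) (hh : Continuous h) : Continuous (fun x => T N (f x) (g x) (h x)) := by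
  unfold T ip
  fun_prop

lemma cont_Ph (N : ℕ) : Continuous (Ph N) := by
  have h1 : Continuous (fun z : ℝ × S1 × S1 => ro z.1 z.2.1) :=
    cont_ro.comp (by fun_prop : Continuous fun z : ℝ × S1 × S1 => (z.1, z.2.1))
  have h2 : Continuous (fun z : ℝ × S1 × S1 => ro z.1 z.2.2) :=
    cont_ro.comp (by fun_prop : Continuous fun z : ℝ × S1 × S1 => (z.1, z.2.2))
  unfold Ph
  refine continuous_const.mul (((((( cont_T N (h1.sub h2) (h1.sub h2).neg continuous_const).add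
    (cont_T N (h1.add h2) (h1.add h2).neg continuous_const)).add
    (cont_T N (h1.sub h2) continuous_const (h1.sub h2).neg)).add
    (cont_T N (h1.add h2) continuous_const (h1.add h2).neg)).add
    (cont_T N (continuous_const.mul h1) (h1.neg.sub h2) (h1.neg.add h2))).add
    (cont_T N (continuous_const.mul h1) (h1.neg.add h2) (h1.neg.sub h2)))

lemma T_le (N : ℕ) (a b c : ℂ) : |T N a b c| ≤ 1 / (N : ℝ) ^ 6 * ((quads N).card : ℝ) := by
  unfold T
  rw [abs_mul, abs_of_nonneg (by positivity)]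
  refine mul_le_mul_of_nonneg_left ?_ (by positivity)
  refine (Finset.abs_sum_le_sum_abs _ _).trans ?_
  refine (Finset.sum_le_sum fun q _ => Real.abs_cos_le_one _).trans ?_
  simp

lemma T_zero (N : ℕ) : T N 0 0 0 = 1 / (N : ℝ) ^ 6 * ((quads N).card : ℝ) := by
  unfold T
  simp [ip_zero_right]

/-- the limit of `T` on the two families -/
lemma T_lim (h : StmtChr) (e b c : ℂ) (he : ‖e‖ < 2 * Real.pi) (hb : e = 0 → b = 0)
    (hc : e = 0 → c = 0) : Tendsto (fun N => T N e b c) atTop (𝓝 (if e = 0 then 4 / 9 else 0)) := by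
  obtain ⟨h1, h2, _⟩ := h
  split_ifs with h0
  · rw [hb h0, hc h0, h0]
    simp only [T_zero]
    exact h2
  · exact h1 e b c h0 he

/-- the limit function -/
def Li (z : ℝ × S1 × S1) : ℝ :=
  4 / 9 * ({p : S1 × S1 | p.1 = p.2}.indicator (fun _ => (1 : ℝ)) z.2 +
    {p : S1 × S1 | p.1 = -p.2}.indicator (fun _ => (1 : ℝ)) z.2)

lemma Ph_lim (h : StmtChr) (z : ℝ × S1 × S1) : Tendsto (fun N => Ph N z) atTop (𝓝 (Li z)) := by
  classical
  obtain ⟨t, w, w'⟩ := z
  have hpi := Real.pi_gt_three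
  have ha := norm_ro t w
  have hb := norm_ro t w'
  have hE : Complex.exp (-((t : ℂ) * Complex.I)) ≠ 0 := Complex.exp_ne_zero _
  have hd : ‖ro t w - ro t w'‖ < 2 * Real.pi := by
    have := norm_sub_le (ro t w) (ro t w')
    linarith
  have hs : ‖ro t w + ro t w'‖ < 2 * Real.pi := by
    have := norm_add_le (ro t w) (ro t w')
    linarith
  have h2 : ‖2 * ro t w‖ < 2 * Real.pi := by
    rw [norm_mul, ha]
    norm_num
    linarith
  have h20 : 2 * ro t w ≠ 0 := by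
    intro h0
    rw [h0] at h2
    have : ‖2 * ro t w‖ = 2 := by rw [norm_mul, ha]; norm_num
    rw [h0, norm_zero] at this
    norm_num at this
  have e1 : (ro t w - ro t w' = 0) ↔ w = w' := by
    unfold ro
    rw [← mul_sub, mul_eq_zero, or_iff_right hE, sub_eq_zero]
    exact ⟨fun h => Subtype.ext h, fun h => by rw [h]⟩
  have e2 : (ro t w + ro t w' = 0) ↔ w = -w' := by
    unfold ro
    rw [← mul_add, mul_eq_zero, or_iff_right hE, add_eq_zero_iff_eq_neg]
    exact ⟨fun h => Subtype.ext (by rw [h]; rfl), fun h => by rw [h]; rfl⟩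
  have l1 := T_lim h (ro t w - ro t w') (-(ro t w - ro t w')) 0 hd (fun h => by rw [h, neg_zero])
    (fun _ => rfl)
  have l2 := T_lim h (ro t w + ro t w') (-(ro t w + ro t w')) 0 hs (fun h => by rw [h, neg_zero])
    (fun _ => rfl)
  have l3 := T_lim h (ro t w - ro t w') 0 (-(ro t w - ro t w')) hd (fun _ => rfl)
    (fun h => by rw [h, neg_zero])
  have l4 := T_lim h (ro t w + ro t w') 0 (-(ro t w + ro t w')) hs (fun _ => rfl)
    (fun h => by rw [h, neg_zero])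
  have l5 := T_lim h (2 * ro t w) (-(ro t w) - ro t w') (-(ro t w) + ro t w') h2
    (fun h => absurd h h20) (fun h => absurd h h20)
  have l6 := T_lim h (2 * ro t w) (-(ro t w) + ro t w') (-(ro t w) - ro t w') h2
    (fun h => absurd h h20) (fun h => absurd h h20)
  have l := (((((l1.add l2).add l3).add l4).add l5).add l6).const_mul (1 / 2 : ℝ)
  have hLi : Li (t, w, w') = 1 / 2 * ((((((if ro t w - ro t w' = 0 then (4 / 9 : ℝ) else 0) +
      (if ro t w + ro t w' = 0 then (4 / 9 : ℝ) else 0)) +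
      (if ro t w - ro t w' = 0 then (4 / 9 : ℝ) else 0)) +
      (if ro t w + ro t w' = 0 then (4 / 9 : ℝ) else 0)) +
      (if 2 * ro t w = 0 then (4 / 9 : ℝ) else 0)) +
      (if 2 * ro t w = 0 then (4 / 9 : ℝ) else 0)) := by
    unfold Li
    simp only [Set.indicator_apply, Set.mem_ofPred_eq, e1, e2, if_neg h20]
    split_ifs <;> norm_num
  rw [hLi]
  exact l

lemma int_Li (s : Measure S1) [IsFiniteMeasure s] :
    ∫ z, Li z ∂(nu s) = 2 * Real.pi * (4 / 9 * (((s.prod s) {p : S1 × S1 | p.1 = p.2}).toReal +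
      ((s.prod s) {p : S1 × S1 | p.1 = -p.2}).toReal)) := by
  have hpi : (0 : ℝ) ≤ 2 * Real.pi := by have := Real.pi_pos; positivity
  have m1 : MeasurableSet {p : S1 × S1 | p.1 = p.2} :=
    (isClosed_eq continuous_fst continuous_snd).measurableSet
  have m2 : MeasurableSet {p : S1 × S1 | p.1 = -p.2} :=
    (isClosed_eq continuous_fst continuous_snd.neg).measurableSet
  unfold nu Li
  rw [integral_fun_snd (fun p : S1 × S1 => 4 / 9 * ({p : S1 × S1 | p.1 = p.2}.indicator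
    (fun _ => (1 : ℝ)) p + {p : S1 × S1 | p.1 = -p.2}.indicator (fun _ => (1 : ℝ)) p))]
  rw [integral_const_mul, integral_add, integral_indicator m1, integral_indicator m2,
    setIntegral_const, setIntegral_const]
  · simp only [Measure.real, Measure.restrict_apply_univ, Real.volume_Ioc, smul_eq_mul, mul_one,
      sub_zero, ENNReal.toReal_ofReal hpi]
  · exact (integrable_const _).indicator m1
  · exact (integrable_const _).indicator m2

end

end WKQ

open WKQ in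
theorem t_WKQ (h : StmtChr) : StmtWkq := by
  intro s hs hanti
  obtain ⟨C, hC⟩ : ∃ C : ℝ, ∀ N : ℕ, 1 / (N : ℝ) ^ 6 * ((quads N).card : ℝ) ≤ C := by
    obtain ⟨C, hC⟩ := (h.2.1).bddAbove_range
    exact ⟨C, fun N => hC ⟨N, rfl⟩⟩
  have hpi : (2 * Real.pi : ℝ) ≠ 0 := by have := Real.pi_pos; positivity
  have h1 : Tendsto (fun N => ∫ z, Ph N z ∂(nu s)) atTop (𝓝 (∫ z, Li z ∂(nu s))) := by
    refine tendsto_integral_of_dominated_convergence (fun _ => 3 * C)
      (fun N => (cont_Ph N).aestronglyMeasurable) (integrable_const _)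
      (fun N => Eventually.of_forall fun z => ?_) (Eventually.of_forall fun z => Ph_lim h z)
    have hT : ∀ a b c : ℂ, |T N a b c| ≤ C := fun a b c => (T_le N a b c).trans (hC N)
    rw [Real.norm_eq_abs]
    unfold Ph
    rw [abs_mul, abs_of_pos (by norm_num : (0 : ℝ) < 1 / 2)]
    have k1 := hT (ro z.1 z.2.1 - ro z.1 z.2.2) (-(ro z.1 z.2.1 - ro z.1 z.2.2)) 0
    have k2 := hT (ro z.1 z.2.1 + ro z.1 z.2.2) (-(ro z.1 z.2.1 + ro z.1 z.2.2)) 0
    have k3 := hT (ro z.1 z.2.1 - ro z.1 z.2.2) 0 (-(ro z.1 z.2.1 - ro z.1 z.2.2))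
    have k4 := hT (ro z.1 z.2.1 + ro z.1 z.2.2) 0 (-(ro z.1 z.2.1 + ro z.1 z.2.2))
    have k5 := hT (2 * ro z.1 z.2.1) (-(ro z.1 z.2.1) - ro z.1 z.2.2)
      (-(ro z.1 z.2.1) + ro z.1 z.2.2)
    have k6 := hT (2 * ro z.1 z.2.1) (-(ro z.1 z.2.1) + ro z.1 z.2.2)
      (-(ro z.1 z.2.1) - ro z.1 z.2.2)
    rw [abs_le] at k1 k2 k3 k4 k5 k6
    have : |T N (ro z.1 z.2.1 - ro z.1 z.2.2) (-(ro z.1 z.2.1 - ro z.1 z.2.2)) 0 +
        T N (ro z.1 z.2.1 + ro z.1 z.2.2) (-(ro z.1 z.2.1 + ro z.1 z.2.2)) 0 +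
        T N (ro z.1 z.2.1 - ro z.1 z.2.2) 0 (-(ro z.1 z.2.1 - ro z.1 z.2.2)) +
        T N (ro z.1 z.2.1 + ro z.1 z.2.2) 0 (-(ro z.1 z.2.1 + ro z.1 z.2.2)) +
        T N (2 * ro z.1 z.2.1) (-(ro z.1 z.2.1) - ro z.1 z.2.2)
          (-(ro z.1 z.2.1) + ro z.1 z.2.2) +
        T N (2 * ro z.1 z.2.1) (-(ro z.1 z.2.1) + ro z.1 z.2.2)
          (-(ro z.1 z.2.1) - ro z.1 z.2.2)| ≤ 6 * C := by
      rw [abs_le]
      constructor <;> linarith [k1.1, k1.2, k2.1, k2.2, k3.1, k3.2, k4.1, k4.2, k5.1, k5.2,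
        k6.1, k6.2]
    linarith
  have h2 := h1.const_mul (1 / (2 * Real.pi))
  rw [int_Li, hanti] at h2
  have e : 1 / (2 * Real.pi) * (2 * Real.pi * (4 / 9 *
      (((s.prod s) {p : S1 × S1 | p.1 = p.2}).toReal + dg s))) = 8 / 9 * dg s := by
    unfold dg
    field_simp
    ring
  rw [e] at h2
  refine h2.congr fun N => ?_
  rw [qs_eq]

end PWV
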