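import Pool.Agent.PWV.St

/-!
# EQD: equidistribution and the mass of the directional measures
-/

set_option autoImplicit false

open Complex MeasureTheory Filter Topology Set
open UpperHalfPlane hiding I
open scoped ContDiff MatrixGroups ProbabilityTheory ENNReal

namespace PWV

open BSL NFP QE QE.NC QJ U3

noncomputable section

namespace EQDH

/-- from the fundamental domain to the half plane -/
lemma ae_of_D {Γ : Subgroup SL(2, ℝ)} [Countable Γ] {D : Set ℍ} (hDm : MeasurableSet D)
    (hD : IsFundamentalDomain Γ D (volume : Measure ℍ)) {f : ℍ → ℝ} {c : ℝ}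
    (hinv : ∀ γ ∈ Γ, ∀ᵐ z : ℍ, f (γ • z) = f z)
    (h : ∀ᵐ z ∂((volume : Measure ℍ).restrict D), f z = c) : ∀ᵐ z : ℍ, f z = c := by
  rw [ae_restrict_iff' hDm] at h
  have h1 : ∀ γ : Γ, ∀ᵐ z : ℍ, γ • z ∈ D → f (γ • z) = c := fun γ =>
    (measurePreserving_smul γ (volume : Measure ℍ)).quasiMeasurePreserving.ae h
  have h2 : ∀ γ : Γ, ∀ᵐ z : ℍ, f (γ • z) = f z := fun γ => hinv γ γ.2
  filter_upwards [hD.ae_covers, ae_all_iff.2 h1, ae_all_iff.2 h2] with z ⟨γ, hγ⟩ z1 z2
  rw [← z2 γ]
  exact z1 γ hγ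

/-- the squares of the eigenfunctions against test functions -/
lemma test_lim (h : StmtJlg) {ρ : ℍ → ℝ} {φ : ℕ → ℍ → ℝ} {m : ℕ → ℝ}
    {s : ProbabilityTheory.Kernel ℍ S1} (hρ : ContDiffOn ℝ ∞ (ro ρ) UH)
    (hL : LocU UH (gr ρ) (hh m) (ph φ)) (hS : Sem ρ φ m s) {ψ : ℂ → ℝ} (h1 : ContDiff ℝ ∞ ψ)
    (h2 : HasCompactSupport ψ) (h3 : tsupport ψ ⊆ UH) :
    Tendsto (fun n => ∫ z, ψ z * φ n (ofComplex z) ^ 2) atTop (𝓝 (∫ z, ψ z * ma s z)) := by
  have hs : tsupport (fun z : ℂ => (ψ z : ℂ)) = tsupport ψ := by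
    unfold tsupport
    congr 1
    ext z
    simp
  obtain ⟨V, F', σ, φ', hKV, -, -, -, hA⟩ := stmtLcz UH (gr ρ) (hh m) (ph φ) isOpen_UH
    (U3.WGA.contDiffOn_gr hρ) (fun z hz => U3.WGA.gr_pos hz) hL (tsupport ψ) h2 h3
  have hT : Test V (fun z => (ψ z : ℂ)) := ⟨Complex.ofRealCLM.contDiff.comp h1,
    by unfold HasCompactSupport; rw [hs]; exact h2, by rw [hs]; exact hKV⟩
  have hl := ((h ρ φ m s hρ hL hS).1 V σ φ' hA).lim 0 0 _ hT
  have hψ0 : ∀ z, z ∉ V → ψ z = 0 := fun z hz =>
    image_eq_zero_of_notMem_tsupport fun hh => hz (hKV hh)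
  have hr := (Complex.continuous_re.tendsto _).comp hl
  have e1 : ∫ z, (ψ z : ℂ) * ((-1) ^ (0 : ℤ) * um s (0 + 0) z)
      = ((∫ z, ψ z * ma s z : ℝ) : ℂ) := by
    refine Eq.trans ?_ (integral_ofReal (𝕜 := ℂ) (μ := volume) (f := fun z : ℂ => ψ z * ma s z))
    refine integral_congr_ae (Eventually.of_forall fun z => ?_)
    show _ = ((ψ z * ma s z : ℝ) : ℂ)
    beta_reduce
    rw [zpow_zero, one_mul, add_zero, FFL.um_zero]
    push_cast
    rfl
  rw [e1, Complex.ofReal_re] at hr
  refine hr.congr fun n => ?_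
  have e2 : ∫ z, (ψ z : ℂ) * (E σ (hh m) φ' 0 n z * E σ (hh m) φ' 0 n z)
      = ((∫ z, ψ z * φ n (ofComplex z) ^ 2 : ℝ) : ℂ) := by
    refine Eq.trans ?_ (integral_ofReal (𝕜 := ℂ) (μ := volume)
      (f := fun z : ℂ => ψ z * φ n (ofComplex z) ^ 2))
    refine integral_congr_ae (Eventually.of_forall fun z => ?_)
    show _ = ((ψ z * φ n (ofComplex z) ^ 2 : ℝ) : ℂ)
    beta_reduce
    by_cases hz : z ∈ V
    · have e3 : E σ (hh m) φ' 0 n z = (φ n (ofComplex z) : ℂ) := hA.eφ n z hz
      rw [e3]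
      push_cast
      ring
    · rw [hψ0 z hz]
      simp
  show (∫ z, (ψ z : ℂ) * (E σ (hh m) φ' 0 n z * E σ (hh m) φ' 0 n z)).re = _
  rw [e2, Complex.ofReal_re]

lemma int_mul_ma {s : ProbabilityTheory.Kernel ℍ S1} (hU : ∀ᵐ z ∂((volume : Measure ℂ).restrict UH),
    ma s z = 1) {ζ : ℂ → ℝ} (h3 : tsupport ζ ⊆ {w | 0 < w.im}) :
    ∫ z, ζ z * ma s z = ∫ z, ζ z := by
  rw [ae_restrict_iff' isOpen_UH.measurableSet] at hU
  refine integral_congr_ae ?_
  filter_upwards [hU] with z hz
  by_cases h : z ∈ tsupport ζ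
  · rw [hz (h3 h), mul_one]
  · rw [image_eq_zero_of_notMem_tsupport h, zero_mul]

end EQDH

open EQDH in
theorem t_EQDH : StmtEqd := by
  intro Γ _ D ρ φ m s hSur hSem
  have ttl : ∀ ψ : ℂ → ℝ, ContDiff ℝ ∞ ψ → HasCompactSupport ψ → tsupport ψ ⊆ UH →
      Tendsto (fun n => ∫ z, ψ z * φ n (ofComplex z) ^ 2) atTop (𝓝 (∫ z, ψ z * ma s z)) :=
    fun ψ a1 a2 a3 => test_lim t_JLG hSur.fac.smooth hSur.loc hSem a1 a2 a3
  constructor
  · intro h ζ z1 z2 z3
    have hz : ∀ᵐ z : ℍ, ((s z) univ).toReal = 1 := ae_of_D hSur.mD hSur.fd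
      (fun γ hγ => MSD.mass_inv lfe_closed hSur hSem γ hγ) h
    have hU : ∀ᵐ z ∂((volume : Measure ℂ).restrict UH), ma s z = 1 := by
      refine ae_UH (P := fun z => ma s z = 1) ?_
      filter_upwards [hz] with z hz
      unfold ma
      rw [ofComplex_apply]
      exact hz
    have := ttl ζ z1 z2 z3
    rwa [int_mul_ma hU z3] at this
  · intro h
    have key : ∀ ψ : ℂ → ℝ, ContDiff ℝ ∞ ψ → HasCompactSupport ψ → tsupport ψ ⊆ UH →
        ∫ z, ψ z * ma s z = ∫ z, ψ z := fun ψ a1 a2 a3 =>
      tendsto_nhds_unique (ttl ψ a1 a2 a3) (h ψ a1 a2 a3)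
    have hloc : LocL2 UH (fun z => (ma s z : ℂ) - 1) := by
      intro K hK hKU
      have : IsFiniteMeasure ((volume : Measure ℂ).restrict K) :=
        ⟨by rw [Measure.restrict_apply_univ]; exact hK.measure_lt_top⟩
      exact (hSem.loc K hK hKU).sub (memLp_const 1)
    have hz : ∀ᵐ z ∂((volume : Measure ℂ).restrict UH), (ma s z : ℂ) - 1 = 0 := by
      refine ae_zero_of_test isOpen_UH hloc fun ζ hζ => ?_
      have p1 : ContDiff ℝ ∞ fun z => (ζ z).re := Complex.reCLM.contDiff.comp hζ.smooth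
      have p2 : ContDiff ℝ ∞ fun z => (ζ z).im := Complex.imCLM.contDiff.comp hζ.smooth
      have s1 : tsupport (fun z => (ζ z).re) ⊆ tsupport ζ := closure_mono fun z hz => by
        rw [Function.mem_support] at hz ⊢
        intro h0
        exact hz (by rw [h0]; rfl)
      have s2 : tsupport (fun z => (ζ z).im) ⊆ tsupport ζ := closure_mono fun z hz => by
        rw [Function.mem_support] at hz ⊢
        intro h0
        exact hz (by rw [h0]; rfl)
      have c1 : HasCompactSupport fun z => (ζ z).re := hζ.supp.mono' (subset_closure.trans s1)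
      have c2 : HasCompactSupport fun z => (ζ z).im := hζ.supp.mono' (subset_closure.trans s2)
      have e1 := key _ p1 c1 (s1.trans hζ.sub)
      have e2 := key _ p2 c2 (s2.trans hζ.sub)
      have i0 : Integrable (fun z => ζ z * ((ma s z : ℂ) - 1)) := hζ.integrable_loc hloc
      have im1 : Integrable (fun z => ζ z * (ma s z : ℂ)) := hζ.integrable_loc hSem.loc
      have ir : Integrable (fun z => ((ζ z * (ma s z : ℂ)).re)) := im1.re
      have ii : Integrable (fun z => ((ζ z * (ma s z : ℂ)).im)) := im1.im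
      have iz : Integrable ζ := hζ.smooth.continuous.integrable_of_hasCompactSupport hζ.supp
      have f1 : ∫ z, ((ζ z).re : ℂ) * ((ma s z : ℂ) - 1) = 0 := by
        have g1 : Integrable (fun z => (ζ z).re * ma s z) := by
          refine ir.congr (Eventually.of_forall fun z => ?_)
          beta_reduce
          rw [Complex.re_mul_ofReal]
        have iz1 : Integrable (fun z => (ζ z).re) := iz.re
        have g2 : ∫ z, ((ζ z).re * ma s z - (ζ z).re) = 0 := by
          rw [integral_sub g1 iz1, e1, sub_self]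
        have g3 : ∫ z, (((ζ z).re * ma s z - (ζ z).re : ℝ) : ℂ) = 0 := by
          have g4 := integral_ofReal (𝕜 := ℂ) (μ := (volume : Measure ℂ))
            (f := fun z : ℂ => (ζ z).re * ma s z - (ζ z).re)
          rw [g2] at g4
          exact g4.trans (by simp)
        refine Eq.trans (integral_congr_ae (Eventually.of_forall fun z => ?_)) g3
        beta_reduce
        push_cast
        ring
      have f2 : ∫ z, ((ζ z).im : ℂ) * ((ma s z : ℂ) - 1) = 0 := by
        have g1 : Integrable (fun z => (ζ z).im * ma s z) := by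
          refine ii.congr (Eventually.of_forall fun z => ?_)
          beta_reduce
          rw [Complex.im_mul_ofReal]
        have iz1 : Integrable (fun z => (ζ z).im) := iz.im
        have g2 : ∫ z, ((ζ z).im * ma s z - (ζ z).im) = 0 := by
          rw [integral_sub g1 iz1, e2, sub_self]
        have g3 : ∫ z, (((ζ z).im * ma s z - (ζ z).im : ℝ) : ℂ) = 0 := by
          have g4 := integral_ofReal (𝕜 := ℂ) (μ := (volume : Measure ℂ))
            (f := fun z : ℂ => (ζ z).im * ma s z - (ζ z).im)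
          rw [g2] at g4
          exact g4.trans (by simp)
        refine Eq.trans (integral_congr_ae (Eventually.of_forall fun z => ?_)) g3
        beta_reduce
        push_cast
        ring
      have T1 : Test UH (fun z => ((ζ z).re : ℂ)) := ⟨Complex.ofRealCLM.contDiff.comp p1,
        hζ.supp.mono' (subset_closure.trans (closure_mono fun z hz => by
          rw [Function.mem_support] at hz ⊢
          intro h0
          exact hz (by rw [h0]; rfl))), (closure_mono fun z hz => by
          rw [Function.mem_support] at hz ⊢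
          intro h0
          exact hz (by rw [h0]; rfl)).trans hζ.sub⟩
      have T2 : Test UH (fun z => ((ζ z).im : ℂ)) := ⟨Complex.ofRealCLM.contDiff.comp p2,
        hζ.supp.mono' (subset_closure.trans (closure_mono fun z hz => by
          rw [Function.mem_support] at hz ⊢
          intro h0
          exact hz (by rw [h0]; rfl))), (closure_mono fun z hz => by
          rw [Function.mem_support] at hz ⊢
          intro h0
          exact hz (by rw [h0]; rfl)).trans hζ.sub⟩
      have j1 : Integrable (fun z => ((ζ z).re : ℂ) * ((ma s z : ℂ) - 1)) := T1.integrable_loc hloc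
      have j2 : Integrable (fun z => ((ζ z).im : ℂ) * ((ma s z : ℂ) - 1)) := T2.integrable_loc hloc
      have e3 : (fun z => ζ z * ((ma s z : ℂ) - 1)) = fun z => ((ζ z).re : ℂ) * ((ma s z : ℂ) - 1)
          + Complex.I * (((ζ z).im : ℂ) * ((ma s z : ℂ) - 1)) := by
        funext z
        conv_lhs => rw [← Complex.re_add_im (ζ z)]
        ring
      rw [e3, integral_add j1 (j2.const_mul _), integral_const_mul, f1, f2]
      ring
    have hU : ∀ᵐ z ∂((volume : Measure ℂ).restrict UH), ma s z = 1 := by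
      filter_upwards [hz] with z hz
      have := sub_eq_zero.1 hz
      exact_mod_cast this
    exact CORE.ae_D (P := fun z => ((s z) univ).toReal = 1) hU

end

end PWV
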