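import Pool.Agent.PWV.St1
import Pool.Agent.BWM.C03

/-!
# The law of large numbers for the autocorrelation

The variance is the mean over the pairs of points `x, y` of the box of
`K(x - y)² + K(x - y - a) K(x - y + a)`, and this is small outside a neighbourhood of the diagonal.
-/

open Complex MeasureTheory Filter Topology Set

namespace PWV

namespace COR

open Berry

lemma four {Ω : Type} [MeasurableSpace Ω] (P : Measure Ω) (A B C D : Ω → ℝ)
    (hA : Integrable A P) (hB : Integrable B P) (hC : Integrable C P) (hD : Integrable D P) :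
    ∫ o, (A o - B o - C o + D o) ∂P =
      ∫ o, A o ∂P - ∫ o, B o ∂P - ∫ o, C o ∂P + ∫ o, D o ∂P := by
  have h1 : ∫ o, (A o - B o) ∂P = ∫ o, A o ∂P - ∫ o, B o ∂P := integral_sub hA hB
  have h2 : ∫ o, (A o - B o - C o) ∂P = ∫ o, (A o - B o) ∂P - ∫ o, C o ∂P :=
    integral_sub (hA.sub hB) hC
  have h3 : ∫ o, (A o - B o - C o + D o) ∂P = ∫ o, (A o - B o - C o) ∂P + ∫ o, D o ∂P :=
    integral_add ((hA.sub hB).sub hC) hD
  rw [h3, h2, h1]

/-- One term of the expanded square. -/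
lemma term {Ω : Type} [MeasurableSpace Ω] (P : Measure Ω) [IsProbabilityMeasure P]
    (F : ℂ → Ω → ℝ)
    (h2 : ∀ x y : ℂ, Integrable (fun o => F x o * F y o) P ∧
      ∫ o, F x o * F y o ∂P = waveK (x - y))
    (h4 : ∀ x₁ x₂ x₃ x₄ : ℂ, Integrable (fun o => F x₁ o * F x₂ o * F x₃ o * F x₄ o) P ∧
      ∫ o, F x₁ o * F x₂ o * F x₃ o * F x₄ o ∂P
        = waveK (x₁ - x₂) * waveK (x₃ - x₄)
          + waveK (x₁ - x₃) * waveK (x₂ - x₄)
          + waveK (x₁ - x₄) * waveK (x₂ - x₃)) (a p q : ℂ) :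
    Integrable (fun o => (F p o * F (p + a) o - waveK a) * (F q o * F (q + a) o - waveK a)) P ∧
    ∫ o, (F p o * F (p + a) o - waveK a) * (F q o * F (q + a) o - waveK a) ∂P =
      waveK (p - q) ^ 2 + waveK (p - q - a) * waveK (p - q + a) := by
  have e : (fun o => (F p o * F (p + a) o - waveK a) * (F q o * F (q + a) o - waveK a)) =
      fun o => F p o * F (p + a) o * F q o * F (q + a) o - waveK a * (F p o * F (p + a) o) -
        waveK a * (F q o * F (q + a) o) + waveK a ^ 2 := by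
    funext o
    ring
  have i4 := (h4 p (p + a) q (q + a)).1
  have i1 := ((h2 p (p + a)).1).const_mul (waveK a)
  have i2 := ((h2 q (q + a)).1).const_mul (waveK a)
  have i3 : Integrable (fun _ : Ω => waveK a ^ 2) P := integrable_const _
  rw [e]
  refine ⟨((i4.sub i1).sub i2).add i3, ?_⟩
  have s1 : ∫ o, (F p o * F (p + a) o * F q o * F (q + a) o - waveK a * (F p o * F (p + a) o) -
        waveK a * (F q o * F (q + a) o) + waveK a ^ 2) ∂P =
      ∫ o, F p o * F (p + a) o * F q o * F (q + a) o ∂P - ∫ o, waveK a * (F p o * F (p + a) o) ∂P -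
        ∫ o, waveK a * (F q o * F (q + a) o) ∂P + ∫ _o, waveK a ^ 2 ∂P :=
    four P _ _ _ _ i4 i1 i2 i3
  rw [s1, integral_const_mul, integral_const_mul, (h4 p (p + a) q (q + a)).2, (h2 p (p + a)).2,
    (h2 q (q + a)).2, integral_const]
  have t1 : p - (p + a) = -a := by ring
  have t2 : q - (q + a) = -a := by ring
  have t3 : p + a - (q + a) = p - q := by ring
  have t4 : p - (q + a) = p - q - a := by ring
  have t5 : p + a - q = p - q + a := by ring
  rw [t1, t2, t3, t4, t5, waveK_neg]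
  simp
  ring

/-- The square of the deviation of the autocorrelation, expanded. -/
lemma expand (f : ℂ → ℝ) (N : ℕ) (hN : 0 < N) (a : ℂ) (K : ℝ) :
    (cor f N a - K) ^ 2 = 1 / (N : ℝ) ^ 4 * ∑ p ∈ box N, ∑ q ∈ box N,
      (f (pt p) * f (pt p + a) - K) * (f (pt q) * f (pt q + a) - K) := by
  have hN' : (N : ℝ) ≠ 0 := by exact_mod_cast hN.ne'
  have hcard : ((box N).card : ℝ) = (N : ℝ) ^ 2 := by
    unfold box
    rw [Finset.card_product, Finset.card_range]
    push_cast
    ring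
  have h1 : cor f N a - K = 1 / (N : ℝ) ^ 2 * ∑ p ∈ box N, (f (pt p) * f (pt p + a) - K) := by
    unfold cor
    rw [Finset.sum_sub_distrib, Finset.sum_const, nsmul_eq_mul, hcard]
    field_simp
  rw [h1, mul_pow, sq (∑ p ∈ box N, (f (pt p) * f (pt p + a) - K)), Finset.sum_mul_sum]
  congr 1
  rw [div_pow, one_pow, ← pow_mul]

/-- The number of points of the box close to a given one. -/
lemma near (N M : ℕ) (p : ℕ × ℕ) :
    ((box N).filter fun q => ‖pt p - pt q‖ < M).card ≤ (2 * M + 1) ^ 2 := by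
  have hsub : ((box N).filter fun q => ‖pt p - pt q‖ < M) ⊆
      Finset.Icc (p.1 - M) (p.1 + M) ×ˢ Finset.Icc (p.2 - M) (p.2 + M) := by
    intro q hq
    have h := (Finset.mem_filter.mp hq).2
    have hre : |((pt p - pt q).re)| < M := (Complex.abs_re_le_norm _).trans_lt h
    have him : |((pt p - pt q).im)| < M := (Complex.abs_im_le_norm _).trans_lt h
    have e1 : (pt p - pt q).re = (p.1 : ℝ) - q.1 := by simp [pt]
    have e2 : (pt p - pt q).im = (p.2 : ℝ) - q.2 := by simp [pt]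
    rw [e1, abs_lt] at hre
    rw [e2, abs_lt] at him
    have a1 : (q.1 : ℝ) < p.1 + M := by linarith [hre.1]
    have a2 : (p.1 : ℝ) < q.1 + M := by linarith [hre.2]
    have a3 : (q.2 : ℝ) < p.2 + M := by linarith [him.1]
    have a4 : (p.2 : ℝ) < q.2 + M := by linarith [him.2]
    have b1 : q.1 < p.1 + M := by exact_mod_cast a1
    have b2 : p.1 < q.1 + M := by exact_mod_cast a2
    have b3 : q.2 < p.2 + M := by exact_mod_cast a3
    have b4 : p.2 < q.2 + M := by exact_mod_cast a4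
    rw [Finset.mem_product, Finset.mem_Icc, Finset.mem_Icc]
    refine ⟨⟨?_, ?_⟩, ?_, ?_⟩ <;> omega
  refine (Finset.card_le_card hsub).trans ?_
  rw [Finset.card_product, Nat.card_Icc, Nat.card_Icc, sq]
  apply Nat.mul_le_mul <;> omega

/-- The bound for the mean. -/
lemma mean_le (H : ℂ → ℝ) (δ : ℝ) (hδ : 0 ≤ δ) (M : ℕ) (h2 : ∀ u, |H u| ≤ 2)
    (hM : ∀ u, (M : ℝ) ≤ ‖u‖ → |H u| ≤ 2 * δ) (N : ℕ) (hN : 0 < N) :
    |1 / (N : ℝ) ^ 4 * ∑ p ∈ box N, ∑ q ∈ box N, H (pt p - pt q)| ≤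
      2 * δ + 2 * (2 * (M : ℝ) + 1) ^ 2 / (N : ℝ) ^ 2 := by
  have hN' : (0 : ℝ) < N := by exact_mod_cast hN
  have hcard : ((box N).card : ℝ) = (N : ℝ) ^ 2 := by
    unfold box
    rw [Finset.card_product, Finset.card_range]
    push_cast
    ring
  have h3 : ∀ p ∈ box N, |∑ q ∈ box N, H (pt p - pt q)| ≤
      2 * δ * (N : ℝ) ^ 2 + 2 * (2 * (M : ℝ) + 1) ^ 2 := by
    intro p _
    calc |∑ q ∈ box N, H (pt p - pt q)| ≤ ∑ q ∈ box N, |H (pt p - pt q)| :=
          Finset.abs_sum_le_sum_abs _ _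
      _ ≤ ∑ q ∈ box N, (2 * δ + if ‖pt p - pt q‖ < M then 2 else 0) := by
          refine Finset.sum_le_sum fun q _ => ?_
          split_ifs with h
          · linarith [h2 (pt p - pt q)]
          · linarith [hM (pt p - pt q) (not_lt.mp h)]
      _ = 2 * δ * (N : ℝ) ^ 2 +
            2 * (((box N).filter fun q => ‖pt p - pt q‖ < M).card : ℝ) := by
          rw [Finset.sum_add_distrib, Finset.sum_const, nsmul_eq_mul, hcard,
            ← Finset.sum_filter, Finset.sum_const, nsmul_eq_mul]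
          ring
      _ ≤ 2 * δ * (N : ℝ) ^ 2 + 2 * (2 * (M : ℝ) + 1) ^ 2 := by
          have : (((box N).filter fun q => ‖pt p - pt q‖ < M).card : ℝ) ≤
              (2 * (M : ℝ) + 1) ^ 2 := by exact_mod_cast near N M p
          linarith
  have h4 : |∑ p ∈ box N, ∑ q ∈ box N, H (pt p - pt q)| ≤
      (N : ℝ) ^ 2 * (2 * δ * (N : ℝ) ^ 2 + 2 * (2 * (M : ℝ) + 1) ^ 2) := by
    calc |∑ p ∈ box N, ∑ q ∈ box N, H (pt p - pt q)|
        ≤ ∑ p ∈ box N, |∑ q ∈ box N, H (pt p - pt q)| := Finset.abs_sum_le_sum_abs _ _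
      _ ≤ ∑ p ∈ box N, (2 * δ * (N : ℝ) ^ 2 + 2 * (2 * (M : ℝ) + 1) ^ 2) :=
          Finset.sum_le_sum h3
      _ = (N : ℝ) ^ 2 * (2 * δ * (N : ℝ) ^ 2 + 2 * (2 * (M : ℝ) + 1) ^ 2) := by
          rw [Finset.sum_const, nsmul_eq_mul, hcard]
  rw [abs_mul, abs_of_pos (by positivity : (0 : ℝ) < 1 / (N : ℝ) ^ 4)]
  calc 1 / (N : ℝ) ^ 4 * |∑ p ∈ box N, ∑ q ∈ box N, H (pt p - pt q)|
      ≤ 1 / (N : ℝ) ^ 4 *
          ((N : ℝ) ^ 2 * (2 * δ * (N : ℝ) ^ 2 + 2 * (2 * (M : ℝ) + 1) ^ 2)) :=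
        mul_le_mul_of_nonneg_left h4 (by positivity)
    _ = 2 * δ + 2 * (2 * (M : ℝ) + 1) ^ 2 / (N : ℝ) ^ 2 := by
        field_simp

end COR

open COR Berry in
/-- `COR`.  The law of large numbers for the autocorrelation. -/
theorem t_COR : StmtCor := by
  intro Ω _ P _ F hF h2 h4 a
  set H : ℂ → ℝ := fun u => waveK u ^ 2 + waveK (u - a) * waveK (u + a) with hHd
  have hval : ∀ N : ℕ, 0 < N → ∫ o, (cor (fun x => F x o) N a - waveK a) ^ 2 ∂P =
      1 / (N : ℝ) ^ 4 * ∑ p ∈ box N, ∑ q ∈ box N, H (pt p - pt q) := by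
    intro N hN
    have e : (fun o => (cor (fun x => F x o) N a - waveK a) ^ 2) = fun o =>
        1 / (N : ℝ) ^ 4 * ∑ p ∈ box N, ∑ q ∈ box N,
          (F (pt p) o * F (pt p + a) o - waveK a) * (F (pt q) o * F (pt q + a) o - waveK a) := by
      funext o
      exact expand (fun x => F x o) N hN a (waveK a)
    rw [e, integral_const_mul]
    congr 1
    rw [integral_finsetSum _ fun p _ => integrable_finsetSum _ fun q _ =>
      (term P F h2 h4 a (pt p) (pt q)).1]
    refine Finset.sum_congr rfl fun p _ => ?_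
    rw [integral_finsetSum _ fun q _ => (term P F h2 h4 a (pt p) (pt q)).1]
    refine Finset.sum_congr rfl fun q _ => ?_
    exact (term P F h2 h4 a (pt p) (pt q)).2
  have hH2 : ∀ u, |H u| ≤ 2 := by
    intro u
    have k1 := waveK_abs_le u
    have k2 := waveK_abs_le (u - a)
    have k3 := waveK_abs_le (u + a)
    calc |H u| ≤ |waveK u ^ 2| + |waveK (u - a) * waveK (u + a)| := abs_add_le _ _
      _ = |waveK u| * |waveK u| + |waveK (u - a)| * |waveK (u + a)| := by
          rw [sq, abs_mul, abs_mul]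
      _ ≤ 1 * 1 + 1 * 1 := by gcongr
      _ = 2 := by norm_num
  rw [Metric.tendsto_atTop]
  intro ε hε
  set δ : ℝ := min 1 (ε / 8) with hδd
  have hδ : 0 < δ := lt_min one_pos (by positivity)
  have hδ1 : δ ≤ 1 := min_le_left _ _
  have hδε : δ ≤ ε / 8 := min_le_right _ _
  obtain ⟨R, hR⟩ := waveK_vanishes δ hδ
  obtain ⟨M, hM⟩ := exists_nat_ge (max R 0 + ‖a‖)
  have hHM : ∀ u, (M : ℝ) ≤ ‖u‖ → |H u| ≤ 2 * δ := by
    intro u hu
    have hu1 : R ≤ ‖u‖ := by
      have := le_max_left R 0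
      have := norm_nonneg a
      linarith
    have hu2 : R ≤ ‖u - a‖ := by
      have h5 := norm_sub_norm_le u a
      have := le_max_left R 0
      linarith
    have hu3 : R ≤ ‖u + a‖ := by
      have h5 := norm_sub_norm_le u (-a)
      rw [norm_neg, sub_neg_eq_add] at h5
      have := le_max_left R 0
      linarith
    have k1 := hR u hu1
    have k2 := hR (u - a) hu2
    have k3 := hR (u + a) hu3
    have k4 := waveK_abs_le u
    have k5 := waveK_abs_le (u + a)
    calc |H u| ≤ |waveK u ^ 2| + |waveK (u - a) * waveK (u + a)| := abs_add_le _ _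
      _ = |waveK u| * |waveK u| + |waveK (u - a)| * |waveK (u + a)| := by
          rw [sq, abs_mul, abs_mul]
      _ ≤ δ * 1 + δ * 1 := by gcongr
      _ = 2 * δ := by ring
  have hlim : Tendsto (fun N : ℕ => 2 * (2 * (M : ℝ) + 1) ^ 2 / (N : ℝ) ^ 2) atTop (𝓝 0) := by
    apply Tendsto.const_div_atTop
    exact (tendsto_pow_atTop (two_ne_zero)).comp tendsto_natCast_atTop_atTop
  obtain ⟨N₀, hN₀⟩ := (Metric.tendsto_atTop.mp hlim) (ε / 2) (by positivity)
  refine ⟨max N₀ 1, fun N hN => ?_⟩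
  have hN0 : N₀ ≤ N := (le_max_left _ _).trans hN
  have hN1 : 0 < N := (le_max_right _ _).trans hN
  rw [Real.dist_eq, sub_zero, hval N hN1]
  have h6 := mean_le H δ hδ.le M hH2 hHM N hN1
  have h7 := hN₀ N hN0
  rw [Real.dist_eq, sub_zero] at h7
  have h8 := (le_abs_self _).trans_lt h7
  linarith

end PWV
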