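import Pool.Agent.PWV.St0

/-!
# Plane waves in Benjamini-Schramm limits, module EXP: the expectations (helper43)
-/

open Complex MeasureTheory Filter Topology Set
open UpperHalfPlane hiding I
open scoped ContDiff MatrixGroups ProbabilityTheory ENNReal

namespace PWV

open NFP QE

namespace EXP

/-- the energy is not negative -/
theorem en_nonneg (f : ℂ → ℝ) (N : ℕ) : 0 ≤ en f N := by
  unfold en
  have hp : -Real.pi ≤ Real.pi := by linarith [Real.pi_pos]
  refine mul_nonneg (by positivity) ?_
  refine intervalIntegral.integral_nonneg hp fun a _ => ?_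
  refine intervalIntegral.integral_nonneg hp fun b _ => ?_
  positivity

/-- the square of the local mass -/
theorem loc_sq (f : ℂ → ℝ) (N : ℕ) : loc f N ^ 2 =
    1 / (N : ℝ) ^ 4 * ∑ p ∈ box N, ∑ q ∈ box N, f (pt p) * f (pt p) * f (pt q) * f (pt q) := by
  unfold loc
  rw [mul_pow, sq (∑ q ∈ box N, _), Finset.sum_mul_sum]
  congr 1
  · rw [div_pow, one_pow, ← pow_mul]
  · refine Finset.sum_congr rfl fun p _ => Finset.sum_congr rfl fun q _ => ?_
    ring

end EXP

open EXP

theorem t_EXP (h1 : StmtPar) : StmtExp := by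
  intro Ω _ P _ F G hF h2 h4 N
  have hen : ∀ o, en (fun x => F x o) N = 9 / 4 * (1 / (N : ℝ) ^ 6 * ∑ q ∈ quads N,
      F (pt q.1) o * F (pt q.2.1) o * F (pt q.2.2.1) o * F (pt q.2.2.2) o) := by
    intro o
    rw [h1]
    rfl
  have hloc : ∀ o, loc (fun x => F x o) N ^ 2 = 1 / (N : ℝ) ^ 4 * ∑ p ∈ box N, ∑ q ∈ box N,
      F (pt p) o * F (pt p) o * F (pt q) o * F (pt q) o := fun o => loc_sq _ N
  have hloc1 : ∀ o, loc (fun x => F x o) N = 1 / (N : ℝ) ^ 2 * ∑ p ∈ box N,
      F (pt p) o * F (pt p) o := by
    intro o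
    unfold loc
    congr 1
    exact Finset.sum_congr rfl fun p _ => sq _
  have hI1 : Integrable (fun o => en (fun x => F x o) N) P := by
    simp only [hen]
    exact ((integrable_finsetSum _ fun q _ => (h4 _ _ _ _).1).const_mul _).const_mul _
  have hI2 : Integrable (fun o => loc (fun x => F x o) N ^ 2) P := by
    simp only [hloc]
    exact (integrable_finsetSum _ fun p _ => integrable_finsetSum _ fun q _ =>
      (h4 _ _ _ _).1).const_mul _
  have hI3 : Integrable (fun o => loc (fun x => F x o) N) P := by
    simp only [hloc1]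
    exact (integrable_finsetSum _ fun p _ => (h2 _).1).const_mul _
  have e2 : ∫ o, loc (fun x => F x o) N ^ 2 ∂P = bl N (fun x y => G ![x, x, y, y]) := by
    simp only [hloc]
    rw [integral_const_mul, integral_finsetSum _ fun p _ => integrable_finsetSum _ fun q _ =>
      (h4 _ _ _ _).1]
    unfold bl
    congr 1
    refine Finset.sum_congr rfl fun p _ => ?_
    rw [integral_finsetSum _ fun q _ => (h4 _ _ _ _).1]
    exact Finset.sum_congr rfl fun q _ => (h4 _ _ _ _).2
  refine ⟨⟨hI1, integral_nonneg fun o => en_nonneg _ N, ?_⟩, hI2, e2, ?_⟩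
  · simp only [hen]
    rw [integral_const_mul, integral_const_mul, integral_finsetSum _ fun q _ => (h4 _ _ _ _).1]
    unfold qs
    congr 2
    exact Finset.sum_congr rfl fun q _ => (h4 _ _ _ _).2
  · intro hN
    have e1 : ∫ o, loc (fun x => F x o) N ∂P = 1 := by
      simp only [hloc1]
      rw [integral_const_mul, integral_finsetSum _ fun p _ => (h2 _).1,
        Finset.sum_congr rfl fun p _ => (h2 (pt p)).2]
      have hc : (box N).card = N * N := by
        unfold box
        rw [Finset.card_product, Finset.card_range]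
      rw [Finset.sum_const, hc, nsmul_eq_mul, mul_one]
      push_cast
      have hN' : (N : ℝ) ≠ 0 := by exact_mod_cast hN.ne'
      field_simp
    have e3 : ∀ o, (loc (fun x => F x o) N - 1) ^ 2 =
        loc (fun x => F x o) N ^ 2 - 2 * loc (fun x => F x o) N + 1 := fun o => by ring
    have hI4 : Integrable (fun o => 2 * loc (fun x => F x o) N) P := hI3.const_mul 2
    have hI5 : Integrable (fun o => loc (fun x => F x o) N ^ 2 - 2 * loc (fun x => F x o) N) P :=
      hI2.sub hI4
    simp only [e3]
    rw [integral_add hI5 (integrable_const (1 : ℝ)), integral_sub hI2 hI4, integral_const_mul, e1,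
      e2, integral_const, probReal_univ, one_smul]
    ring

end PWV
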