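import Pool.Agent.PWV.St0

/-!
# Plane waves, module LOW: the energy is small if there are no plane waves
-/

set_option autoImplicit false

open Complex MeasureTheory Filter Topology Set
open UpperHalfPlane hiding I
open scoped ContDiff MatrixGroups ProbabilityTheory ENNReal

namespace PWV

open NFP QE

namespace LOW

lemma cont_coef (f : ℂ → ℝ) (N : ℕ) : Continuous (coef f N) := by
  have h : ∀ q : ℕ × ℕ, Continuous fun v : ℂ => ew v q := by
    intro q
    unfold ew ip
    refine Complex.continuous_exp.comp (Continuous.neg (continuous_const.mul ?_))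
    exact Complex.continuous_ofReal.comp
      (Complex.continuous_re.comp (continuous_id.mul continuous_const))
  unfold coef
  exact continuous_const.mul (continuous_finsetSum _ fun q _ => continuous_const.mul (h q))

lemma cont_two (f : ℂ → ℝ) (N k : ℕ) : Continuous (Function.uncurry fun a b : ℝ =>
    ‖coef f N ((a : ℂ) + (b : ℂ) * Complex.I)‖ ^ k) := by
  have h : Continuous fun p : ℝ × ℝ => ((p.1 : ℂ) + (p.2 : ℂ) * Complex.I) :=
    (Complex.continuous_ofReal.comp continuous_fst).add
      ((Complex.continuous_ofReal.comp continuous_snd).mul continuous_const)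
  exact (((cont_coef f N).comp h).norm).pow k

lemma mono (f : ℂ → ℝ) (N : ℕ) (S : ℝ) (hS : ∀ v, ‖coef f N v‖ ^ 2 ≤ S) :
    (∫ a in (-Real.pi)..Real.pi, ∫ b in (-Real.pi)..Real.pi,
      ‖coef f N ((a : ℂ) + (b : ℂ) * Complex.I)‖ ^ 4) ≤
    S * ∫ a in (-Real.pi)..Real.pi, ∫ b in (-Real.pi)..Real.pi,
      ‖coef f N ((a : ℂ) + (b : ℂ) * Complex.I)‖ ^ 2 := by
  have hpi : -Real.pi ≤ Real.pi := by linarith [Real.pi_pos]
  have h4 := cont_two f N 4
  have h2 := cont_two f N 2
  rw [← intervalIntegral.integral_const_mul]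
  refine intervalIntegral.integral_mono hpi ?_ ?_ fun a => ?_
  · exact (intervalIntegral.continuous_parametric_intervalIntegral_of_continuous' h4 _ _
      ).intervalIntegrable _ _
  · exact (continuous_const.mul
      (intervalIntegral.continuous_parametric_intervalIntegral_of_continuous' h2 _ _)
      ).intervalIntegrable _ _
  · show (∫ b in (-Real.pi)..Real.pi, ‖coef f N ((a : ℂ) + (b : ℂ) * Complex.I)‖ ^ 4) ≤
      S * ∫ b in (-Real.pi)..Real.pi, ‖coef f N ((a : ℂ) + (b : ℂ) * Complex.I)‖ ^ 2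
    rw [← intervalIntegral.integral_const_mul]
    refine intervalIntegral.integral_mono hpi ?_ ?_ fun b => ?_
    · exact (h4.comp (Continuous.prodMk_right a)).intervalIntegrable _ _
    · exact (continuous_const.mul (h2.comp (Continuous.prodMk_right a))).intervalIntegrable _ _
    · have h := hS ((a : ℂ) + (b : ℂ) * Complex.I)
      have h0 : 0 ≤ ‖coef f N ((a : ℂ) + (b : ℂ) * Complex.I)‖ ^ 2 := by positivity
      show ‖coef f N ((a : ℂ) + (b : ℂ) * Complex.I)‖ ^ 4 ≤
        S * ‖coef f N ((a : ℂ) + (b : ℂ) * Complex.I)‖ ^ 2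
      nlinarith

end LOW

theorem t_LOW (h1 : StmtPrs) : StmtLow := by
  intro f N S hS
  have h2 := LOW.mono f N S hS
  have h3 := h1 (box N) (fun q => 1 / (N : ℂ) ^ 2 * (f (pt q) : ℂ))
  have h4 : ∀ v : ℂ, ∑ k ∈ box N, 1 / (N : ℂ) ^ 2 * (f (pt k) : ℂ) * ew v k = coef f N v := by
    intro v
    unfold coef
    rw [Finset.mul_sum]
    exact Finset.sum_congr rfl fun q _ => by rw [mul_assoc]
  simp only [h4] at h3
  rw [h3] at h2
  have h5 : ∑ k ∈ box N, ‖1 / (N : ℂ) ^ 2 * (f (pt k) : ℂ)‖ ^ 2 =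
      1 / (N : ℝ) ^ 4 * ∑ k ∈ box N, f (pt k) ^ 2 := by
    rw [Finset.mul_sum]
    refine Finset.sum_congr rfl fun q _ => ?_
    rw [norm_mul, norm_div, norm_one, norm_pow, Complex.norm_natCast, Complex.norm_real,
      mul_pow, Real.norm_eq_abs, sq_abs, div_pow, one_pow]
    ring_nf
  rw [h5] at h2
  have hpi := Real.pi_pos
  have h6 : 0 ≤ 9 * (N : ℝ) ^ 2 / (16 * Real.pi ^ 2) := by positivity
  have h7 := mul_le_mul_of_nonneg_left h2 h6
  unfold en
  refine h7.trans (le_of_eq ?_)
  unfold loc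
  rcases Nat.eq_zero_or_pos N with hN | hN
  · subst hN
    simp
  · have hN' : (0 : ℝ) < N := by exact_mod_cast hN
    field_simp
    ring

end PWV
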