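import Pool.Agent.PWV.St0

/-!
# PWV: Nikolskii's inequality (module NIK)
-/

open Complex MeasureTheory Filter Topology Set
open UpperHalfPlane hiding I
open scoped ContDiff MatrixGroups ProbabilityTheory ENNReal

namespace PWV

open NFP QE

noncomputable section

namespace NIK

lemma norm_ew (v : ℂ) (q : ℕ × ℕ) : ‖ew v q‖ = 1 := by
  unfold ew
  rw [Complex.norm_exp]
  simp

lemma card_box (N : ℕ) : (box N).card = N * N := by
  unfold box
  rw [Finset.card_product, Finset.card_range]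

end NIK

open NIK in
theorem t_NIK (h1 : StmtPrs) (h2 : StmtSqr) : StmtNik := by
  intro f N v
  have hen : 16 / 9 * en f N = 4 * (N : ℝ) ^ 2 * ∑ k ∈ box (2 * N), cv f N k ^ 2 := by
    have h3 : ∫ a in (-Real.pi)..Real.pi, ∫ b in (-Real.pi)..Real.pi,
        ‖coef f N ((a : ℂ) + (b : ℂ) * Complex.I)‖ ^ 4 =
        4 * Real.pi ^ 2 * ∑ k ∈ box (2 * N), cv f N k ^ 2 := by
      have h4 := h1 (box (2 * N)) (fun k => (cv f N k : ℂ))
      have h5 : ∀ a b : ℝ, ‖∑ k ∈ box (2 * N), (cv f N k : ℂ) *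
          ew ((a : ℂ) + (b : ℂ) * Complex.I) k‖ ^ 2 =
          ‖coef f N ((a : ℂ) + (b : ℂ) * Complex.I)‖ ^ 4 := by
        intro a b
        rw [← h2 f N, norm_pow, ← pow_mul]
      simp only [h5] at h4
      rw [h4]
      congr 1
      refine Finset.sum_congr rfl fun k _ => ?_
      rw [Complex.norm_real, Real.norm_eq_abs, sq_abs]
    unfold en
    rw [h3]
    have hpi : Real.pi ≠ 0 := Real.pi_ne_zero
    field_simp
  rw [hen]
  have h6 : ‖coef f N v‖ ^ 4 = ‖∑ k ∈ box (2 * N), (cv f N k : ℂ) * ew v k‖ ^ 2 := by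
    rw [← h2 f N, norm_pow, ← pow_mul]
  have h7 : ‖∑ k ∈ box (2 * N), (cv f N k : ℂ) * ew v k‖ ≤ ∑ k ∈ box (2 * N), |cv f N k| := by
    refine (norm_sum_le _ _).trans (le_of_eq ?_)
    refine Finset.sum_congr rfl fun k _ => ?_
    rw [norm_mul, norm_ew, mul_one, Complex.norm_real, Real.norm_eq_abs]
  have h8 : (∑ k ∈ box (2 * N), |cv f N k|) ^ 2 ≤
      ((box (2 * N)).card : ℝ) * ∑ k ∈ box (2 * N), |cv f N k| ^ 2 := sq_sum_le_card_mul_sum_sq
  rw [h6]
  refine (pow_le_pow_left₀ (norm_nonneg _) h7 2).trans (h8.trans (le_of_eq ?_))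
  rw [card_box]
  push_cast
  simp only [sq_abs]
  ring

end

end PWV
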