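import Pool.Agent.PWV.St0

/-!
# PWV, module PAR (helper20): the energy in terms of the additive quadruples
-/

open Complex MeasureTheory Filter Topology Set
open UpperHalfPlane hiding I
open scoped ContDiff MatrixGroups ProbabilityTheory ENNReal

namespace PWV

open NFP QE

noncomputable section

namespace PAR

/-- the square of the sums over the fibres -/
lemma sq_fib {α κ : Type} [DecidableEq κ] (S : Finset α) (T : Finset κ) (σ : α → κ)
    (hσ : ∀ p ∈ S, σ p ∈ T) (g : α → ℝ) :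
    ∑ k ∈ T, (∑ p ∈ S.filter (fun p => σ p = k), g p) ^ 2 =
      ∑ q ∈ (S ×ˢ S).filter (fun q => σ q.1 = σ q.2), g q.1 * g q.2 := by
  have h1 : ∀ k ∈ T, (∑ p ∈ S.filter (fun p => σ p = k), g p) ^ 2 =
      ∑ p ∈ S.filter (fun p => σ p = k), ∑ q ∈ S.filter (fun q => σ p = σ q), g p * g q := by
    intro k _
    rw [sq, Finset.sum_mul_sum]
    refine Finset.sum_congr rfl fun p hp => ?_
    have hp' := (Finset.mem_filter.1 hp).2
    refine Finset.sum_congr ?_ fun _ _ => rfl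
    refine Finset.filter_congr fun q _ => ?_
    rw [hp', eq_comm]
  rw [Finset.sum_congr rfl h1, Finset.sum_fiberwise_of_maps_to hσ, Finset.sum_filter,
    Finset.sum_product]
  refine Finset.sum_congr rfl fun p _ => ?_
  rw [Finset.sum_filter]

end PAR

open PAR in
theorem t_PAR (h1 : StmtPrs) (h2 : StmtSqr) : StmtPar := by
  classical
  intro f N
  unfold en qs
  have e1 : ∀ a b : ℝ, ‖coef f N ((a : ℂ) + (b : ℂ) * Complex.I)‖ ^ 4 =
      ‖∑ k ∈ box (2 * N), ((cv f N k : ℝ) : ℂ) * ew ((a : ℂ) + (b : ℂ) * Complex.I) k‖ ^ 2 := by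
    intro a b
    rw [← h2, norm_pow]
    ring
  simp_rw [e1]
  rw [h1 (box (2 * N)) (fun k => ((cv f N k : ℝ) : ℂ))]
  have hmaps : ∀ p ∈ box N ×ˢ box N, p.1 + p.2 ∈ box (2 * N) := by
    intro p hp
    unfold box at hp ⊢
    simp only [Finset.mem_product, Finset.mem_range, Prod.fst_add, Prod.snd_add] at hp ⊢
    omega
  have e2 : ∑ k ∈ box (2 * N), ‖((cv f N k : ℝ) : ℂ)‖ ^ 2 = 1 / (N : ℝ) ^ 8 *
      ∑ q ∈ ((box N ×ˢ box N) ×ˢ (box N ×ˢ box N)).filter
        (fun q => q.1.1 + q.1.2 = q.2.1 + q.2.2),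
        (f (pt q.1.1) * f (pt q.1.2)) * (f (pt q.2.1) * f (pt q.2.2)) := by
    rw [← sq_fib (box N ×ˢ box N) (box (2 * N)) (fun p => p.1 + p.2) hmaps
      (fun p => f (pt p.1) * f (pt p.2)), Finset.mul_sum]
    refine Finset.sum_congr rfl fun k _ => ?_
    rw [Complex.norm_real, Real.norm_eq_abs, sq_abs]
    unfold cv
    ring
  have e3 : ∑ q ∈ ((box N ×ˢ box N) ×ˢ (box N ×ˢ box N)).filter
        (fun q => q.1.1 + q.1.2 = q.2.1 + q.2.2),
        (f (pt q.1.1) * f (pt q.1.2)) * (f (pt q.2.1) * f (pt q.2.2)) =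
      ∑ q ∈ quads N, f (pt q.1) * f (pt q.2.1) * f (pt q.2.2.1) * f (pt q.2.2.2) := by
    refine Finset.sum_nbij' (fun q => (q.1.1, q.2.1, q.2.2, q.1.2))
      (fun q => ((q.1, q.2.2.2), (q.2.1, q.2.2.1))) ?_ ?_ ?_ ?_ ?_
    · intro q hq
      unfold quads
      simp only [Finset.mem_filter, Finset.mem_product] at hq ⊢
      tauto
    · intro q hq
      unfold quads at hq
      simp only [Finset.mem_filter, Finset.mem_product] at hq ⊢
      tauto
    · intro q _
      rfl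
    · intro q _
      rfl
    · intro q _
      show _ = f (pt q.1.1) * f (pt q.2.1) * f (pt q.2.2) * f (pt q.1.2)
      ring
  rw [e2, e3]
  have e4 : ∑ q ∈ quads N, (fun x : Fin 4 → ℂ => f (x 0) * f (x 1) * f (x 2) * f (x 3))
        ![pt q.1, pt q.2.1, pt q.2.2.1, pt q.2.2.2] =
      ∑ q ∈ quads N, f (pt q.1) * f (pt q.2.1) * f (pt q.2.2.1) * f (pt q.2.2.2) :=
    Finset.sum_congr rfl fun q _ => rfl
  rw [e4]
  rcases Nat.eq_zero_or_pos N with hN | hN
  · subst hN
    simp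
  · have hN' : (N : ℝ) ≠ 0 := by exact_mod_cast hN.ne'
    have hpi := Real.pi_ne_zero
    field_simp
    ring

end

end PWV
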