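import Pool.Agent.PWV.St0

/-!
# The sums for the waves in one random direction
-/

open Complex MeasureTheory Filter Topology Set
open scoped ENNReal

namespace PWV

open NFP

namespace RKQ

noncomputable section

/-- the two atoms -/
def a1 : S1 := ⟨1, by simp⟩

/-- the two atoms -/
def a2 : S1 := ⟨-1, by simp⟩

lemma a1_ne : a1 ≠ a2 := by
  intro h
  have h1 := congrArg (fun w : S1 => (w : ℂ).re) h
  simp [a1, a2] at h1
  norm_num at h1

lemma neg_a1 : -a1 = a2 := Subtype.ext (by simp [a1, a2])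

lemma neg_a2 : -a2 = a1 := Subtype.ext (by simp [a1, a2])

/-- the measure -/
def s0 : Measure S1 := (2⁻¹ : ℝ≥0∞) • (Measure.dirac a1 + Measure.dirac a2)

lemma s0_univ : s0 univ = 1 := by
  simp only [s0, Measure.smul_apply, Measure.add_apply, measure_univ, smul_eq_mul]
  rw [one_add_one_eq_two]
  exact ENNReal.inv_mul_cancel (by norm_num) (by norm_num)

instance : IsFiniteMeasure s0 := ⟨by rw [s0_univ]; exact ENNReal.one_lt_top⟩

lemma s0_a1 : s0 {a1} = 2⁻¹ := by
  simp only [s0, Measure.smul_apply, Measure.add_apply, smul_eq_mul]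
  rw [Measure.dirac_apply' _ (measurableSet_singleton _),
    Measure.dirac_apply' _ (measurableSet_singleton _)]
  simp [a1_ne.symm]

lemma s0_a2 : s0 {a2} = 2⁻¹ := by
  simp only [s0, Measure.smul_apply, Measure.add_apply, smul_eq_mul]
  rw [Measure.dirac_apply' _ (measurableSet_singleton _),
    Measure.dirac_apply' _ (measurableSet_singleton _)]
  simp [a1_ne]

lemma half_sq : (2⁻¹ : ℝ≥0∞) * (2⁻¹ + 2⁻¹) = 2⁻¹ := by
  rw [ENNReal.inv_two_add_inv_two, mul_one]

lemma dg_s0 : dg s0 = 1 / 2 := by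
  have hm : MeasurableSet {p : S1 × S1 | p.1 = p.2} :=
    (isClosed_eq continuous_fst continuous_snd).measurableSet
  have h : (s0.prod s0) {p : S1 × S1 | p.1 = p.2} = 2⁻¹ := by
    rw [Measure.prod_apply hm]
    have e : ∀ x : S1, Prod.mk x ⁻¹' {p : S1 × S1 | p.1 = p.2} = {x} := by
      intro x
      ext y
      simp [eq_comm]
    simp only [e]
    conv_lhs => rw [s0]
    rw [lintegral_smul_measure, lintegral_add_measure, lintegral_dirac, lintegral_dirac]
    show (2⁻¹ : ℝ≥0∞) * (s0 {a1} + s0 {a2}) = 2⁻¹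
    rw [s0_a1, s0_a2, half_sq]
  rw [dg, h]
  simp

lemma adg_s0 : ((s0.prod s0) {p : S1 × S1 | p.1 = -p.2}).toReal = dg s0 := by
  have hm : MeasurableSet {p : S1 × S1 | p.1 = -p.2} :=
    (isClosed_eq continuous_fst continuous_snd.neg).measurableSet
  have h : (s0.prod s0) {p : S1 × S1 | p.1 = -p.2} = 2⁻¹ := by
    rw [Measure.prod_apply hm]
    have e : ∀ x : S1, Prod.mk x ⁻¹' {p : S1 × S1 | p.1 = -p.2} = {-x} := by
      intro x
      ext y
      simp only [mem_preimage, mem_ofPred_eq, mem_singleton_iff]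
      exact ⟨fun h => by rw [h, neg_neg], fun h => by rw [h, neg_neg]⟩
    simp only [e]
    conv_lhs => rw [s0]
    rw [lintegral_smul_measure, lintegral_add_measure, lintegral_dirac, lintegral_dirac]
    show (2⁻¹ : ℝ≥0∞) * (s0 {-a1} + s0 {-a2}) = 2⁻¹
    rw [neg_a1, neg_a2, s0_a1, s0_a2, half_sq]
  rw [dg_s0, h]
  simp

lemma dirK_s0 (z : ℂ) : dirK s0 z = Real.cos z.re := by
  have h : ∀ w : S1, w = a1 ∨ w = a2 →
      Real.cos (z * (starRingEnd ℂ) (w : ℂ)).re = Real.cos z.re := by
    rintro w (rfl | rfl)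
    · simp [a1]
    · simp [a2]
  rw [dirK, s0, integral_smul_measure, integral_add_measure]
  · rw [integral_dirac, integral_dirac, h a1 (Or.inl rfl), h a2 (Or.inr rfl)]
    simp
    ring
  · exact integrable_dirac (by simp)
  · exact integrable_dirac (by simp)

/-- the mean of the rotated cosine -/
lemma waveK_eq (z : ℂ) : Berry.waveK z = 1 / (2 * Real.pi) *
    ∫ θ in (0 : ℝ)..(2 * Real.pi), Real.cos (Complex.exp (θ * I) * z).re := by
  rw [Berry.waveK, one_div]
  congr 1
  have e1 : ∀ θ : ℝ, Real.cos (Complex.exp (θ * I) * z).re =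
      (fun t : ℝ => Real.cos (z.re * Real.cos t + z.im * Real.sin t)) (0 - θ) := by
    intro θ
    have h1 : (Complex.exp (θ * I) * z).re = Real.cos θ * z.re - Real.sin θ * z.im := by
      rw [Complex.mul_re, Complex.exp_ofReal_mul_I_re, Complex.exp_ofReal_mul_I_im]
    rw [h1, zero_sub]
    show _ = Real.cos (z.re * Real.cos (-θ) + z.im * Real.sin (-θ))
    rw [Real.cos_neg, Real.sin_neg]
    congr 1
    ring
  simp only [e1]
  rw [intervalIntegral.integral_comp_sub_left (fun t : ℝ =>
    Real.cos (z.re * Real.cos t + z.im * Real.sin t)) 0]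
  have hper : Function.Periodic (fun t : ℝ =>
      Real.cos (z.re * Real.cos t + z.im * Real.sin t)) (2 * Real.pi) := by
    intro t
    show Real.cos (z.re * Real.cos (t + 2 * Real.pi) + z.im * Real.sin (t + 2 * Real.pi)) =
      Real.cos (z.re * Real.cos t + z.im * Real.sin t)
    rw [Real.cos_add_two_pi, Real.sin_add_two_pi]
  have h2 := hper.intervalIntegral_add_eq (0 - 2 * Real.pi) 0
  rw [sub_add_cancel, zero_add] at h2
  rw [sub_zero]
  exact h2.symm

lemma int_cos (z : ℂ) : IntervalIntegrable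
    (fun θ : ℝ => Real.cos (Complex.exp (θ * I) * z).re) volume 0 (2 * Real.pi) := by
  apply Continuous.intervalIntegrable
  fun_prop

lemma dirWick_s0 : dirWick s0 = resK := by
  funext x
  rw [dirWick, resK, waveK_eq, waveK_eq, waveK_eq, ← mul_add, ← mul_add,
    ← intervalIntegral.integral_add (int_cos _) (int_cos _),
    ← intervalIntegral.integral_add ((int_cos _).add (int_cos _)) (int_cos _)]
  congr 1
  apply intervalIntegral.integral_congr
  intro θ _
  show dirK s0 _ * dirK s0 _ + dirK s0 _ * dirK s0 _ + dirK s0 _ * dirK s0 _ = _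
  simp only [dirK_s0]
  have hc : ∀ a b c d : ℂ, Real.cos (Complex.exp (θ * I) * (a - b)).re *
      Real.cos (Complex.exp (θ * I) * (c - d)).re =
      1 / 2 * (Real.cos (Complex.exp (θ * I) * (a + d - b - c)).re +
        Real.cos (Complex.exp (θ * I) * (a + c - b - d)).re) := by
    intro a b c d
    have e1 : Complex.exp (θ * I) * (a + d - b - c) =
        Complex.exp (θ * I) * (a - b) - Complex.exp (θ * I) * (c - d) := by ring
    have e2 : Complex.exp (θ * I) * (a + c - b - d) =
        Complex.exp (θ * I) * (a - b) + Complex.exp (θ * I) * (c - d) := by ring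
    rw [e1, e2, Complex.sub_re, Complex.add_re, Real.cos_sub, Real.cos_add]
    ring
  rw [hc, hc, hc]
  have e1 : x 0 + x 3 - x 2 - x 1 = x 0 + x 3 - x 1 - x 2 := by ring
  have e2 : x 0 + x 2 - x 3 - x 1 = x 0 + x 2 - x 1 - x 3 := by ring
  have e3 : x 0 + x 1 - x 3 - x 2 = x 0 + x 1 - x 2 - x 3 := by ring
  rw [e1, e2, e3]
  ring

end

end RKQ

/-- RKQ. -/
theorem t_RKQ (h1 : StmtWkq) (h2 : StmtWkl) : StmtRkq := by
  have k1 := h1 RKQ.s0 inferInstance RKQ.adg_s0
  have k2 := h2 RKQ.s0 inferInstance RKQ.adg_s0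
  rw [RKQ.dirWick_s0, RKQ.dg_s0] at k1
  rw [RKQ.dirWick_s0, RKQ.dg_s0, RKQ.s0_univ] at k2
  refine ⟨?_, ?_⟩
  · convert k1 using 2
    norm_num
  · convert k2 using 2
    norm_num

end PWV
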