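import Pool.Agent.PWV.St0

/-!
# The square of the trigonometric polynomial of a box
-/

namespace PWV

open NFP QE

namespace SQR

theorem ip_add (v x y : ℂ) : ip v (x + y) = ip v x + ip v y := by
  simp [ip, mul_add]

theorem pt_add (p q : ℕ × ℕ) : pt (p + q) = pt p + pt q := by
  rw [pt, pt, pt, Prod.fst_add, Prod.snd_add]
  push_cast
  ring

theorem ew_mul (v : ℂ) (p q : ℕ × ℕ) : ew v p * ew v q = ew v (p + q) := by
  rw [ew, ew, ew, ← Complex.exp_add, pt_add, ip_add]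
  congr 1
  push_cast
  ring

theorem mem_box {N : ℕ} {q : ℕ × ℕ} : q ∈ box N ↔ q.1 < N ∧ q.2 < N := by
  simp [box]

theorem sq_eq (f : ℂ → ℝ) (N : ℕ) (v : ℂ) :
    coef f N v ^ 2 = 1 / (N : ℂ) ^ 4 *
      ∑ p ∈ box N ×ˢ box N, ((f (pt p.1) * f (pt p.2) : ℝ) : ℂ) * ew v (p.1 + p.2) := by
  rw [coef, mul_pow, sq (∑ q ∈ box N, (f (pt q) : ℂ) * ew v q), Finset.sum_mul_sum,
    ← Finset.sum_product']
  congr 1
  · rw [div_pow, one_pow, ← pow_mul]
  · apply Finset.sum_congr rfl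
    intro p _
    rw [← ew_mul]
    push_cast
    ring

end SQR

theorem t_SQR : StmtSqr := by
  intro f N v
  have hmaps : ∀ p ∈ box N ×ˢ box N, p.1 + p.2 ∈ box (2 * N) := by
    intro p hp
    rw [Finset.mem_product, SQR.mem_box, SQR.mem_box] at hp
    rw [SQR.mem_box, Prod.fst_add, Prod.snd_add]
    omega
  rw [SQR.sq_eq, ← Finset.sum_fiberwise_of_maps_to hmaps, Finset.mul_sum]
  apply Finset.sum_congr rfl
  intro k _
  rw [cv]
  push_cast
  rw [mul_assoc, Finset.sum_mul]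
  congr 1
  apply Finset.sum_congr rfl
  intro p hp
  rw [(Finset.mem_filter.1 hp).2]

end PWV
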