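import Pool.Agent.PWV.St0

/-!
# PWV: module SUP, no plane waves and no energy (helper98)
-/

set_option autoImplicit false

open Complex MeasureTheory Filter Topology Set
open UpperHalfPlane hiding I
open scoped ContDiff MatrixGroups ProbabilityTheory ENNReal

namespace PWV

open NFP QE

namespace SUP

lemma en_nonneg (h2 : StmtNik) (f : ℂ → ℝ) (N : ℕ) : 0 ≤ en f N := by
  have h := h2 f N 0
  have h0 : 0 ≤ ‖coef f N 0‖ ^ 4 := by positivity
  linarith

section
variable {Ω : Type} [MeasurableSpace Ω] {P : Measure Ω} {F : ℂ → Ω → ℝ}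

lemma en_int (h1 : StmtPar)
    (h4 : ∀ x₁ x₂ x₃ x₄ : ℂ, Integrable (fun o => F x₁ o * F x₂ o * F x₃ o * F x₄ o) P) (N : ℕ) :
    Integrable (fun o => en (fun x => F x o) N) P := by
  have e : (fun o => en (fun x => F x o) N) = fun o => 9 / 4 * (1 / (N : ℝ) ^ 6 *
      ∑ q ∈ quads N, F (pt q.1) o * F (pt q.2.1) o * F (pt q.2.2.1) o * F (pt q.2.2.2) o) := by
    funext o
    rw [h1]
    rfl
  rw [e]
  exact ((integrable_finsetSum _ fun q _ => h4 _ _ _ _).const_mul _).const_mul _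

lemma loc_int
    (h4 : ∀ x₁ x₂ x₃ x₄ : ℂ, Integrable (fun o => F x₁ o * F x₂ o * F x₃ o * F x₄ o) P) (N : ℕ) :
    Integrable (fun o => loc (fun x => F x o) N ^ 2) P := by
  have e : (fun o => loc (fun x => F x o) N ^ 2) = fun o => (1 / (N : ℝ) ^ 2) ^ 2 *
      ∑ p ∈ box N, ∑ q ∈ box N, F (pt p) o * F (pt p) o * F (pt q) o * F (pt q) o := by
    funext o
    unfold loc
    rw [mul_pow, sq (∑ q ∈ box N, F (pt q) o ^ 2), Finset.sum_mul_sum]
    congr 1
    refine Finset.sum_congr rfl fun p _ => Finset.sum_congr rfl fun q _ => ?_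
    ring
  rw [e]
  exact (integrable_finsetSum _ fun p _ => integrable_finsetSum _ fun q _ =>
    h4 _ _ _ _).const_mul _

end

/-- the bound at a point -/
lemma pw (h2 : StmtNik) (h3 : StmtLow) (f : ℂ → ℝ) (N : ℕ) {δ : ℝ} (hδ : 0 < δ) :
    ENNReal.ofReal (en f N) ≤
      ENNReal.ofReal (9 / 8 * δ⁻¹) * (⨆ v : ℂ, ENNReal.ofReal (‖coef f N v‖ ^ 4)) +
        ENNReal.ofReal (9 / 8 * δ * loc f N ^ 2) := by
  set S : ℝ≥0∞ := ⨆ v : ℂ, ENNReal.ofReal (‖coef f N v‖ ^ 4) with hS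
  have hle : S ≤ ENNReal.ofReal (16 / 9 * en f N) :=
    iSup_le fun v => ENNReal.ofReal_le_ofReal (h2 f N v)
  have hSt : S ≠ ⊤ := ne_top_of_le_ne_top ENNReal.ofReal_ne_top hle
  have hs0 : 0 ≤ S.toReal := ENNReal.toReal_nonneg
  have hv : ∀ v, ‖coef f N v‖ ^ 4 ≤ S.toReal := fun v =>
    (ENNReal.ofReal_le_iff_le_toReal hSt).1 (le_iSup (fun v : ℂ => ENNReal.ofReal (‖coef f N v‖ ^ 4)) v)
  have hv2 : ∀ v, ‖coef f N v‖ ^ 2 ≤ Real.sqrt S.toReal := fun v => by
    refine Real.le_sqrt_of_sq_le ?_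
    rw [← pow_mul]
    exact hv v
  have hlow := h3 f N (Real.sqrt S.toReal) hv2
  have hsq : Real.sqrt S.toReal ^ 2 = S.toReal := Real.sq_sqrt hs0
  have hc : 0 < δ⁻¹ := inv_pos.2 hδ
  have hcδ : δ⁻¹ * δ = 1 := inv_mul_cancel₀ hδ.ne'
  have hag : 2 * (Real.sqrt S.toReal * loc f N) ≤ δ⁻¹ * S.toReal + δ * loc f N ^ 2 := by
    have h := mul_nonneg hc.le (sq_nonneg (Real.sqrt S.toReal - δ * loc f N))
    have e : δ⁻¹ * (Real.sqrt S.toReal - δ * loc f N) ^ 2 =
        δ⁻¹ * Real.sqrt S.toReal ^ 2 - 2 * (δ⁻¹ * δ) * (Real.sqrt S.toReal * loc f N) +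
          (δ⁻¹ * δ) * δ * loc f N ^ 2 := by ring
    rw [e, hcδ, hsq] at h
    linarith
  have hen : en f N ≤ 9 / 8 * δ⁻¹ * S.toReal + 9 / 8 * δ * loc f N ^ 2 := by linarith
  calc ENNReal.ofReal (en f N)
      ≤ ENNReal.ofReal (9 / 8 * δ⁻¹ * S.toReal + 9 / 8 * δ * loc f N ^ 2) :=
        ENNReal.ofReal_le_ofReal hen
    _ = ENNReal.ofReal (9 / 8 * δ⁻¹ * S.toReal) + ENNReal.ofReal (9 / 8 * δ * loc f N ^ 2) :=
        ENNReal.ofReal_add (by positivity) (by positivity)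
    _ = ENNReal.ofReal (9 / 8 * δ⁻¹) * S + ENNReal.ofReal (9 / 8 * δ * loc f N ^ 2) := by
        rw [ENNReal.ofReal_mul (by positivity), ENNReal.ofReal_toReal hSt]

end SUP

open SUP in
theorem t_SUP (h1 : StmtPar) (h2 : StmtNik) (h3 : StmtLow) : StmtSup := by
  intro Ω _ P _ F hF h4 hB
  obtain ⟨B, hB⟩ := hB
  have hen : ∀ N, Integrable (fun o => en (fun x => F x o) N) P := en_int h1 h4
  have hloc : ∀ N, Integrable (fun o => loc (fun x => F x o) N ^ 2) P := loc_int h4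
  have hen0 : ∀ N, 0 ≤ ∫ o, en (fun x => F x o) N ∂P := fun N =>
    integral_nonneg fun o => en_nonneg h2 _ _
  have hof : ∀ N, ENNReal.ofReal (∫ o, en (fun x => F x o) N ∂P) =
      ∫⁻ o, ENNReal.ofReal (en (fun x => F x o) N) ∂P := fun N =>
    ofReal_integral_eq_lintegral_ofReal (hen N) (Eventually.of_forall fun o => en_nonneg h2 _ _)
  constructor
  · intro hlim
    have hup : Tendsto (fun N => ENNReal.ofReal (16 / 9 * ∫ o, en (fun x => F x o) N ∂P)) atTop
        (𝓝 0) := by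
      have h := ENNReal.tendsto_ofReal (hlim.const_mul (16 / 9))
      rwa [mul_zero, ENNReal.ofReal_zero] at h
    refine tendsto_of_tendsto_of_tendsto_of_le_of_le tendsto_const_nhds hup (fun N => zero_le) ?_
    intro N
    show ∫⁻ o, ⨆ v : ℂ, ENNReal.ofReal (‖coef (fun x => F x o) N v‖ ^ 4) ∂P ≤
      ENNReal.ofReal (16 / 9 * ∫ o, en (fun x => F x o) N ∂P)
    rw [← integral_const_mul, ofReal_integral_eq_lintegral_ofReal ((hen N).const_mul _)
      (Eventually.of_forall fun o => mul_nonneg (by norm_num) (en_nonneg h2 _ _))]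
    exact lintegral_mono fun o => iSup_le fun v => ENNReal.ofReal_le_ofReal (h2 _ N v)
  · intro hlim
    have key : ∀ δ : ℝ, 0 < δ → ∀ N, ENNReal.ofReal (∫ o, en (fun x => F x o) N ∂P) ≤
        ENNReal.ofReal (9 / 8 * δ⁻¹) *
          (∫⁻ o, ⨆ v : ℂ, ENNReal.ofReal (‖coef (fun x => F x o) N v‖ ^ 4) ∂P) +
        ENNReal.ofReal (9 / 8 * δ * max B 1) := by
      intro δ hδ N
      have hg : AEMeasurable (fun o => ENNReal.ofReal (9 / 8 * δ * loc (fun x => F x o) N ^ 2)) P :=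
        ((hloc N).const_mul _).aestronglyMeasurable.aemeasurable.ennreal_ofReal
      rw [hof N]
      calc ∫⁻ o, ENNReal.ofReal (en (fun x => F x o) N) ∂P
          ≤ ∫⁻ o, (ENNReal.ofReal (9 / 8 * δ⁻¹) *
              (⨆ v : ℂ, ENNReal.ofReal (‖coef (fun x => F x o) N v‖ ^ 4)) +
              ENNReal.ofReal (9 / 8 * δ * loc (fun x => F x o) N ^ 2)) ∂P :=
            lintegral_mono fun o => pw h2 h3 _ N hδ
        _ = ENNReal.ofReal (9 / 8 * δ⁻¹) *
              (∫⁻ o, ⨆ v : ℂ, ENNReal.ofReal (‖coef (fun x => F x o) N v‖ ^ 4) ∂P) +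
              ∫⁻ o, ENNReal.ofReal (9 / 8 * δ * loc (fun x => F x o) N ^ 2) ∂P := by
            rw [lintegral_add_right' _ hg, lintegral_const_mul' _ _ ENNReal.ofReal_ne_top]
        _ ≤ _ := by
            refine add_le_add le_rfl ?_
            rw [← ofReal_integral_eq_lintegral_ofReal ((hloc N).const_mul _)
              (Eventually.of_forall fun o => by positivity), integral_const_mul]
            refine ENNReal.ofReal_le_ofReal (mul_le_mul_of_nonneg_left ?_ (by positivity))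
            exact (hB N).trans (le_max_left _ _)
    have h0 : Tendsto (fun N => ENNReal.ofReal (∫ o, en (fun x => F x o) N ∂P)) atTop (𝓝 0) := by
      rw [ENNReal.tendsto_nhds_zero]
      intro ε hε
      have hm1 : 0 < min ε 1 := lt_min hε one_pos
      have hm2 : min ε 1 ≠ ⊤ := ne_top_of_le_ne_top ENNReal.one_ne_top (min_le_right _ _)
      have he : 0 < (min ε 1).toReal := ENNReal.toReal_pos hm1.ne' hm2
      have hB1 : (0 : ℝ) < max B 1 := lt_of_lt_of_le one_pos (le_max_right _ _)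
      set δ : ℝ := (min ε 1).toReal / 2 / (9 / 8 * max B 1) with hδ
      have hδ0 : 0 < δ := by positivity
      have hδ1 : 9 / 8 * δ * max B 1 = (min ε 1).toReal / 2 := by
        rw [hδ]
        field_simp
      have h5 : Tendsto (fun N => ENNReal.ofReal (9 / 8 * δ⁻¹) *
          (∫⁻ o, ⨆ v : ℂ, ENNReal.ofReal (‖coef (fun x => F x o) N v‖ ^ 4) ∂P)) atTop (𝓝 0) := by
        have h6 := ENNReal.Tendsto.const_mul hlim (Or.inr (ENNReal.ofReal_ne_top (r := 9 / 8 * δ⁻¹)))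
        rwa [mul_zero] at h6
      have hhalf : 0 < min ε 1 / 2 := ENNReal.div_pos hm1.ne' (by norm_num)
      filter_upwards [ENNReal.tendsto_nhds_zero.1 h5 _ hhalf] with N hN
      refine (key δ hδ0 N).trans ?_
      have h7 : ENNReal.ofReal (9 / 8 * δ * max B 1) = min ε 1 / 2 := by
        rw [hδ1, ENNReal.ofReal_div_of_pos (by norm_num), ENNReal.ofReal_toReal hm2,
          ENNReal.ofReal_ofNat]
      rw [h7]
      calc _ ≤ min ε 1 / 2 + min ε 1 / 2 := add_le_add hN le_rfl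
        _ = min ε 1 := ENNReal.add_halves _
        _ ≤ ε := min_le_left _ _
    have h8 := (ENNReal.tendsto_toReal ENNReal.zero_ne_top).comp h0
    rw [ENNReal.toReal_zero] at h8
    refine h8.congr fun N => ?_
    exact ENNReal.toReal_ofReal (hen0 N)

end PWV
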