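import Pool.Agent.PWV.St0

/-!
# Plane waves in Benjamini-Schramm limits: the law of large numbers for the autocorrelation
-/

open Complex MeasureTheory Filter Topology Set
open scoped ContDiff MatrixGroups ProbabilityTheory ENNReal

namespace PWV

noncomputable section

/-- the autocorrelation, the mean of `f(x) f(x + a)` over the box of side `N` -/
def cor (f : ℂ → ℝ) (N : ℕ) (a : ℂ) : ℝ :=
  1 / (N : ℝ) ^ 2 * ∑ q ∈ box N, f (pt q) * f (pt q + a)

/-- COR: the law of large numbers for the autocorrelation.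
Proof. For `N > 0` the integral is `bl N (fun x y => K(x - y)² + K(x - y - a) K(x - y + a))` (expand the
square; `E F(x) F(x + a) = K(a)`; compare `BSL/CNV.lean`, but do not import it). Let `δ > 0`;
`|K(u)| ≤ δ` for `‖u‖ ≥ R` (`Berry.waveK_vanishes`), so the summand is at most `2 δ` (for `δ ≤ 1`) for
`‖x - y‖ ≥ R + ‖a‖`, and always at most `2`; for each `x` there are at most `(2 (R + ‖a‖) + 1)²` points `y`
of the box with `‖x - y‖ < R + ‖a‖`, so the mean is at most `2 δ + 2 (2 (R + ‖a‖) + 1)² / N²`. -/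
def StmtCor : Prop :=
  ∀ (Ω : Type) [MeasurableSpace Ω] (P : Measure Ω) [IsProbabilityMeasure P] (F : ℂ → Ω → ℝ),
    (∀ x, Measurable (F x)) →
    (∀ x y : ℂ, Integrable (fun o => F x o * F y o) P ∧
      ∫ o, F x o * F y o ∂P = Berry.waveK (x - y)) →
    (∀ x₁ x₂ x₃ x₄ : ℂ, Integrable (fun o => F x₁ o * F x₂ o * F x₃ o * F x₄ o) P ∧
      ∫ o, F x₁ o * F x₂ o * F x₃ o * F x₄ o ∂P
        = Berry.waveK (x₁ - x₂) * Berry.waveK (x₃ - x₄)
          + Berry.waveK (x₁ - x₃) * Berry.waveK (x₂ - x₄)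
          + Berry.waveK (x₁ - x₄) * Berry.waveK (x₂ - x₃)) → ∀ a : ℂ,
    Tendsto (fun N => ∫ o, (cor (fun x => F x o) N a - Berry.waveK a) ^ 2 ∂P) atTop (𝓝 0)

end

end PWV
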