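import Pool.Agent.PWV.St0

/-!
# PWV, module WKL: the four-point function of a Gaussian wave for pairs of squares
-/

set_option autoImplicit false

open Complex MeasureTheory Filter Topology Set
open UpperHalfPlane hiding I
open scoped ContDiff MatrixGroups ProbabilityTheory ENNReal

namespace PWV

open NFP QE ONE

noncomputable section

namespace WKL

lemma card_box (N : ℕ) : (box N).card = N ^ 2 := by
  unfold box
  rw [Finset.card_product, Finset.card_range, sq]

lemma bl_const {N : ℕ} (hN : 0 < N) (c : ℝ) : bl N (fun _ _ => c) = c := by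
  unfold bl
  simp only [Finset.sum_const, nsmul_eq_mul, card_box]
  have h : (N : ℝ) ≠ 0 := by exact_mod_cast hN.ne'
  push_cast
  field_simp

lemma bl_congr {N : ℕ} {G H : ℂ → ℂ → ℝ} (h : ∀ x y, G x y = H x y) : bl N G = bl N H := by
  unfold bl
  simp only [h]

lemma bl_add (N : ℕ) (G H : ℂ → ℂ → ℝ) :
    bl N (fun x y => G x y + H x y) = bl N G + bl N H := by
  unfold bl
  simp only [Finset.sum_add_distrib]
  ring

lemma bl_mul (N : ℕ) (c : ℝ) (G : ℂ → ℂ → ℝ) :
    bl N (fun x y => c * G x y) = c * bl N G := by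
  unfold bl
  simp only [← Finset.mul_sum]
  ring

lemma bl_abs {N : ℕ} {G : ℂ → ℂ → ℝ} {C : ℝ} (hC : 0 ≤ C) (h : ∀ x y, |G x y| ≤ C) :
    |bl N G| ≤ C := by
  rcases Nat.eq_zero_or_pos N with hN | hN
  · subst hN
    unfold bl
    simpa using hC
  · unfold bl
    have hN' : (0 : ℝ) < N := by exact_mod_cast hN
    rw [abs_mul, abs_of_nonneg (by positivity)]
    have h1 : |∑ p ∈ box N, ∑ q ∈ box N, G (pt p) (pt q)| ≤ (N : ℝ) ^ 4 * C := by
      calc |∑ p ∈ box N, ∑ q ∈ box N, G (pt p) (pt q)|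
          ≤ ∑ p ∈ box N, |∑ q ∈ box N, G (pt p) (pt q)| := Finset.abs_sum_le_sum_abs _ _
        _ ≤ ∑ p ∈ box N, ∑ q ∈ box N, |G (pt p) (pt q)| :=
            Finset.sum_le_sum fun p _ => Finset.abs_sum_le_sum_abs _ _
        _ ≤ ∑ p ∈ box N, ∑ q ∈ box N, C :=
            Finset.sum_le_sum fun p _ => Finset.sum_le_sum fun q _ => h _ _
        _ = (N : ℝ) ^ 4 * C := by
            simp only [Finset.sum_const, nsmul_eq_mul, card_box]
            push_cast
            ring
    calc 1 / (N : ℝ) ^ 4 * |∑ p ∈ box N, ∑ q ∈ box N, G (pt p) (pt q)|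
        ≤ 1 / (N : ℝ) ^ 4 * ((N : ℝ) ^ 4 * C) := by gcongr
      _ = C := by field_simp

lemma bl_int {α : Type} [MeasurableSpace α] (μ : Measure α) (N : ℕ) (G : ℂ → ℂ → α → ℝ)
    (h : ∀ x y, Integrable (G x y) μ) :
    bl N (fun x y => ∫ p, G x y p ∂μ) = ∫ p, bl N (fun x y => G x y p) ∂μ := by
  unfold bl
  rw [integral_const_mul]
  congr 1
  rw [integral_finset_sum _ fun p _ => integrable_finset_sum _ fun q _ => h _ _]
  refine Finset.sum_congr rfl fun p _ => ?_
  rw [integral_finset_sum _ fun q _ => h _ _]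

lemma bl_cont {N : ℕ} {G : ℂ → ℂ → ℝ → ℝ} (h : ∀ x y, Continuous (G x y)) :
    Continuous fun t => bl N (fun x y => G x y t) := by
  unfold bl
  exact continuous_const.mul (continuous_finset_sum _ fun p _ => continuous_finset_sum _ fun q _ =>
    h _ _)

lemma lim_c (h : StmtChr) (c : ℂ) (hc : ‖c‖ < 2 * Real.pi) :
    Tendsto (fun N : ℕ => bl N fun x y => Real.cos (ip (x - y) c)) atTop
      (𝓝 (if c = 0 then 1 else 0)) := by
  by_cases h0 : c = 0
  · rw [if_pos h0]
    refine tendsto_const_nhds.congr' ?_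
    filter_upwards [eventually_gt_atTop 0] with N hN
    have h1 : bl N (fun x y => Real.cos (ip (x - y) c)) = bl N (fun _ _ => 1) := by
      apply bl_congr
      intro x y
      rw [h0]
      simp [ip]
    rw [h1, bl_const hN]
  · rw [if_neg h0]
    exact h.2.2 c h0 hc

/-- the frame -/
def fr (θ : ℝ) (w : S1) : ℂ := Complex.exp (-(θ * I)) * (w : ℂ)

lemma norm_fr (θ : ℝ) (w : S1) : ‖fr θ w‖ = 1 := by
  unfold fr
  have h1 : ‖(w : ℂ)‖ = 1 := by simpa using w.2
  rw [norm_mul, h1, mul_one]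
  have h2 : -((θ : ℂ) * I) = ((-θ : ℝ) : ℂ) * I := by push_cast; ring
  rw [h2, Complex.norm_exp_ofReal_mul_I]

lemma fr_inj {θ : ℝ} {w w' : S1} : fr θ w - fr θ w' = 0 ↔ w = w' := by
  unfold fr
  rw [← mul_sub, mul_eq_zero, sub_eq_zero]
  constructor
  · rintro (h | h)
    · exact absurd h (Complex.exp_ne_zero _)
    · exact Subtype.ext h
  · intro h
    rw [h]
    exact Or.inr rfl

lemma fr_neg {θ : ℝ} {w w' : S1} : fr θ w + fr θ w' = 0 ↔ w = -w' := by
  unfold fr
  rw [← mul_add, mul_eq_zero, add_eq_zero_iff_eq_neg]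
  constructor
  · rintro (h | h)
    · exact absurd h (Complex.exp_ne_zero _)
    · exact Subtype.ext h
  · intro h
    rw [h]
    exact Or.inr rfl

lemma re_fr (θ : ℝ) (z : ℂ) (w : S1) :
    (Complex.exp (θ * I) * z * (starRingEnd ℂ) (w : ℂ)).re = ip z (fr θ w) := by
  unfold ip fr
  rw [map_mul, ← Complex.exp_conj]
  have h1 : (starRingEnd ℂ) (-(θ * I)) = θ * I := by
    rw [map_neg, map_mul, Complex.conj_ofReal, Complex.conj_I]
    ring
  rw [h1]
  congr 1
  ring

lemma ip_add (z a b : ℂ) : ip z (a + b) = ip z a + ip z b := by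
  unfold ip
  rw [map_add, mul_add, Complex.add_re]

lemma ip_sub (z a b : ℂ) : ip z (a - b) = ip z a - ip z b := by
  unfold ip
  rw [map_sub, mul_sub, Complex.sub_re]

/-- the product of the two cosines -/
def cc (θ : ℝ) (z : ℂ) (p : S1 × S1) : ℝ :=
  Real.cos (Complex.exp (θ * I) * z * (starRingEnd ℂ) (p.1 : ℂ)).re *
    Real.cos (Complex.exp (θ * I) * z * (starRingEnd ℂ) (p.2 : ℂ)).re

lemma cc_eq (θ : ℝ) (z : ℂ) (p : S1 × S1) : cc θ z p =
    1 / 2 * Real.cos (ip z (fr θ p.1 - fr θ p.2)) + 1 / 2 * Real.cos (ip z (fr θ p.1 + fr θ p.2)) := by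
  unfold cc
  rw [re_fr, re_fr, ip_sub, ip_add, Real.cos_sub, Real.cos_add]
  ring

lemma abs_cc (θ : ℝ) (z : ℂ) (p : S1 × S1) : |cc θ z p| ≤ 1 := by
  unfold cc
  rw [abs_mul]
  exact mul_le_one₀ (Real.abs_cos_le_one _) (abs_nonneg _) (Real.abs_cos_le_one _)

lemma cont_cc (θ : ℝ) (z : ℂ) : Continuous (cc θ z) := by
  unfold cc
  fun_prop

variable (s : Measure S1) [IsFiniteMeasure s]

lemma int_cc (θ : ℝ) (z : ℂ) : Integrable (cc θ z) (s.prod s) :=
  Integrable.of_bound (C := 1) (cont_cc θ z).aestronglyMeasurable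
    (Eventually.of_forall fun p => abs_cc θ z p)

lemma gk_sq (θ : ℝ) (z : ℂ) : gk s z θ ^ 2 = ∫ p, cc θ z p ∂(s.prod s) := by
  unfold cc
  rw [integral_prod_mul (μ := s) (ν := s)
    (fun w : S1 => Real.cos (Complex.exp (θ * I) * z * (starRingEnd ℂ) (w : ℂ)).re)
    (fun w : S1 => Real.cos (Complex.exp (θ * I) * z * (starRingEnd ℂ) (w : ℂ)).re), sq]
  rfl

lemma ms1 : MeasurableSet {p : S1 × S1 | p.1 = p.2} :=
  (isClosed_eq continuous_fst continuous_snd).measurableSet

lemma ms2 : MeasurableSet {p : S1 × S1 | p.1 = -p.2} :=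
  (isClosed_eq continuous_fst continuous_snd.neg).measurableSet

/-- the limit for one frame -/
lemma lim_frame (h : StmtChr) (hs : ((s.prod s) {p : S1 × S1 | p.1 = -p.2}).toReal = dg s)
    (θ : ℝ) : Tendsto (fun N => bl N (fun x y => gk s (x - y) θ ^ 2)) atTop (𝓝 (dg s)) := by
  have h1 : ∀ N, bl N (fun x y => gk s (x - y) θ ^ 2) =
      ∫ p, bl N (fun x y => cc θ (x - y) p) ∂(s.prod s) := by
    intro N
    rw [← bl_int (s.prod s) N (fun x y => cc θ (x - y)) fun x y => int_cc s θ _]
    exact bl_congr fun x y => gk_sq s θ _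
  simp only [h1]
  let L : S1 × S1 → ℝ := fun p => 1 / 2 * Set.indicator {p : S1 × S1 | p.1 = p.2} (fun _ => (1 : ℝ)) p
    + 1 / 2 * Set.indicator {p : S1 × S1 | p.1 = -p.2} (fun _ => (1 : ℝ)) p
  have hL : ∫ p, L p ∂(s.prod s) = dg s := by
    have i1 : Integrable (Set.indicator {p : S1 × S1 | p.1 = p.2} (fun _ => (1 : ℝ))) (s.prod s) :=
      (integrable_const _).indicator ms1
    have i2 : Integrable (Set.indicator {p : S1 × S1 | p.1 = -p.2} (fun _ => (1 : ℝ))) (s.prod s) :=
      (integrable_const _).indicator ms2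
    rw [integral_add (i1.const_mul _) (i2.const_mul _), integral_const_mul, integral_const_mul,
      integral_indicator_const _ ms1, integral_indicator_const _ ms2]
    have e1 : (s.prod s).real {p : S1 × S1 | p.1 = p.2} = dg s := rfl
    have e2 : (s.prod s).real {p : S1 × S1 | p.1 = -p.2} = dg s := hs
    rw [e1, e2, smul_eq_mul]
    ring
  rw [← hL]
  refine tendsto_integral_of_dominated_convergence (fun _ => 1) (fun N => ?_) (integrable_const _)
    (fun N => ?_) ?_
  · apply Continuous.aestronglyMeasurable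
    unfold bl
    exact continuous_const.mul (continuous_finset_sum _ fun p _ => continuous_finset_sum _
      fun q _ => cont_cc θ _)
  · exact Eventually.of_forall fun p => bl_abs zero_le_one fun x y => abs_cc θ _ p
  · refine Eventually.of_forall fun p => ?_
    have e1 : ∀ N, bl N (fun x y => cc θ (x - y) p) =
        1 / 2 * bl N (fun x y => Real.cos (ip (x - y) (fr θ p.1 - fr θ p.2))) +
        1 / 2 * bl N (fun x y => Real.cos (ip (x - y) (fr θ p.1 + fr θ p.2))) := by
      intro N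
      rw [← bl_mul, ← bl_mul, ← bl_add]
      exact bl_congr fun x y => cc_eq θ _ p
    simp only [e1]
    have hpi := Real.pi_gt_three
    have n1 : ‖fr θ p.1 - fr θ p.2‖ < 2 * Real.pi := by
      refine (norm_sub_le _ _).trans_lt ?_
      rw [norm_fr, norm_fr]
      linarith
    have n2 : ‖fr θ p.1 + fr θ p.2‖ < 2 * Real.pi := by
      refine (norm_add_le _ _).trans_lt ?_
      rw [norm_fr, norm_fr]
      linarith
    have t1 := (lim_c h _ n1).const_mul (1 / 2)
    have t2 := (lim_c h _ n2).const_mul (1 / 2)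
    have t3 := t1.add t2
    have e2 : L p = 1 / 2 * (if fr θ p.1 - fr θ p.2 = 0 then (1 : ℝ) else 0) +
        1 / 2 * (if fr θ p.1 + fr θ p.2 = 0 then (1 : ℝ) else 0) := by
      simp only [L, Set.indicator_apply, Set.mem_setOf_eq, fr_inj, fr_neg]
    rw [e2]
    exact t3

lemma dirWick_pair (x y : ℂ) : dirWick s ![x, x, y, y] = 1 / (2 * Real.pi) *
    ∫ θ in (0 : ℝ)..(2 * Real.pi), ((s univ).toReal ^ 2 + 2 * gk s (x - y) θ ^ 2) := by
  unfold dirWick
  congr 1
  refine intervalIntegral.integral_congr fun θ _ => ?_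
  simp only [Matrix.cons_val_zero, Matrix.cons_val_one, Matrix.cons_val]
  rw [sub_self, sub_self, mul_zero, dirK_zero]
  unfold gk
  ring

lemma bl_ii (N : ℕ) (G : ℂ → ℂ → ℝ → ℝ) (h : ∀ x y, Continuous (G x y)) :
    bl N (fun x y => ∫ t in (0 : ℝ)..(2 * Real.pi), G x y t) =
      ∫ t in (0 : ℝ)..(2 * Real.pi), bl N (fun x y => G x y t) := by
  have hpi : (0 : ℝ) ≤ 2 * Real.pi := by have := Real.pi_pos; positivity
  simp only [intervalIntegral.integral_of_le hpi]
  exact bl_int _ N G fun x y => (h x y).integrableOn_Ioc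

end WKL

open WKL in
/-- the two-point form -/
theorem t_WKL (h : StmtChr) : StmtWkl := by
  intro s hfin hs
  have hpi0 : (0 : ℝ) < 2 * Real.pi := by have := Real.pi_pos; positivity
  have h1 : ∀ N, bl N (fun x y => dirWick s ![x, x, y, y]) = 1 / (2 * Real.pi) *
      ∫ θ in (0 : ℝ)..(2 * Real.pi),
        bl N (fun x y => (s univ).toReal ^ 2 + 2 * gk s (x - y) θ ^ 2) := by
    intro N
    rw [← bl_ii N (fun x y θ => (s univ).toReal ^ 2 + 2 * gk s (x - y) θ ^ 2) fun x y =>
      continuous_const.add (continuous_const.mul ((cont_gk s _).pow 2)), ← bl_mul]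
    exact bl_congr fun x y => dirWick_pair s x y
  simp only [h1]
  have h2 : (s univ).toReal ^ 2 + 2 * dg s = 1 / (2 * Real.pi) *
      ∫ _θ in (0 : ℝ)..(2 * Real.pi), ((s univ).toReal ^ 2 + 2 * dg s) := by
    rw [intervalIntegral.integral_const, sub_zero, smul_eq_mul]
    field_simp
  rw [h2]
  apply Tendsto.const_mul
  have hgk : ∀ (z : ℂ) (θ : ℝ), gk s z θ ^ 2 ≤ (s univ).toReal ^ 2 := fun z θ =>
    sq_le_sq' (by have := abs_le.1 (abs_dirK s (Complex.exp (θ * I) * z)); exact this.1)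
      (abs_le.1 (abs_dirK s (Complex.exp (θ * I) * z))).2
  refine intervalIntegral.tendsto_integral_filter_of_dominated_convergence
    (fun _ => 3 * (s univ).toReal ^ 2) ?_ ?_ ?_ ?_
  · refine Eventually.of_forall fun N => ?_
    exact (bl_cont fun x y => continuous_const.add (continuous_const.mul
      ((cont_gk s _).pow 2))).aestronglyMeasurable
  · refine Eventually.of_forall fun N => Eventually.of_forall fun θ _ => ?_
    rw [Real.norm_eq_abs]
    refine bl_abs (by positivity) fun x y => ?_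
    rw [abs_of_nonneg (by positivity)]
    linarith [hgk (x - y) θ]
  · exact intervalIntegrable_const
  · refine Eventually.of_forall fun θ _ => ?_
    have e1 : ∀ᶠ N in atTop, (s univ).toReal ^ 2 + 2 * bl N (fun x y => gk s (x - y) θ ^ 2) =
        bl N (fun x y => (s univ).toReal ^ 2 + 2 * gk s (x - y) θ ^ 2) := by
      filter_upwards [eventually_gt_atTop 0] with N hN
      rw [bl_add N (fun _ _ => (s univ).toReal ^ 2) (fun x y => 2 * gk s (x - y) θ ^ 2), bl_mul,
        bl_const hN]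
    exact (((lim_frame s h hs θ).const_mul 2).const_add ((s univ).toReal ^ 2)).congr' e1

/-- the trivial bound -/
theorem t_WKB : StmtWkb := by
  intro s hfin x
  have hpi0 : (0 : ℝ) < 2 * Real.pi := by have := Real.pi_pos; positivity
  unfold dirWick
  rw [abs_mul, abs_of_pos (by positivity)]
  have hb : ∀ a b : ℂ, |dirK s a * dirK s b| ≤ (s univ).toReal ^ 2 := by
    intro a b
    rw [abs_mul, sq]
    exact mul_le_mul (abs_dirK s a) (abs_dirK s b) (abs_nonneg _) ENNReal.toReal_nonneg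
  have h1 := intervalIntegral.norm_integral_le_of_norm_le_const (a := 0) (b := 2 * Real.pi)
    (C := 3 * (s univ).toReal ^ 2) (f := fun θ : ℝ =>
      dirK s (Complex.exp (θ * Complex.I) * (x 0 - x 1))
        * dirK s (Complex.exp (θ * Complex.I) * (x 2 - x 3))
      + dirK s (Complex.exp (θ * Complex.I) * (x 0 - x 2))
        * dirK s (Complex.exp (θ * Complex.I) * (x 1 - x 3))
      + dirK s (Complex.exp (θ * Complex.I) * (x 0 - x 3))
        * dirK s (Complex.exp (θ * Complex.I) * (x 1 - x 2))) (by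
      intro θ _
      rw [Real.norm_eq_abs]
      refine (abs_add_three _ _ _).trans ?_
      linarith [hb (Complex.exp (θ * Complex.I) * (x 0 - x 1))
        (Complex.exp (θ * Complex.I) * (x 2 - x 3)), hb (Complex.exp (θ * Complex.I) * (x 0 - x 2))
        (Complex.exp (θ * Complex.I) * (x 1 - x 3)), hb (Complex.exp (θ * Complex.I) * (x 0 - x 3))
        (Complex.exp (θ * Complex.I) * (x 1 - x 2))])
  rw [sub_zero, abs_of_pos hpi0, Real.norm_eq_abs] at h1
  calc _ ≤ 1 / (2 * Real.pi) * (3 * (s univ).toReal ^ 2 * (2 * Real.pi)) := by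
        gcongr
    _ = 3 * (s univ).toReal ^ 2 := by field_simp

end

end PWV
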