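import Pool.Agent.ONE.Circ

/-!
# Plane waves in Benjamini-Schramm limits: definitions and statements, part 1

`f` is a real function on the plane, `N` the side of the box `{0, …, N - 1}²`. For a limit field `F` the
functions are `x ↦ F x o`. Each step is a `Prop`; a module proves one of them, possibly from others
taken as hypotheses. The proofs are given in the doc strings.
-/

open Complex MeasureTheory Filter Topology Set
open UpperHalfPlane hiding I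
open scoped ContDiff MatrixGroups ProbabilityTheory ENNReal

namespace PWV

open NFP QE

noncomputable section

/-! ### Definitions -/

/-- the square box -/
def box (N : ℕ) : Finset (ℕ × ℕ) := Finset.range N ×ˢ Finset.range N

/-- the point `a + i b` of the plane -/
def pt (q : ℕ × ℕ) : ℂ := (q.1 : ℂ) + (q.2 : ℂ) * Complex.I

/-- the scalar product of `v` and `x` -/
def ip (v x : ℂ) : ℝ := (v * (starRingEnd ℂ) x).re

/-- the wave `e^{-i v · x}` at the point `x = a + i b` -/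
def ew (v : ℂ) (q : ℕ × ℕ) : ℂ := Complex.exp (-(Complex.I * (ip v (pt q) : ℂ)))

/-- the coefficient `A_N(v) = N⁻² ∑ f(x) e^{-i v · x}` of the plane wave `e^{i v · x}` in `f`, over the box
of side `N` -/
def coef (f : ℂ → ℝ) (N : ℕ) (v : ℂ) : ℂ := 1 / (N : ℂ) ^ 2 * ∑ q ∈ box N, (f (pt q) : ℂ) * ew v q

/-- the energy `(9 N² / 16 π²) ∫ |A_N(v)|⁴ dv` of the plane waves in `f`, over the box of side `N` (the
integral is over the square `[-π, π]²`; a plane wave of amplitude `a` contributes `|a|⁴` in the limit) -/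
def en (f : ℂ → ℝ) (N : ℕ) : ℝ :=
  9 * (N : ℝ) ^ 2 / (16 * Real.pi ^ 2) * ∫ a in (-Real.pi)..Real.pi, ∫ b in (-Real.pi)..Real.pi,
    ‖coef f N ((a : ℂ) + (b : ℂ) * Complex.I)‖ ^ 4

/-- the local mass, the mean of `f²` over the box of side `N` -/
def loc (f : ℂ → ℝ) (N : ℕ) : ℝ := 1 / (N : ℝ) ^ 2 * ∑ q ∈ box N, f (pt q) ^ 2

/-- the additive quadruples `x₀ + x₃ = x₁ + x₂` of the box -/
def quads (N : ℕ) : Finset ((ℕ × ℕ) × (ℕ × ℕ) × (ℕ × ℕ) × (ℕ × ℕ)) :=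
  (box N ×ˢ box N ×ˢ box N ×ˢ box N).filter fun q => q.1 + q.2.2.2 = q.2.1 + q.2.2.1

/-- the sum over the additive quadruples, divided by `N⁶` -/
def qs (N : ℕ) (G : (Fin 4 → ℂ) → ℝ) : ℝ :=
  1 / (N : ℝ) ^ 6 * ∑ q ∈ quads N, G ![pt q.1, pt q.2.1, pt q.2.2.1, pt q.2.2.2]

/-- the mean over the pairs of points of the box -/
def bl (N : ℕ) (G : ℂ → ℂ → ℝ) : ℝ :=
  1 / (N : ℝ) ^ 4 * ∑ p ∈ box N, ∑ q ∈ box N, G (pt p) (pt q)

/-- the coefficients of the square of the trigonometric polynomial `A_N` -/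
def cv (f : ℂ → ℝ) (N : ℕ) (k : ℕ × ℕ) : ℝ :=
  1 / (N : ℝ) ^ 4 * ∑ p ∈ (box N ×ˢ box N).filter fun p => p.1 + p.2 = k, f (pt p.1) * f (pt p.2)

/-- the sum of the squares of the masses of the atoms (`BSL.dia`) -/
def dg (s : Measure S1) : ℝ := ((s.prod s) {p : S1 × S1 | p.1 = p.2}).toReal

/-- equidistribution of the squares -/
def Equi (φ : ℕ → ℍ → ℝ) : Prop :=
  ∀ ζ : ℂ → ℝ, ContDiff ℝ ∞ ζ → HasCompactSupport ζ → tsupport ζ ⊆ {w | 0 < w.im} →
    Tendsto (fun n => ∫ z : ℂ, ζ z * φ n (ofComplex z) ^ 2) atTop (𝓝 (∫ z : ℂ, ζ z))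

/-! ### A. Deterministic functions -/

/-- PRS: Parseval's formula for trigonometric polynomials in two variables.
Proof. Expand `‖∑ c_k e_k‖² = ∑_{k,l} c_k conj c_l e^{-i v · (k - l)}`; `ip (a + b I) (pt k) = a k₁ + b k₂`;
`∫_{-π}^{π} e^{-i a j} da` is `2 π` for `j = 0` and `0` for the other integers `j`. -/
def StmtPrs : Prop :=
  ∀ (I : Finset (ℕ × ℕ)) (c : ℕ × ℕ → ℂ),
    ∫ a in (-Real.pi)..Real.pi, ∫ b in (-Real.pi)..Real.pi,
      ‖∑ k ∈ I, c k * ew ((a : ℂ) + (b : ℂ) * Complex.I) k‖ ^ 2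
      = 4 * Real.pi ^ 2 * ∑ k ∈ I, ‖c k‖ ^ 2

/-- SQR: the square of `A_N`.
Proof. Expand the square, `ew v p * ew v q = ew v (p + q)`, and sum over the fibres of `p + q`
(`Finset.sum_fiberwise_of_maps_to`); `p, q ∈ box N` implies `p + q ∈ box (2 N)`. -/
def StmtSqr : Prop :=
  ∀ (f : ℂ → ℝ) (N : ℕ) (v : ℂ), coef f N v ^ 2 = ∑ k ∈ box (2 * N), (cv f N k : ℂ) * ew v k

/-- PAR: the energy in terms of the additive quadruples.
Proof (from PRS, SQR). `‖A‖⁴ = ‖A²‖²`, so the double integral is `4 π² ∑ cv²`, and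
`∑_k cv(k)² = N⁻⁸ ∑_{p + q = p' + q'} f(p) f(q) f(p') f(q')`; rename `x₀ = p`, `x₃ = q`, `x₁ = p'`, `x₂ = q'`.
For `N = 0` both sides are zero. -/
def StmtPar : Prop :=
  ∀ (f : ℂ → ℝ) (N : ℕ), en f N = 9 / 4 * qs N (fun x => f (x 0) * f (x 1) * f (x 2) * f (x 3))

/-- NIK: Nikolskii's inequality.
Proof (from PRS, SQR). `‖A(v)‖⁴ = ‖A(v)²‖² ≤ (4 N²) ∑ cv²` (Cauchy-Schwarz, `‖ew‖ = 1`, the box of side
`2 N` has `4 N²` elements), and `∑ cv² = (4 π²)⁻¹ ∫∫ ‖A‖⁴`. -/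
def StmtNik : Prop :=
  ∀ (f : ℂ → ℝ) (N : ℕ) (v : ℂ), ‖coef f N v‖ ^ 4 ≤ 16 / 9 * en f N

/-- LOW: the energy is small if there are no plane waves.
Proof (from PRS). `∫∫ ‖A‖⁴ ≤ S ∫∫ ‖A‖² = S 4 π² N⁻⁴ ∑ f²` (the integrands are continuous). -/
def StmtLow : Prop :=
  ∀ (f : ℂ → ℝ) (N : ℕ) (S : ℝ), (∀ v, ‖coef f N v‖ ^ 2 ≤ S) → en f N ≤ 9 / 4 * (S * loc f N)

/-! ### B. Sums of characters -/

/-- CHR: characters over additive quadruples and over pairs.
Proof. (1) `x₃ = x₁ + x₂ - x₀`. The sum over `quads N` is the product of two one-dimensional sums (the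
two coordinates; `ip` is `x.re a.re + x.im a.im`), each of the form
`∑_{j,k,l < N, 0 ≤ k + l - j < N} e^{i (j α + k β + l γ)}`, of modulus at most `N³`. One of `α = a.re`,
`α = a.im` is not zero and `|α| < 2 π`; for this coordinate, and for fixed `k, l`, `j` runs over an interval
of integers, so the sum over `j` is a geometric sum of modulus at most `2 / |e^{i α} - 1|`. So the sum
over `quads N` is at most `N³ · N² · C`. (2) The number of `(j, k, l, m)` with `j + m = k + l` is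
`(2 N³ + N) / 3`. (3) `∑_{p,q} cos = |∑_p e^{i p · a}|²`, product of two geometric sums. -/
def StmtChr : Prop :=
  (∀ a b c : ℂ, a ≠ 0 → ‖a‖ < 2 * Real.pi → Tendsto (fun N : ℕ => 1 / (N : ℝ) ^ 6 * ∑ q ∈ quads N,
    Real.cos (ip (pt q.1) a + ip (pt q.2.1) b + ip (pt q.2.2.1) c)) atTop (𝓝 0)) ∧
  Tendsto (fun N : ℕ => 1 / (N : ℝ) ^ 6 * ((quads N).card : ℝ)) atTop (𝓝 (4 / 9)) ∧
  (∀ a : ℂ, a ≠ 0 → ‖a‖ < 2 * Real.pi → Tendsto (fun N : ℕ => bl N fun x y =>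
    Real.cos (ip (x - y) a)) atTop (𝓝 0))

/-- WKQ: the four-point function of a Gaussian wave over additive quadruples, and the atoms.
Proof (from CHR). `dirWick s x` is the mean over `θ` and the integral over `s × s` of the sum of
three products of cosines; `cos A cos B = (cos (A - B) + cos (A + B)) / 2`. Let `a = e^{-iθ} w`,
`a' = e^{-iθ} w'` (`(e^{iθ} x conj w).re = ip x a`). On `quads N`, `x₂ - x₃ = x₀ - x₁`, `x₁ - x₃ = x₀ - x₂`,
`x₀ - x₃ = 2 x₀ - x₁ - x₂`, so the six cosines are those of `ip x₀ (a ± a') - ip x₁ (a ± a')`,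
`ip x₀ (a ± a') - ip x₂ (a ± a')` and `ip x₀ (2 a) + ip x₁ (- a ± a') + ip x₂ (- a ∓ a')`. By CHR the
normalised sums tend to zero for the last two, and for the first four unless `a ± a' = 0`, when they
tend to `4 / 9`. So the integrand tends to `4 / 9 (1_{w' = w} + 1_{w' = -w})`; it is bounded by `3`.
Dominated convergence (for `volume.restrict (Ioc 0 (2 π))` times `s.prod s`). -/
def StmtWkq : Prop :=
  ∀ s : Measure S1, IsFiniteMeasure s → ((s.prod s) {p : S1 × S1 | p.1 = -p.2}).toReal = dg s →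
    Tendsto (fun N => qs N (dirWick s)) atTop (𝓝 (8 / 9 * dg s))

/-- WKL: the same for pairs of squares.
Proof (from CHR). `dirWick s ![x, x, y, y]` is the mean over `θ` of `p² + 2 K_s(R (x - y))²`,
`p = (s univ).toReal`, and `K_s(R (x - y))²` is the integral over `s × s` of
`(cos (ip (x - y) (a - a')) + cos (ip (x - y) (a + a'))) / 2`. -/
def StmtWkl : Prop :=
  ∀ s : Measure S1, IsFiniteMeasure s → ((s.prod s) {p : S1 × S1 | p.1 = -p.2}).toReal = dg s →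
    Tendsto (fun N => bl N fun x y => dirWick s ![x, x, y, y]) atTop
      (𝓝 ((s univ).toReal ^ 2 + 2 * dg s))

/-- WKB: the trivial bound. Proof. `|dirK s x| ≤ (s univ).toReal` (`ONE.abs_dirK`). -/
def StmtWkb : Prop :=
  ∀ s : Measure S1, IsFiniteMeasure s → ∀ x : Fin 4 → ℂ, |dirWick s x| ≤ 3 * (s univ).toReal ^ 2

/-- RKQ: the same sums for `resK`.
Proof (from WKQ, WKL). `resK x = dirWick s x` for `s = (δ₁ + δ₋₁) / 2`: `dirK s x = cos (x.re)`, and
`cos A cos B = (cos (A - B) + cos (A + B)) / 2` gives each of the three terms of `resK` twice with the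
factor `1 / 2` (`waveK x` is the mean over `θ` of `cos ((e^{iθ} x).re)`). `dg s = 1 / 2`
(the same for the antidiagonal), `s univ = 1`. (Or directly from CHR.) -/
def StmtRkq : Prop :=
  Tendsto (fun N => qs N resK) atTop (𝓝 (4 / 9)) ∧
    Tendsto (fun N => bl N fun x y => resK ![x, x, y, y]) atTop (𝓝 2)

/-! ### D. Probability -/

/-- SUP: no plane waves and no energy.
Proof (from NIK, LOW, PAR). `→`: by NIK `⨆ v, ofReal ‖coef‖⁴ ≤ ofReal (16 / 9 en)`, and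
`∫⁻ ofReal (en) = ofReal (∫ en)` (`en` is integrable by PAR and `h4`, nonnegative). `←`: let `ε > 0`; for
`S = sup ‖coef‖²` (finite by NIK), LOW gives `en ≤ 9 / 4 S loc ≤ 9 / 8 (S² / δ + δ loc²)` for `δ > 0`, so
`ofReal (∫ en) = ∫⁻ ofReal en ≤ 9 / 8 (δ⁻¹ ∫⁻ ⨆ v, ofReal ‖coef‖⁴ + δ ∫⁻ ofReal (loc²))` (`lintegral_add_right`,
`lintegral_const_mul'`), and `∫ loc² ≤ B`. First `N → ∞`, then `δ → 0`. -/
def StmtSup : Prop :=
  ∀ (Ω : Type) [MeasurableSpace Ω] (P : Measure Ω) [IsProbabilityMeasure P] (F : ℂ → Ω → ℝ),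
    (∀ x, Measurable (F x)) →
    (∀ x₁ x₂ x₃ x₄ : ℂ, Integrable (fun o => F x₁ o * F x₂ o * F x₃ o * F x₄ o) P) →
    (∃ B : ℝ, ∀ N, ∫ o, loc (fun x => F x o) N ^ 2 ∂P ≤ B) →
    (Tendsto (fun N => ∫ o, en (fun x => F x o) N ∂P) atTop (𝓝 0) ↔
      Tendsto (fun N => ∫⁻ o, ⨆ v : ℂ, ENNReal.ofReal (‖coef (fun x => F x o) N v‖ ^ 4) ∂P) atTop
        (𝓝 0))

/-- EXP: the expectations of the energy and of the square of the local mass.
Proof (from PAR). Finite sums: `∫ en = 9 / 4 qs N (E F(x₀) F(x₁) F(x₂) F(x₃))` and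
`∫ loc² = bl N (E F(x)² F(y)²)`, `∫ loc = 1`. -/
def StmtExp : Prop :=
  ∀ (Ω : Type) [MeasurableSpace Ω] (P : Measure Ω) [IsProbabilityMeasure P] (F : ℂ → Ω → ℝ)
    (G : (Fin 4 → ℂ) → ℝ), (∀ x, Measurable (F x)) →
    (∀ x, Integrable (fun o => F x o * F x o) P ∧ ∫ o, F x o * F x o ∂P = 1) →
    (∀ x₁ x₂ x₃ x₄ : ℂ, Integrable (fun o => F x₁ o * F x₂ o * F x₃ o * F x₄ o) P ∧
      ∫ o, F x₁ o * F x₂ o * F x₃ o * F x₄ o ∂P = G ![x₁, x₂, x₃, x₄]) → ∀ N : ℕ,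
    (Integrable (fun o => en (fun x => F x o) N) P ∧ 0 ≤ ∫ o, en (fun x => F x o) N ∂P ∧
      ∫ o, en (fun x => F x o) N ∂P = 9 / 4 * qs N G) ∧
    Integrable (fun o => loc (fun x => F x o) N ^ 2) P ∧
    ∫ o, loc (fun x => F x o) N ^ 2 ∂P = bl N (fun x y => G ![x, x, y, y]) ∧
    (0 < N → ∫ o, (loc (fun x => F x o) N - 1) ^ 2 ∂P = bl N (fun x y => G ![x, x, y, y]) - 1)

end

end PWV
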