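import Pool.Agent.PWV.St2

/-!
# The theorem on plane waves: assembly (module FIN)
-/

set_option autoImplicit false

open Complex MeasureTheory Filter Topology Set
open UpperHalfPlane hiding I
open scoped ContDiff MatrixGroups ProbabilityTheory ENNReal

namespace PWV

open BSL NFP QE QE.NC QJ U3

noncomputable section

namespace FIN

/-- a function with mean one and mean square one is one -/
lemma ae_one {X : Type*} [MeasurableSpace X] {μ : Measure X} [IsProbabilityMeasure μ] {p : X → ℝ}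
    (hp : Integrable p μ) (hp2 : Integrable (fun z => p z ^ 2) μ) (h1 : ∫ z, p z ∂μ = 1)
    (h2 : ∫ z, p z ^ 2 ∂μ = 1) : ∀ᵐ z ∂μ, p z = 1 := by
  have e : (fun z => (p z - 1) ^ 2) = fun z => p z ^ 2 - 2 * p z + 1 := by
    funext z; ring
  have i1 : Integrable (fun z => p z ^ 2 - 2 * p z) μ := hp2.sub (hp.const_mul 2)
  have hi : Integrable (fun z => (p z - 1) ^ 2) μ := by
    rw [e]; exact i1.add (integrable_const _)
  have h : ∫ z, (p z - 1) ^ 2 ∂μ = 0 := by
    rw [e, integral_add i1 (integrable_const _), integral_sub hp2 (hp.const_mul 2),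
      integral_const_mul, h1, h2, integral_const]
    simp
    norm_num
  have h' := (integral_eq_zero_iff_of_nonneg (fun z => sq_nonneg (p z - 1)) hi).1 h
  filter_upwards [h'] with z hz
  have : (p z - 1) ^ 2 = 0 := hz
  have := pow_eq_zero_iff (two_ne_zero) |>.1 this
  linarith

/-- the mean square is at least one -/
lemma one_le {X : Type*} [MeasurableSpace X] {μ : Measure X} [IsProbabilityMeasure μ] {p : X → ℝ}
    (hp : Integrable p μ) (hp2 : Integrable (fun z => p z ^ 2) μ) (h1 : ∫ z, p z ∂μ = 1) :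
    1 ≤ ∫ z, p z ^ 2 ∂μ := by
  have e : (fun z => (p z - 1) ^ 2) = fun z => p z ^ 2 - 2 * p z + 1 := by
    funext z; ring
  have i1 : Integrable (fun z => p z ^ 2 - 2 * p z) μ := hp2.sub (hp.const_mul 2)
  have h : 0 ≤ ∫ z, (p z - 1) ^ 2 ∂μ := integral_nonneg fun z => sq_nonneg _
  rw [e, integral_add i1 (integrable_const _), integral_sub hp2 (hp.const_mul 2),
    integral_const_mul, h1, integral_const] at h
  simp only [probReal_univ, smul_eq_mul, one_mul] at h
  linarith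

/-- the autocorrelations are means -/
lemma hull_of_cor {Ω : Type} [MeasurableSpace Ω] {P : Measure Ω} {F : ℂ → Ω → ℝ} {a : ℂ}
    (h : Tendsto (fun N => ∫ o, (cor (fun x => F x o) N a - Berry.waveK a) ^ 2 ∂P) atTop (𝓝 0)) :
    Hull P F a := by
  intro ε hε
  obtain ⟨N, h1, h2⟩ := ((h.eventually_le_const hε).and (eventually_gt_atTop 0)).exists
  have hc : (box N).card = N ^ 2 := by
    unfold box
    rw [Finset.card_product, Finset.card_range]
    ring
  have hN : (N : ℝ) ^ 2 ≠ 0 := by positivity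
  let e := (box N).equivFin
  refine ⟨(box N).card, fun _ => 1 / (N : ℝ) ^ 2, fun i => pt (e.symm i), ?_, ?_⟩
  · rw [Finset.sum_const, Finset.card_univ, Fintype.card_fin, hc, nsmul_eq_mul]
    push_cast
    field_simp
  · refine le_trans (le_of_eq ?_) h1
    refine integral_congr_ae (Eventually.of_forall fun o => ?_)
    beta_reduce
    unfold cor
    rw [← Finset.mul_sum]
    have h3 : ∑ i : Fin (box N).card, F (pt (e.symm i)) o * F (pt (e.symm i) + a) o
        = ∑ q ∈ box N, F (pt q) o * F (pt q + a) o := by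
      rw [← Finset.sum_coe_sort (box N)]
      exact Equiv.sum_comp e.symm fun q : box N => F (pt q) o * F (pt q + a) o
    rw [h3]

end FIN

open CORE FIN in
/-- **FIN**: the theorem. -/
theorem t_FIN (hL : StmtLim) (hZ : StmtZdi) (hE : StmtEqd) (hS : StmtSup) (hX : StmtExp)
    (hC : StmtCor) : StmtPwv2 := by
  intro Γ _ ρ hρ hρΓ D hDm hD hK φ m hφ hs hnorm Ω _ P _ F hFm hF hF2 hF4
  have hfac : Fac Γ ρ := ⟨hρ, hρΓ, hK⟩
  have hgeo : Berry.Geo Γ ρ D := geo_of hDm hD hK (continuous_of_smooth hρ) hρΓ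
  have hprob := ONE.prob_nu hgeo
  obtain ⟨o1, o2, f4i, tfae, herg⟩ := BSL.fle_closed Γ ρ hρ hρΓ D hDm hD hK φ m hφ hs hnorm Ω P F
    hFm hF hF2 hF4
  set κ := ∫ o, F 0 o ^ 4 ∂P with hκ
  -- the data
  have dat : ∀ k : ℕ → ℕ, Tendsto k atTop atTop →
      ∃ (l : ℕ → ℕ) (s : ProbabilityTheory.Kernel ℍ S1), Tendsto l atTop atTop ∧
        Dat Γ D ρ (fun n => φ (k (l n))) (fun n => m (k (l n))) P F s ∧ DirE Γ D ρ s κ := by
    intro k hk
    obtain ⟨l, s, hl, T⟩ := exists_dat ffl_closed hρ hρΓ hDm hD hK hφ hs hnorm hFm hF hF2 hF4 hk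
    obtain ⟨g1, g2⟩ := kap_closed Γ D ρ _ _ T.sur Ω P F hFm
      (FLA.fLim_comp (k := fun n => k (l n)) hF (hk.comp hl)) hF2 hF4 s T.sem
    exact ⟨l, s, hl, T, ⟨hDm, hD, hfac, T.sem.fin, lfr_closed Γ ρ _ _ s hfac T.sur.loc T.sem
      (fun n => T.sur.eig.invariant n), T.sq, T.one, T.dw, g1, g2⟩⟩
  have f4 : ∀ {k : ℕ → ℕ} {s : ProbabilityTheory.Kernel ℍ S1},
      Dat Γ D ρ (fun n => φ (k n)) (fun n => m (k n)) P F s → ∀ a b c d : ℂ,
      ∫ o, F a o * F b o * F c o * F d o ∂P = fourF ρ D s κ ![a, b, c, d] := by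
    intro k s T a b c d
    have := (T.four ![a, b, c, d]).2
    simpa [Fin.prod_univ_four] using this
  have hsq : ∀ x : ℂ, Integrable (fun o => F x o * F x o) P ∧ ∫ o, F x o * F x o ∂P = 1 := by
    intro x
    refine ⟨(o2 x x).1, ?_⟩
    rw [(o2 x x).2, sub_self, Berry.waveK_zero]
  -- the limits in terms of the data
  have lims : ∀ {k : ℕ → ℕ} {s : ProbabilityTheory.Kernel ℍ S1},
      Dat Γ D ρ (fun n => φ (k n)) (fun n => m (k n)) P F s → DirE Γ D ρ s κ →
      Tendsto (fun N => ∫ o, en (fun x => F x o) N ∂P) atTop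
        (𝓝 (2 * Berry.rAvg ρ D (fun z => dia (s z))
          + (κ - 3 * Berry.rAvg ρ D (fun z => ((s z) univ).toReal ^ 2)) / 3)) ∧
      Tendsto (fun N => ∫ o, loc (fun x => F x o) N ^ 2 ∂P) atTop
        (𝓝 (κ / 3 + (2 * Berry.rAvg ρ D (fun z => dia (s z))
          + (κ - 3 * Berry.rAvg ρ D (fun z => ((s z) univ).toReal ^ 2)) / 3))) := by
    intro k s T d
    obtain ⟨l1, l2⟩ := hL Γ D ρ s κ d
    have hX' := hX Ω P F (fourF ρ D s κ) hFm hsq (fun a b c d => ⟨f4i a b c d, f4 T a b c d⟩)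
    refine ⟨?_, ?_⟩
    · have e : (fun N => ∫ o, en (fun x => F x o) N ∂P) = fun N => 9 / 4 * qs N (fourF ρ D s κ) :=
        funext fun N => (hX' N).1.2.2
      rw [e]
      convert l1.const_mul (9 / 4) using 2
      ring
    · have e : (fun N => ∫ o, loc (fun x => F x o) N ^ 2 ∂P)
          = fun N => bl N (fun x y => fourF ρ D s κ ![x, x, y, y]) := funext fun N => (hX' N).2.2.1
      rw [e]
      convert l2 using 2
      ring
  obtain ⟨l₀, s₀, hl₀, T₀, d₀⟩ := dat (fun n => n) tendsto_id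
  obtain ⟨q1, q2⟩ := lims (k := fun n => l₀ n) T₀ d₀
  have hX0 := hX Ω P F (fourF ρ D s₀ κ) hFm hsq
    (fun a b c d => ⟨f4i a b c d, f4 (k := fun n => l₀ n) T₀ a b c d⟩)
  set Q : ℝ := 2 * Berry.rAvg ρ D (fun z => dia (s₀ z))
    + (κ - 3 * Berry.rAvg ρ D (fun z => ((s₀ z) univ).toReal ^ 2)) / 3 with hQ
  have hQ0 : 0 ≤ Q := ge_of_tendsto' q1 fun N => (hX0 N).1.2.1
  have uniq : ∀ {k : ℕ → ℕ} {s : ProbabilityTheory.Kernel ℍ S1},
      Dat Γ D ρ (fun n => φ (k n)) (fun n => m (k n)) P F s → DirE Γ D ρ s κ →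
      2 * Berry.rAvg ρ D (fun z => dia (s z))
        + (κ - 3 * Berry.rAvg ρ D (fun z => ((s z) univ).toReal ^ 2)) / 3 = Q :=
    fun T d => tendsto_nhds_unique (lims T d).1 q1
  -- the local mass
  have hone : ∀ᶠ N : ℕ in atTop, ∫ o, (loc (fun x => F x o) N - 1) ^ 2 ∂P
      = ∫ o, loc (fun x => F x o) N ^ 2 ∂P - 1 := by
    filter_upwards [eventually_gt_atTop 0] with N hN
    rw [(hX0 N).2.2.2 hN, (hX0 N).2.2.1]
  have q3 : Tendsto (fun N => ∫ o, (loc (fun x => F x o) N - 1) ^ 2 ∂P) atTop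
      (𝓝 (κ / 3 + Q - 1)) := (q2.sub_const 1).congr' (hone.mono fun N h => h.symm)
  have q4 : Tendsto (fun N => ∫ o, (loc (fun x => F x o) N - 1) ^ 2 ∂P) atTop (𝓝 0) ↔
      κ / 3 + Q = 1 := by
    constructor
    · intro h
      have := tendsto_nhds_unique h q3
      linarith
    · intro h
      rw [show κ / 3 + Q - 1 = 0 by linarith] at q3
      exact q3
  -- no plane waves
  have hB : ∃ B : ℝ, ∀ N, ∫ o, loc (fun x => F x o) N ^ 2 ∂P ≤ B := by
    obtain ⟨B, hB⟩ := q2.bddAbove_range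
    exact ⟨B, fun N => hB ⟨N, rfl⟩⟩
  have q5 : Q = 0 ↔ Tendsto (fun N => ∫⁻ o, ⨆ v : ℂ,
      ENNReal.ofReal (‖coef (fun x => F x o) N v‖ ^ 4) ∂P) atTop (𝓝 0) := by
    rw [← hS Ω P F hFm f4i hB]
    constructor
    · intro h
      rw [h] at q1
      exact q1
    · intro h
      exact tendsto_nhds_unique q1 h
  -- quantum ergodic sequences
  have hqe : QE.QuantumErgodic ρ φ m → κ = 3 + 3 * Q ∧
      (∀ x₁ x₂ x₃ : ℂ, ∫ o, F x₁ o * F x₂ o * F x₃ o ∂P = 0) ∧
      ∀ x₁ x₂ x₃ x₄ : ℂ, ∫ o, F x₁ o * F x₂ o * F x₃ o * F x₄ o ∂P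
        = Berry.waveK (x₁ - x₂) * Berry.waveK (x₃ - x₄)
          + Berry.waveK (x₁ - x₃) * Berry.waveK (x₂ - x₄)
          + Berry.waveK (x₁ - x₄) * Berry.waveK (x₂ - x₃)
          + Q * (Berry.waveK (x₁ + x₂ - x₃ - x₄) + Berry.waveK (x₁ + x₃ - x₂ - x₄)
            + Berry.waveK (x₁ + x₄ - x₂ - x₃)) := by
    intro hq
    obtain ⟨n1, n2⟩ := nqe_closed ρ _ _ s₀ T₀.sur.fac.smooth T₀.sur.loc T₀.sem (qe_comp hq hl₀)
    have hdia := hZ Γ D ρ _ _ s₀ T₀.sur T₀.sem n2
    have hu : ∀ᵐ z ∂((volume : Measure ℍ).restrict D), (s₀ z) univ = 1 ∧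
        ∀ k : ℤ, Even k → k ≠ 0 → cof (s₀ z) k = 0 := by
      refine ae_D (P := fun z => (s₀ z) univ = 1 ∧ ∀ k : ℤ, Even k → k ≠ 0 → cof (s₀ z) k = 0) ?_
      filter_upwards [n1] with z hz
      refine ⟨?_, fun k _ hk => hz.2 k hk⟩
      have h := hz.1
      unfold ma at h
      exact (ENNReal.toReal_eq_one_iff _).1 h
    obtain ⟨-, e, -⟩ := T₀.uni qeu_closed hu
    have hk : κ = 3 + 3 * Q := by
      rw [hQ, hdia, e]
      ring
    obtain ⟨t1, t2⟩ := (flq_closed Γ ρ hρ hρΓ D hDm hD hK φ m hφ hs hnorm hq Ω P F hFm hF hF2).2 hF4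
    refine ⟨hk, fun x y z => (t1 x y z).2, fun x₁ x₂ x₃ x₄ => ?_⟩
    have := (t2 ![x₁, x₂, x₃, x₄]).2
    rw [← hκ, hk] at this
    simp only [resK, Matrix.cons_val_zero, Matrix.cons_val_one, Matrix.cons_val] at this
    rw [this]
    ring
  refine ⟨o1, o2, f4i, Q, hQ0, q1, q2, q5, hqe, fun hneg => ?_, ?_, fun h => ?_⟩
  · -- negative curvature
    have hlap : ∀ z, 0 < lapR ρ z := hneg
    have hd : ∀ {k : ℕ → ℕ} {s : ProbabilityTheory.Kernel ℍ S1},
        Dat Γ D ρ (fun n => φ (k n)) (fun n => m (k n)) P F s → DirE Γ D ρ s κ →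
        κ = 3 * Berry.rAvg ρ D (fun z => ((s z) univ).toReal ^ 2) + 3 * Q := by
      intro k s T d
      have h0 := hZ Γ D ρ _ _ s T.sur T.sem (noa_closed Γ D ρ _ _ s T.sur hlap T.sem UH subset_rfl)
      have h1 := uniq T d
      rw [h0] at h1
      linarith
    have js : ∀ {k : ℕ → ℕ} {s : ProbabilityTheory.Kernel ℍ S1},
        Dat Γ D ρ (fun n => φ (k n)) (fun n => m (k n)) P F s →
        Integrable (fun z => ((s z) univ).toReal) (ProbabilityTheory.cond (Berry.area ρ) D) ∧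
        Integrable (fun z => ((s z) univ).toReal ^ 2) (ProbabilityTheory.cond (Berry.area ρ) D) :=
      fun T => ⟨ONE.int_mass (ONE.int_nu hgeo T.sq), ONE.int_nu hgeo T.sq⟩
    have h1 : 3 + 3 * Q ≤ κ := by
      have a1 := hd (k := fun n => l₀ n) T₀ d₀
      have a2 : 1 ≤ Berry.rAvg ρ D (fun z => ((s₀ z) univ).toReal ^ 2) := by
        obtain ⟨j1, j2⟩ := js (k := fun n => l₀ n) T₀
        exact one_le j1 j2 T₀.one
      linarith
    have h2 : κ = 3 + 3 * Q ↔ Equi φ := by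
      constructor
      · intro h ζ z1 z2 z3
        refine tendsto_of_subseq_tendsto fun ns hns => ?_
        obtain ⟨l, s, hl, T, d⟩ := dat ns hns
        have a1 := hd (k := fun n => ns (l n)) T d
        obtain ⟨j1, j2⟩ := js (k := fun n => ns (l n)) T
        have a2 : Berry.rAvg ρ D (fun z => ((s z) univ).toReal ^ 2) = 1 := by linarith
        have a3 := ONE.ae_nu hgeo (ae_one j1 j2 T.one a2)
        exact ⟨l, (hE Γ D ρ _ _ s T.sur T.sem).1 a3 ζ z1 z2 z3⟩
      · intro h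
        have a3 := (hE Γ D ρ _ _ s₀ T₀.sur T₀.sem).2 fun ζ z1 z2 z3 => (h ζ z1 z2 z3).comp hl₀
        have a4 : Berry.rAvg ρ D (fun z => ((s₀ z) univ).toReal ^ 2) = 1 := by
          have : Berry.rAvg ρ D (fun z => ((s₀ z) univ).toReal ^ 2)
              = Berry.rAvg ρ D (fun z => ((s₀ z) univ).toReal) := by
            refine rAvg_congr ?_
            filter_upwards [a3] with z hz
            rw [hz, one_pow]
          rw [this, T₀.one]
        have a1 := hd (k := fun n => l₀ n) T₀ d₀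
        rw [a4] at a1
        linarith
    refine ⟨h1, h2, ?_, ?_⟩
    · rw [q4]
      constructor
      · intro h
        have : Q = 0 := by linarith
        rw [h, this]
        norm_num
      · intro h
        linarith
    · constructor
      · intro h
        have : Q = 0 := by linarith
        exact ⟨h2.1 (by rw [h, this]; norm_num), this⟩
      · rintro ⟨h, h'⟩
        rw [h2.2 h, h']
        norm_num
  · -- equivalences
    tfae_have 1 ↔ 2 := (tfae.out 0 3 :)
    tfae_have 2 ↔ 3 := by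
      constructor
      · rintro ⟨h, h'⟩
        have := (hqe h).1
        exact ⟨h, by linarith⟩
      · rintro ⟨h, h'⟩
        have := (hqe h).1
        exact ⟨h, by linarith⟩
    tfae_have 3 ↔ 4 := by
      constructor
      · rintro ⟨h, h'⟩
        have := (hqe h).1
        exact ⟨h, q4.2 (by linarith)⟩
      · rintro ⟨h, h'⟩
        have := (hqe h).1
        have := q4.1 h'
        exact ⟨h, by linarith⟩
    tfae_have 1 → 5 := fun h a => hC Ω P F hFm o2 (fun x₁ x₂ x₃ x₄ => ⟨f4i _ _ _ _, h.2 _ _ _ _⟩) a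
    tfae_have 5 → 6 := fun h => ⟨1, one_ne_zero, hull_of_cor (h 1)⟩
    tfae_have 6 ↔ 1 := (tfae.out 2 0 :)
    tfae_finish
  · obtain ⟨h1, h2⟩ := herg h
    have := (hqe h1).1
    exact ⟨h1, by linarith⟩

end

end PWV
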