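import Pool.Agent.PWV.PRS
import Pool.Agent.PWV.SQR
import Pool.Agent.PWV.PAR
import Pool.Agent.PWV.NIK
import Pool.Agent.PWV.LOW
import Pool.Agent.PWV.CHR
import Pool.Agent.PWV.WKQ
import Pool.Agent.PWV.WKL
import Pool.Agent.PWV.RKQ
import Pool.Agent.PWV.SUP
import Pool.Agent.PWV.EXP
import Pool.Agent.PWV.COR
import Pool.Agent.PWV.LIM
import Pool.Agent.PWV.ZDI
import Pool.Agent.PWV.EQDH
import Pool.Agent.PWV.FIN

/-!
# The theorem on plane waves
-/

namespace PWV

theorem par_closed : StmtPar := t_PAR t_PRS t_SQR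

theorem wkq_closed : StmtWkq := t_WKQ t_CHR

theorem wkl_closed : StmtWkl := t_WKL t_CHR

theorem rkq_closed : StmtRkq := t_RKQ wkq_closed wkl_closed

theorem sup_closed : StmtSup := t_SUP par_closed (t_NIK t_PRS t_SQR) (t_LOW t_PRS)

theorem lim_closed : StmtLim := t_LIM wkq_closed wkl_closed t_WKB rkq_closed

/-- the theorem -/
theorem pwv_closed : StmtPwv2 :=
  t_FIN lim_closed t_ZDI t_EQDH sup_closed (t_EXP par_closed) t_COR

end PWV
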