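import Pool.Agent.PWV.All

/-!
# The kurtosis of Benjamini-Schramm limits and plane waves

Let `Γ ⊂ SL(2, ℝ)` be countable with compact quotient `Γ \ ℍ` (fundamental domain `D`), with any metric
`e^{2ρ} (dx² + dy²) / y²`. Let `φₙ` be real smooth `Γ`-invariant Laplace eigenfunctions of this metric,
normalised in `L²`, with eigenvalues `mₙ² → ∞`; no bound for their moments is assumed. Let `Fₙ(x)` be `φₙ`
near a uniform random point, in a uniform random frame, at distances `x / mₙ`, and `K = J₀(|x|)` the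
covariance function of the random monochromatic wave. Let the random field `F` be a limit in law of `Fₙ`
(finite-dimensional distributions) with `E F(0)² = 1` and `κ = E F(0)⁴ < ∞`.

For a real function `f` on the plane let `A_N(v) = N⁻² ∑ f(x) e^{-i v·x}` (`PWV.coef`) and
`P_N = N⁻² ∑ f(x)²` (`PWV.loc`) be the means over the box `{0, …, N - 1}²`, and let
`(9 N² / 16 π²) ∫ |A_N(v)|⁴ dv`, over the square `[-π, π]²`, be the energy of the plane waves in `f` (`PWV.en`;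
for `f(x) = ∑ aⱼ e^{i vⱼ·x}` with distinct `vⱼ` of length one it tends to `∑ |aⱼ|⁴`).

* The expected energy of the plane waves in `F` has a limit `Q ≥ 0`, `E P_N² → κ / 3 + Q`, and `Q = 0` if and
  only if `E sup_v |A_N(v)|⁴ → 0`: `F` contains no plane waves.
* If `φₙ` is quantum ergodic, then `κ = 3 + 3 Q`, all mixed moments of order three vanish, and those of
  order four are the Gaussian ones plus `Q` times
  `K(x₁ + x₂ - x₃ - x₄) + K(x₁ + x₃ - x₂ - x₄) + K(x₁ + x₄ - x₂ - x₃)`.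
* If the curvature is negative, then, without this hypothesis, `κ ≥ 3 + 3 Q`, with equality if and only if
  `φₙ² → 1` weakly; and `κ = 3` if and only if `E (P_N - 1)² → 0`, the mass is equidistributed in almost all
  large discs at the scale `1 / mₙ`, if and only if `φₙ² → 1` weakly and `Q = 0`.
* The following are equivalent: the mixed moments of `F` of orders three and four are those of the random
  monochromatic wave; `φₙ` is quantum ergodic and `κ = 3`; `φₙ` is quantum ergodic and `Q = 0`; `φₙ` is quantum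
  ergodic and `E (P_N - 1)² → 0`; for every `a` the mean of `F(x) F(x + a)` over the box (`PWV.cor`) tends to
  `K(a)` in the mean square; for one `a ≠ 0`, `K(a)` is in the closed affine hull in `L²(P)` of the variables
  `F(x) F(x + a)`. They hold if the law of `F` is invariant and ergodic under translations.
-/

open MeasureTheory UpperHalfPlane MatrixGroups Berry Filter Topology
open scoped ContDiff

theorem Pool.Agent.PWV.result_draft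
    (Γ : Subgroup SL(2, ℝ)) [Countable Γ] (ρ : ℍ → ℝ)
    (hρ : ContDiffOn ℝ ∞ (fun w : ℂ => ρ (ofComplex w)) {w | 0 < w.im})
    (hρΓ : ∀ γ ∈ Γ, ∀ z, ρ (γ • z) = ρ z)
    (D : Set ℍ) (hDm : MeasurableSet D) (hD : IsFundamentalDomain Γ D (volume : Measure ℍ))
    (hK : ∃ K : Set ℍ, IsCompact K ∧ ∀ z, ∃ γ ∈ Γ, γ • z ∈ K)
    (φ : ℕ → ℍ → ℝ) (m : ℕ → ℝ) (hφ : REigenSeq Γ ρ φ m)
    (hs : ∀ n, ContDiffOn ℝ ∞ (fun w : ℂ => φ n (ofComplex w)) {w | 0 < w.im})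
    (hn : ∀ n, rAvg ρ D (fun z => φ n z ^ 2) = 1)
    (Ω : Type) [MeasurableSpace Ω] (P : Measure Ω) [IsProbabilityMeasure P] (F : ℂ → Ω → ℝ)
    (hF : ∀ x, Measurable (F x))
    (hlaw : ∀ (r : ℕ) (x : Fin r → ℂ) (G : (Fin r → ℝ) → ℝ), Continuous G →
      (∃ C, ∀ t, |G t| ≤ C) →
      Tendsto (fun n => ∫ p, G (fun i => rWave ρ (φ n) (m n) (x i) p) ∂(rFrameProb ρ D))
        atTop (𝓝 (∫ o, G (fun i => F (x i) o) ∂P)))
    (h2 : ∫ o, F 0 o ^ 2 ∂P = 1) (h4 : Integrable (fun o => F 0 o ^ 4) P) :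
    (∀ x : ℂ, Integrable (F x) P ∧ ∫ o, F x o ∂P = 0) ∧
    (∀ x y : ℂ, Integrable (fun o => F x o * F y o) P ∧
      ∫ o, F x o * F y o ∂P = waveK (x - y)) ∧
    (∀ x₁ x₂ x₃ x₄ : ℂ, Integrable (fun o => F x₁ o * F x₂ o * F x₃ o * F x₄ o) P) ∧
    ∃ Q : ℝ, 0 ≤ Q ∧
      Tendsto (fun N => ∫ o, PWV.en (fun x => F x o) N ∂P) atTop (𝓝 Q) ∧
      Tendsto (fun N => ∫ o, PWV.loc (fun x => F x o) N ^ 2 ∂P) atTop
        (𝓝 ((∫ o, F 0 o ^ 4 ∂P) / 3 + Q)) ∧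
      (Q = 0 ↔ Tendsto (fun N => ∫⁻ o, ⨆ v : ℂ,
        ENNReal.ofReal (‖PWV.coef (fun x => F x o) N v‖ ^ 4) ∂P) atTop (𝓝 0)) ∧
      (QE.QuantumErgodic ρ φ m → ∫ o, F 0 o ^ 4 ∂P = 3 + 3 * Q ∧
        (∀ x₁ x₂ x₃ : ℂ, ∫ o, F x₁ o * F x₂ o * F x₃ o ∂P = 0) ∧
        ∀ x₁ x₂ x₃ x₄ : ℂ, ∫ o, F x₁ o * F x₂ o * F x₃ o * F x₄ o ∂P
          = waveK (x₁ - x₂) * waveK (x₃ - x₄) + waveK (x₁ - x₃) * waveK (x₂ - x₄)
            + waveK (x₁ - x₄) * waveK (x₂ - x₃)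
            + Q * (waveK (x₁ + x₂ - x₃ - x₄) + waveK (x₁ + x₃ - x₂ - x₄)
              + waveK (x₁ + x₄ - x₂ - x₃))) ∧
      ((∀ z : ℍ, 0 < 1 + z.im ^ 2 * Laplacian.laplacian (fun w : ℂ => ρ (ofComplex w)) z) →
        3 + 3 * Q ≤ ∫ o, F 0 o ^ 4 ∂P ∧ (∫ o, F 0 o ^ 4 ∂P = 3 + 3 * Q ↔ PWV.Equi φ) ∧
        (∫ o, F 0 o ^ 4 ∂P = 3 ↔
          Tendsto (fun N => ∫ o, (PWV.loc (fun x => F x o) N - 1) ^ 2 ∂P) atTop (𝓝 0)) ∧
        (∫ o, F 0 o ^ 4 ∂P = 3 ↔ PWV.Equi φ ∧ Q = 0)) ∧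
      List.TFAE [
        (∀ x₁ x₂ x₃ : ℂ, ∫ o, F x₁ o * F x₂ o * F x₃ o ∂P = 0) ∧
          ∀ x₁ x₂ x₃ x₄ : ℂ, ∫ o, F x₁ o * F x₂ o * F x₃ o * F x₄ o ∂P
            = waveK (x₁ - x₂) * waveK (x₃ - x₄) + waveK (x₁ - x₃) * waveK (x₂ - x₄)
              + waveK (x₁ - x₄) * waveK (x₂ - x₃),
        QE.QuantumErgodic ρ φ m ∧ ∫ o, F 0 o ^ 4 ∂P = 3,
        QE.QuantumErgodic ρ φ m ∧ Q = 0,
        QE.QuantumErgodic ρ φ m ∧
          Tendsto (fun N => ∫ o, (PWV.loc (fun x => F x o) N - 1) ^ 2 ∂P) atTop (𝓝 0),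
        ∀ a : ℂ, Tendsto (fun N => ∫ o, (PWV.cor (fun x => F x o) N a - waveK a) ^ 2 ∂P) atTop (𝓝 0),
        ∃ a : ℂ, a ≠ 0 ∧ ∀ ε > 0, ∃ (r : ℕ) (c : Fin r → ℝ) (x : Fin r → ℂ), ∑ i, c i = 1 ∧
          ∫ o, (∑ i, c i * (F (x i) o * F (x i + a) o) - waveK a) ^ 2 ∂P ≤ ε] ∧
      (BSL.Ergo P F → QE.QuantumErgodic ρ φ m ∧ Q = 0) :=
  PWV.pwv_closed Γ ρ hρ hρΓ D hDm hD hK φ m hφ hs hn Ω P F hF hlaw h2 h4
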