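import Pool.Agent.PWV.St0

/-!
# Parseval's formula for trigonometric polynomials in two variables
-/

open Complex MeasureTheory Filter Topology Set
open scoped ComplexConjugate

namespace PWV

namespace PRS

noncomputable section

/-- The character `e^{-i a j}` of one variable. -/
def E (j : ℤ) (a : ℝ) : ℂ := Complex.exp (-(Complex.I * ((a : ℂ) * (j : ℂ))))

lemma continuous_E (j : ℤ) : Continuous (E j) := by
  unfold E
  fun_prop

lemma E_mul (j l : ℤ) (a : ℝ) : E j a * E l a = E (j + l) a := by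
  unfold E
  rw [← Complex.exp_add]
  congr 1
  push_cast
  ring

lemma conj_E (j : ℤ) (a : ℝ) : conj (E j a) = E (-j) a := by
  unfold E
  rw [← Complex.exp_conj]
  congr 1
  simp

lemma integral_E (j : ℤ) :
    ∫ a in (-Real.pi)..Real.pi, E j a = if j = 0 then (2 * (Real.pi : ℂ)) else 0 := by
  split_ifs with h
  · subst h
    unfold E
    simp
    ring
  · have hj : (j : ℂ) ≠ 0 := by exact_mod_cast h
    have hc : (-(Complex.I * (j : ℂ)) : ℂ) ≠ 0 :=
      neg_ne_zero.mpr (mul_ne_zero Complex.I_ne_zero hj)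
    have h1 : ∀ a : ℝ, E j a = Complex.exp (-(Complex.I * (j : ℂ)) * (a : ℂ)) := by
      intro a
      unfold E
      congr 1
      ring
    simp_rw [h1]
    rw [integral_exp_mul_complex hc]
    have h2 : Complex.exp (-(Complex.I * (j : ℂ)) * ((Real.pi : ℝ) : ℂ)) =
        Complex.exp (-(Complex.I * (j : ℂ)) * ((-Real.pi : ℝ) : ℂ)) := by
      rw [Complex.exp_eq_exp_iff_exists_int]
      refine ⟨-j, ?_⟩
      push_cast
      ring
    rw [h2, sub_self, zero_div]

/-- The wave is the product of the characters of the two coordinates. -/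
lemma ew_eq (a b : ℝ) (k : ℕ × ℕ) :
    ew ((a : ℂ) + (b : ℂ) * Complex.I) k = E (k.1 : ℤ) a * E (k.2 : ℤ) b := by
  unfold ew E ip pt
  rw [← Complex.exp_add]
  congr 1
  have h : (((a : ℂ) + (b : ℂ) * Complex.I) *
      (starRingEnd ℂ) ((k.1 : ℂ) + (k.2 : ℂ) * Complex.I)).re = a * k.1 + b * k.2 := by
    simp
  rw [h]
  push_cast
  ring

/-- Expansion of the square of the modulus. -/
lemma expand (I : Finset (ℕ × ℕ)) (c : ℕ × ℕ → ℂ) (a b : ℝ) :
    ((‖∑ k ∈ I, c k * ew ((a : ℂ) + (b : ℂ) * Complex.I) k‖ ^ 2 : ℝ) : ℂ) =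
      ∑ k ∈ I, ∑ l ∈ I, (c k * conj (c l)) *
        (E ((k.1 : ℤ) - l.1) a * E ((k.2 : ℤ) - l.2) b) := by
  rw [Complex.ofReal_pow, ← Complex.mul_conj', map_sum, Finset.sum_mul_sum]
  refine Finset.sum_congr rfl fun k _ => Finset.sum_congr rfl fun l _ => ?_
  rw [ew_eq, ew_eq, map_mul, map_mul, conj_E, conj_E, sub_eq_add_neg, sub_eq_add_neg, ← E_mul,
    ← E_mul]
  ring

end

end PRS

open PRS in
/-- `PRS`.  Parseval's formula for trigonometric polynomials in two variables. -/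
theorem t_PRS : StmtPrs := by
  intro I c
  have h0 : ((∫ a in (-Real.pi)..Real.pi, ∫ b in (-Real.pi)..Real.pi,
      ‖∑ k ∈ I, c k * ew ((a : ℂ) + (b : ℂ) * Complex.I) k‖ ^ 2 : ℝ) : ℂ) =
      ∫ a in (-Real.pi)..Real.pi, ∫ b in (-Real.pi)..Real.pi,
        ∑ k ∈ I, ∑ l ∈ I, (c k * conj (c l)) *
          (E ((k.1 : ℤ) - l.1) a * E ((k.2 : ℤ) - l.2) b) := by
    rw [← intervalIntegral.integral_ofReal]
    refine intervalIntegral.integral_congr fun a _ => ?_
    show ((∫ b in (-Real.pi)..Real.pi,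
      ‖∑ k ∈ I, c k * ew ((a : ℂ) + (b : ℂ) * Complex.I) k‖ ^ 2 : ℝ) : ℂ) = _
    rw [← intervalIntegral.integral_ofReal]
    refine intervalIntegral.integral_congr fun b _ => ?_
    exact expand I c a b
  have h1 : ∀ a : ℝ, ∫ b in (-Real.pi)..Real.pi,
      ∑ k ∈ I, ∑ l ∈ I, (c k * conj (c l)) *
          (E ((k.1 : ℤ) - l.1) a * E ((k.2 : ℤ) - l.2) b) =
      ∑ k ∈ I, ∑ l ∈ I, (c k * conj (c l)) *
          (if ((k.2 : ℤ) - l.2) = 0 then (2 * (Real.pi : ℂ)) else 0) * E ((k.1 : ℤ) - l.1) a := by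
    intro a
    have hcont : ∀ k l : ℕ × ℕ, Continuous fun b : ℝ => (c k * conj (c l)) *
        (E ((k.1 : ℤ) - l.1) a * E ((k.2 : ℤ) - l.2) b) := fun k l =>
      continuous_const.mul (continuous_const.mul (continuous_E _))
    rw [intervalIntegral.integral_finsetSum fun k _ =>
      (continuous_finsetSum _ fun l _ => hcont k l).intervalIntegrable _ _]
    refine Finset.sum_congr rfl fun k _ => ?_
    rw [intervalIntegral.integral_finsetSum fun l _ => (hcont k l).intervalIntegrable _ _]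
    refine Finset.sum_congr rfl fun l _ => ?_
    rw [intervalIntegral.integral_const_mul, intervalIntegral.integral_const_mul, integral_E]
    ring
  have h2 : ∫ a in (-Real.pi)..Real.pi,
      ∑ k ∈ I, ∑ l ∈ I, (c k * conj (c l)) *
          (if ((k.2 : ℤ) - l.2) = 0 then (2 * (Real.pi : ℂ)) else 0) * E ((k.1 : ℤ) - l.1) a =
      ∑ k ∈ I, ∑ l ∈ I, (c k * conj (c l)) *
          (if ((k.2 : ℤ) - l.2) = 0 then (2 * (Real.pi : ℂ)) else 0) *
            (if ((k.1 : ℤ) - l.1) = 0 then (2 * (Real.pi : ℂ)) else 0) := by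
    have hcont : ∀ k l : ℕ × ℕ, Continuous fun a : ℝ => (c k * conj (c l)) *
          (if ((k.2 : ℤ) - l.2) = 0 then (2 * (Real.pi : ℂ)) else 0) * E ((k.1 : ℤ) - l.1) a :=
      fun k l => continuous_const.mul (continuous_E _)
    rw [intervalIntegral.integral_finsetSum fun k _ =>
      (continuous_finsetSum _ fun l _ => hcont k l).intervalIntegrable _ _]
    refine Finset.sum_congr rfl fun k _ => ?_
    rw [intervalIntegral.integral_finsetSum fun l _ => (hcont k l).intervalIntegrable _ _]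
    refine Finset.sum_congr rfl fun l _ => ?_
    rw [intervalIntegral.integral_const_mul, integral_E]
  have h3 : ∑ k ∈ I, ∑ l ∈ I, (c k * conj (c l)) *
          (if ((k.2 : ℤ) - l.2) = 0 then (2 * (Real.pi : ℂ)) else 0) *
            (if ((k.1 : ℤ) - l.1) = 0 then (2 * (Real.pi : ℂ)) else 0) =
      ((4 * Real.pi ^ 2 * ∑ k ∈ I, ‖c k‖ ^ 2 : ℝ) : ℂ) := by
    push_cast
    rw [Finset.mul_sum]
    refine Finset.sum_congr rfl fun k hk => ?_
    rw [Finset.sum_eq_single k]
    · simp only [sub_self, if_true]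
      rw [Complex.mul_conj']
      ring
    · intro l _ hlk
      by_cases h5 : ((k.1 : ℤ) - l.1) = 0
      · by_cases h6 : ((k.2 : ℤ) - l.2) = 0
        · exfalso
          apply hlk
          ext <;> omega
        · rw [if_neg h6]
          ring
      · rw [if_neg h5]
        ring
    · intro h
      exact absurd hk h
  have h4 : ((∫ a in (-Real.pi)..Real.pi, ∫ b in (-Real.pi)..Real.pi,
      ‖∑ k ∈ I, c k * ew ((a : ℂ) + (b : ℂ) * Complex.I) k‖ ^ 2 : ℝ) : ℂ) =
      ((4 * Real.pi ^ 2 * ∑ k ∈ I, ‖c k‖ ^ 2 : ℝ) : ℂ) := by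
    rw [h0, ← h3, ← h2]
    exact intervalIntegral.integral_congr fun a _ => h1 a
  exact_mod_cast h4

end PWV
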