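import Pool.Agent.PWV.St
import Pool.Agent.PWV.St1

/-!
# Plane waves in Benjamini-Schramm limits: the theorem
-/

open Complex MeasureTheory Filter Topology Set
open UpperHalfPlane hiding I
open scoped ContDiff MatrixGroups ProbabilityTheory ENNReal

namespace PWV

open BSL NFP QE QE.NC QJ U3

noncomputable section

/-! ### E. The theorem -/

/-- the theorem, with the law of large numbers for the autocorrelation. Proof (from everything above and `BSL.fle_closed`, `BSL.flq_closed`,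
`CORE.exists_dat`, `t_NOA`, `t_NQE`). -/
def StmtPwv2 : Prop :=
  ∀ (Γ : Subgroup SL(2, ℝ)) [Countable Γ] (ρ : ℍ → ℝ),
    ContDiffOn ℝ ∞ (fun w : ℂ => ρ (ofComplex w)) {w | 0 < w.im} →
    (∀ γ ∈ Γ, ∀ z, ρ (γ • z) = ρ z) →
    ∀ D : Set ℍ, MeasurableSet D → IsFundamentalDomain Γ D (volume : Measure ℍ) →
    (∃ K : Set ℍ, IsCompact K ∧ ∀ z, ∃ γ ∈ Γ, γ • z ∈ K) →
    ∀ (φ : ℕ → ℍ → ℝ) (m : ℕ → ℝ), Berry.REigenSeq Γ ρ φ m →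
    (∀ n, ContDiffOn ℝ ∞ (fun w : ℂ => φ n (ofComplex w)) {w | 0 < w.im}) →
    (∀ n, Berry.rAvg ρ D (fun z => φ n z ^ 2) = 1) →
    ∀ (Ω : Type) [MeasurableSpace Ω] (P : Measure Ω) [IsProbabilityMeasure P] (F : ℂ → Ω → ℝ),
    (∀ x, Measurable (F x)) → FLim ρ D φ m P F → ∫ o, F 0 o ^ 2 ∂P = 1 →
    Integrable (fun o => F 0 o ^ 4) P →
    (∀ x : ℂ, Integrable (F x) P ∧ ∫ o, F x o ∂P = 0) ∧
    (∀ x y : ℂ, Integrable (fun o => F x o * F y o) P ∧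
      ∫ o, F x o * F y o ∂P = Berry.waveK (x - y)) ∧
    (∀ x₁ x₂ x₃ x₄ : ℂ, Integrable (fun o => F x₁ o * F x₂ o * F x₃ o * F x₄ o) P) ∧
    ∃ Q : ℝ, 0 ≤ Q ∧
      Tendsto (fun N => ∫ o, en (fun x => F x o) N ∂P) atTop (𝓝 Q) ∧
      Tendsto (fun N => ∫ o, loc (fun x => F x o) N ^ 2 ∂P) atTop
        (𝓝 ((∫ o, F 0 o ^ 4 ∂P) / 3 + Q)) ∧
      (Q = 0 ↔ Tendsto (fun N => ∫⁻ o, ⨆ v : ℂ, ENNReal.ofReal (‖coef (fun x => F x o) N v‖ ^ 4) ∂P)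
        atTop (𝓝 0)) ∧
      (QE.QuantumErgodic ρ φ m → ∫ o, F 0 o ^ 4 ∂P = 3 + 3 * Q ∧
        (∀ x₁ x₂ x₃ : ℂ, ∫ o, F x₁ o * F x₂ o * F x₃ o ∂P = 0) ∧
        ∀ x₁ x₂ x₃ x₄ : ℂ, ∫ o, F x₁ o * F x₂ o * F x₃ o * F x₄ o ∂P
          = Berry.waveK (x₁ - x₂) * Berry.waveK (x₃ - x₄)
            + Berry.waveK (x₁ - x₃) * Berry.waveK (x₂ - x₄)
            + Berry.waveK (x₁ - x₄) * Berry.waveK (x₂ - x₃)
            + Q * (Berry.waveK (x₁ + x₂ - x₃ - x₄) + Berry.waveK (x₁ + x₃ - x₂ - x₄)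
              + Berry.waveK (x₁ + x₄ - x₂ - x₃))) ∧
      ((∀ z : ℍ, 0 < 1 + z.im ^ 2 * Laplacian.laplacian (fun w : ℂ => ρ (ofComplex w)) z) →
        3 + 3 * Q ≤ ∫ o, F 0 o ^ 4 ∂P ∧ (∫ o, F 0 o ^ 4 ∂P = 3 + 3 * Q ↔ Equi φ) ∧
        (∫ o, F 0 o ^ 4 ∂P = 3 ↔
          Tendsto (fun N => ∫ o, (loc (fun x => F x o) N - 1) ^ 2 ∂P) atTop (𝓝 0)) ∧
        (∫ o, F 0 o ^ 4 ∂P = 3 ↔ Equi φ ∧ Q = 0)) ∧
      List.TFAE [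
        (∀ x₁ x₂ x₃ : ℂ, ∫ o, F x₁ o * F x₂ o * F x₃ o ∂P = 0) ∧
          ∀ x₁ x₂ x₃ x₄ : ℂ, ∫ o, F x₁ o * F x₂ o * F x₃ o * F x₄ o ∂P
            = Berry.waveK (x₁ - x₂) * Berry.waveK (x₃ - x₄)
              + Berry.waveK (x₁ - x₃) * Berry.waveK (x₂ - x₄)
              + Berry.waveK (x₁ - x₄) * Berry.waveK (x₂ - x₃),
        QE.QuantumErgodic ρ φ m ∧ ∫ o, F 0 o ^ 4 ∂P = 3,
        QE.QuantumErgodic ρ φ m ∧ Q = 0,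
        QE.QuantumErgodic ρ φ m ∧
          Tendsto (fun N => ∫ o, (loc (fun x => F x o) N - 1) ^ 2 ∂P) atTop (𝓝 0),
        ∀ a : ℂ, Tendsto (fun N => ∫ o, (cor (fun x => F x o) N a - Berry.waveK a) ^ 2 ∂P) atTop
          (𝓝 0),
        ∃ a : ℂ, a ≠ 0 ∧ Hull P F a] ∧
      (Ergo P F → QE.QuantumErgodic ρ φ m ∧ Q = 0)

end

end PWV
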